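import Pool.Agent.TFR.Stmts
import Pool.Agent.DIS.Interface

/-!
# Counts of sections with poles in the tubes: from the complete discrete valuation ring to the
algebraic closure
-/

set_option autoImplicit false

noncomputable section

namespace Pool.Agent.TFR

open scoped Classical
open MvPolynomial Pool.Agent.LibDb3ab1 Pool.Agent.DC Pool.Agent.FRM

section defs

variable {N : ℕ} {K : Type} [Field K]

/-- The closed set defined by the homogeneous ideal `Jd` is in the tube around the common zeros of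
the coordinates `X i`, `i ∈ A`. -/
structure TubeV (V : ValuationSubring K) (Jd : Ideal (MvPolynomial (Fin (N + 1)) K))
    (A : Set (Fin (N + 1))) : Prop where
  hom : Homog Jd
  small : ∀ i ∈ A, ∃ ϖ : V, ϖ ≠ 0 ∧ ¬IsUnit ϖ ∧ (vmap V Jd).IsIntegralElem
    (Ideal.Quotient.mk Jd (C ((ϖ : K)⁻¹) * X i))

/-- The fraction `G / G₀` modulo the prime ideal `Q` has poles only in the tube around the common
zeros of the coordinates `X i`, `i ∈ A`. -/
def PolesV (V : ValuationSubring K) (Q : Ideal (MvPolynomial (Fin (N + 1)) K)) [Q.IsPrime]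
    (A : Set (Fin (N + 1))) (G₀ G : MvPolynomial (Fin (N + 1)) K) : Prop :=
  ∃ Jd : Ideal (MvPolynomial (Fin (N + 1)) K), Q ≤ Jd ∧ TubeV V Jd A ∧ ∀ j ∈ Jd,
    IsIntegral (MvPolynomial (Fin (N + 1)) K ⧸ Q)
      (algebraMap (MvPolynomial (Fin (N + 1)) K ⧸ Q)
        (FractionRing (MvPolynomial (Fin (N + 1)) K ⧸ Q)) (Ideal.Quotient.mk Q (j * G)) /
      algebraMap (MvPolynomial (Fin (N + 1)) K ⧸ Q)
        (FractionRing (MvPolynomial (Fin (N + 1)) K ⧸ Q)) (Ideal.Quotient.mk Q G₀))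

/-- The dimension of the component of degree `n` of the quotient by `Q`. -/
def hilb (Q : Ideal (MvPolynomial (Fin (N + 1)) K)) (n : ℕ) : ℕ :=
  Module.finrank K ((homogeneousSubmodule (Fin (N + 1)) K n).map
    (Ideal.Quotient.mkₐ K Q).toLinearMap)

/-- The projective variety defined by `Q` is a surface of degree `δ`. -/
def HilbDeg (Q : Ideal (MvPolynomial (Fin (N + 1)) K)) (δ : ℕ) : Prop :=
  ∃ B : ℝ, ∀ n : ℕ, |(hilb Q n : ℝ) - (δ : ℝ) * (n : ℝ) ^ 2 / 2| ≤ B * ((n : ℝ) + 1)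

end defs

/-- The full counts, over the valuation ring `V`, modulo the prime ideal `Q`. -/
def FullV {K : Type} [Field K] (V : ValuationSubring K)
    (Q : Ideal (MvPolynomial (Fin (XV.N + 1)) K)) [Q.IsPrime] : Prop :=
  ∃ δ : ℕ, HilbDeg Q δ ∧ ∀ s : Fin 10, ∀ ε : ℝ, 0 < ε → ∃ n₀ : ℕ, ∀ n : ℕ, n₀ ≤ n →
    ∃ (k m : ℕ) (G₀ : MvPolynomial (Fin (XV.N + 1)) K)
      (G : Fin m → MvPolynomial (Fin (XV.N + 1)) K),
      G₀.IsHomogeneous k ∧ G₀ ∉ Q ∧ (∀ i, (G i).IsHomogeneous (k + n)) ∧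
      LinearIndependent K (fun i => Ideal.Quotient.mk Q (G i)) ∧
      (∀ i, PolesV V Q {c | 1 ≤ (XV.pt c).e s} G₀ (G i)) ∧
      ((3 / 5 : ℝ) * δ - ε) * n ^ 2 ≤ m

section statements

/-- TJB: fractions with poles in the tube over `K` have poles in the tube over `Ka` (uses Hie). -/
def Stmt_Tjb : Prop :=
  ∀ (p N : ℕ) [Fact p.Prime] (J : Type) (E : Eqs p N J) (W : Set (Fin (N + 1)))
    (S : ExactSurf E 2 W) (Φ : FF S) (A : Set (Fin (N + 1))) [S.T.Q.IsPrime] (k n : ℕ)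
    (G₀ G : MvPolynomial (Fin (N + 1)) S.M.K), G₀.IsHomogeneous k → G₀ ∉ S.T.Q →
    G.IsHomogeneous (k + n) → PolesV S.M.V S.T.Q A G₀ G →
    (aeval Φ.ξ (MvPolynomial.map (algebraMap S.M.K S.Ka) G) /
      aeval Φ.ξ (MvPolynomial.map (algebraMap S.M.K S.Ka) G₀) : Φ.F) ∈
      DIS.PolesOn S.Ka (Φ.ζ 1) (Φ.ζ 2)
        (fun e => DIS.InTube S.O (Φ.ζ 1) (Φ.ζ 2) Φ.ξ A e.1) n

/-- TLI: linear independence over the algebraic closure. -/
def Stmt_Tli : Prop :=
  ∀ (N : ℕ) (K L F : Type) [Field K] [Field L] [Algebra K L] [Field F] [Algebra L F]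
    (Q : Ideal (MvPolynomial (Fin (N + 1)) K)) (z : Fin 3 → MvPolynomial (Fin (N + 1)) L)
    (ξ : Fin (N + 1) → F), Deh (Q.map (MvPolynomial.map (algebraMap K L))) z F ξ →
    ∀ (m l : ℕ) (G : Fin m → MvPolynomial (Fin (N + 1)) K), (∀ i, (G i).IsHomogeneous l) →
    LinearIndependent K (fun i => Ideal.Quotient.mk Q (G i)) →
    LinearIndependent L (fun i => (aeval ξ (MvPolynomial.map (algebraMap K L) (G i)) : F))

/-- TDA: the Hilbert function does not change under extension of the field. -/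
def Stmt_Tda : Prop :=
  ∀ (N : ℕ) (K L : Type) [Field K] [Field L] (μ : K →+* L)
    (Q : Ideal (MvPolynomial (Fin (N + 1)) K)) (n : ℕ),
    hilb (Q.map (MvPolynomial.map μ)) n = hilb Q n

/-- TDB: the Hilbert polynomial and the degree over the plane (uses Dzn). -/
def Stmt_Tdb : Prop :=
  ∀ (N : ℕ) (K : Type) [Field K] (Q : Ideal (MvPolynomial (Fin (N + 1)) K)), Q.IsPrime →
    Homog Q → ringKrullDim (MvPolynomial (Fin (N + 1)) K ⧸ Q) = (2 + 1 : ℕ) →
    ∀ z : Fin 3 → MvPolynomial (Fin (N + 1)) K, (∀ i, (z i).IsHomogeneous 1) →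
    (∀ i, (kmap Q z).IsIntegralElem (Ideal.Quotient.mk Q (X i))) →
    ∀ (F : Type) [Field F] [Algebra K F] (ξ : Fin (N + 1) → F), Deh Q z F ξ →
      SRF.IsSurf K (aeval ξ (z 1) : F) (aeval ξ (z 2)) →
      HilbDeg Q (DIS.deg K (aeval ξ (z 1) : F) (aeval ξ (z 2)))

/-- FDC: finite extensions of complete discrete valuation rings, with the same residue field, are
complete. -/
def Stmt_Fdc : Prop :=
  ∀ (K L : Type) [Field K] [Field L] (μ : K →+* L) (V : ValuationSubring K)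
    (O : ValuationSubring L), IsDiscreteValuationRing V → IsDiscreteValuationRing O →
    O.comap μ = V → IsAdicComplete (IsLocalRing.maximalIdeal V) V →
    (∀ x : O, ∃ a : V, (x : L) - μ a ∈ O.nonunits) →
    IsAdicComplete (IsLocalRing.maximalIdeal O) O

end statements

end Pool.Agent.TFR
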