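import Pool.Agent.TFR.StmtsB
import Pool.Agent.XV.FIB

/-!
# The dimension of the special fibre of the exact surfaces
-/

set_option autoImplicit false

noncomputable section

namespace Pool.Agent.TFR

open scoped Classical
open MvPolynomial Pool.Agent.LibDb3ab1 Pool.Agent.DC Pool.Agent.FRM

namespace DimW_

variable (K : Type) [Field K]

theorem br2_ne (i j : Fin 5) (h : i ≠ j) : XV.br2 K i j ≠ 0 := by
  intro h0
  have h1 := congrArg (MvPolynomial.eval (fun v : XV.Vr => match v with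
    | XV.Vr.a k => if k = i then (1 : K) else 0
    | XV.Vr.b k => if k = j then (1 : K) else 0
    | XV.Vr.u => 1
    | XV.Vr.T => 1)) h0
  simp [XV.br2, h, h.symm] at h1

theorem eS_ne_eT (k : Fin 10) : XV.eS k ≠ XV.eT k := by
  revert k
  decide

theorem cm_ne (c : XV.Pt) : XV.cm K c ≠ 0 := by
  unfold XV.cm XV.mon
  refine mul_ne_zero (mul_ne_zero (pow_ne_zero _ (X_ne_zero _)) (pow_ne_zero _ (X_ne_zero _))) ?_
  rw [Finset.prod_ne_zero_iff]
  intro k _
  exact pow_ne_zero _ (br2_ne K _ _ (eS_ne_eT k))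

end DimW_

open DimW_ in
/-- The special fibre of the exact surfaces has dimension at most two. -/
theorem dimW (hSpx : XV.Stmt_Spx) (K : Type) [Field K]
    (a : Ideal (MvPolynomial (Fin (XV.N + 1)) K))
    (h1 : ∀ g ∈ XV.I ℤ, MvPolynomial.map (Int.castRingHom K) g ∈ a)
    (h2 : ∀ c, 1 ≤ (XV.pt c).w → X c ∈ a) :
    ringKrullDim (MvPolynomial (Fin (XV.N + 1)) K ⧸ a) ≤ (2 + 1 : ℕ) := by
  refine XV.FIB_.dim_le a _ fun P hP hQP => ?_
  obtain ⟨h3, h4⟩ := hSpx K P hP fun g hg => hQP (h1 g hg)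
  by_contra h5
  have h6 : (4 : WithBot ℕ∞) ≤ ringKrullDim (MvPolynomial (Fin (XV.N + 1)) K ⧸ P) := by
    rw [not_le] at h5
    generalize ringKrullDim (MvPolynomial (Fin (XV.N + 1)) K ⧸ P) = D at h5
    induction D using WithBot.recBotCoe with
    | bot => exact absurd h5 not_lt_bot
    | coe D =>
      have h10 : ((2 + 1 : ℕ) : WithBot ℕ∞) = (((2 + 1 : ℕ) : ℕ∞) : WithBot ℕ∞) := rfl
      rw [h10, WithBot.coe_lt_coe] at h5
      have h11 : (4 : WithBot ℕ∞) = ((4 : ℕ∞) : WithBot ℕ∞) := rfl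
      rw [h11, WithBot.coe_le_coe]
      have h12 := Order.add_one_le_of_lt h5
      exact h12
  have h7 := h4 h6
  have h8 : X (XV.pt.symm (XV.tp 0 3)) ∈ P := hQP (h2 _ (by
    rw [Equiv.apply_symm_apply]
    decide))
  rw [h7] at h8
  have h9 : XV.cx K (XV.xc K (XV.tp 0 3)) = 0 := h8
  rw [XV.cx_xc] at h9
  exact cm_ne K _ h9

/-- The dimension for the equations. -/
theorem dimE (hSpx : XV.Stmt_Spx) {p : ℕ} {J : Type} {E : Eqs p XV.N J}
    (hE : XV.GoodEqs E) (K : Type) [Field K] :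
    ringKrullDim (MvPolynomial (Fin (XV.N + 1)) K ⧸
      (Ideal.span (Set.range fun j => red K (E.g j)) ⊔
        Ideal.span ((fun i => X i) '' {c | 1 ≤ (XV.pt c).w}) :
        Ideal (MvPolynomial (Fin (XV.N + 1)) K))) ≤ (2 + 1 : ℕ) := by
  refine dimW hSpx K _ (fun g hg => ?_) fun c hc => ?_
  · refine (le_sup_left : _ ≤ Ideal.span (Set.range fun j => red K (E.g j)) ⊔ _) ?_
    rw [← hE.span] at hg
    have h : Ideal.map (MvPolynomial.map (Int.castRingHom K))
        (Ideal.span (Set.range E.g)) ≤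
          Ideal.span (Set.range fun j => red K (E.g j)) := by
      rw [Ideal.map_span]
      refine Ideal.span_mono ?_
      rintro _ ⟨_, ⟨j, rfl⟩, rfl⟩
      exact ⟨j, rfl⟩
    exact h (Ideal.mem_map_of_mem _ hg)
  · exact (le_sup_right : Ideal.span ((fun i => X i) '' {c | 1 ≤ (XV.pt c).w}) ≤ _)
      (Ideal.subset_span ⟨c, hc, rfl⟩)

end Pool.Agent.TFR
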