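import Pool.Agent.TFR.StmtsB

/-!
# Complete discrete valuation rings inside of the valuation ring of the algebraic closure
-/

set_option autoImplicit false

noncomputable section

namespace Pool.Agent.TFR

open scoped Classical
open MvPolynomial Pool.Agent.LibDb3ab1 Pool.Agent.DC Pool.Agent.FRM

/-- The field `dvr` of the interface. -/
theorem dvrs_a (hFdv : Stmt_Fdv) (hFdc : Stmt_Fdc) {p N : ℕ} [Fact p.Prime] {J : Type}
    {E : Eqs p N J} {d : ℕ} {W : Set (Fin (N + 1))} (S : ExactSurf E d W) : DIS.Dvrs S.O := by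
  intro A
  have hfin : FiniteDimensional S.M.K (IntermediateField.adjoin S.M.K (A : Set S.Ka)) :=
    IntermediateField.finiteDimensional_adjoin fun x _ => Algebra.IsIntegral.isIntegral x
  let L := IntermediateField.adjoin S.M.K (A : Set S.Ka)
  let K₁ : Subfield S.Ka := L.toSubfield
  let μ : S.M.K →+* K₁ := (algebraMap S.M.K S.Ka).codRestrict K₁ fun x => L.algebraMap_mem x
  have hμf : μ.Finite := by
    have h1 : (algebraMap S.M.K L).Finite := by
      rw [RingHom.finite_algebraMap]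
      exact hfin
    exact h1
  have hcomap : (S.O.comap K₁.subtype).comap μ = S.M.V := by
    rw [← S.comap]
    rfl
  have hdvr := S.M.dvr
  have hcompl := S.M.complete
  obtain ⟨⟨μV, h1, h2⟩, -, -, h5⟩ := hFdv S.M.K K₁ μ S.M.V (S.O.comap K₁.subtype) hdvr hcomap
    hμf.to_isIntegral S.M.F S.M.c S.M.bij
  have h6 := h5 hμf
  refine ⟨K₁, fun a ha => IntermediateField.subset_adjoin _ _ ha, h6, ?_, ?_⟩
  · refine hFdc S.M.K K₁ μ S.M.V (S.O.comap K₁.subtype) hdvr h6 hcomap hcompl fun x => ?_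
    obtain ⟨f, hf⟩ := h2.2 (IsLocalRing.residue _ x)
    refine ⟨S.M.c f, ?_⟩
    have h7 : x - μV (S.M.c f) ∈ IsLocalRing.maximalIdeal (S.O.comap K₁.subtype) := by
      rw [← IsLocalRing.residue_eq_zero_iff, map_sub, ← hf]
      exact sub_self _
    rw [← h1]
    exact ValuationSubring.mem_nonunits_iff_exists_mem_maximalIdeal.2
      ⟨(x - μV (S.M.c f)).2, h7⟩
  · intro a ha
    obtain ⟨f, hf⟩ := S.bij.2 (IsLocalRing.residue S.O ⟨a, ha⟩)
    refine ⟨S.ι (S.M.c f), ?_, (S.ι (S.M.c f)).2, ?_⟩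
    · rw [S.ι_coe]
      exact L.algebraMap_mem _
    · have h7 : (⟨a, ha⟩ : S.O) - S.ι (S.M.c f) ∈ IsLocalRing.maximalIdeal S.O := by
        rw [← IsLocalRing.residue_eq_zero_iff, map_sub, ← hf]
        exact sub_self _
      exact ValuationSubring.mem_nonunits_iff_exists_mem_maximalIdeal.2
        ⟨((⟨a, ha⟩ : S.O) - S.ι (S.M.c f)).2, h7⟩

end Pool.Agent.TFR
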