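import Pool.Agent.TFR.Main
import Pool.Agent.TFR.DimW
import Pool.Agent.TFR.Dvr

/-!
# The counting part of the disproof from its two algebraic parts
-/

set_option autoImplicit false

noncomputable section

namespace Pool.Agent.TFR

open scoped Classical
open MvPolynomial Pool.Agent.LibDb3ab1 Pool.Agent.DC Pool.Agent.FRM

/-- Existence of exact surfaces (DIS 4.1, 4.2). -/
def Stmt_Exact : Prop :=
  ∀ (p : ℕ) [Fact p.Prime] (J : Type) [Finite J] (E : Eqs p XV.N J), XV.GoodEqs E →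
    ∀ M : CompleteModel E (2 + 1), Nonempty (ExactPrime M {c | 1 ≤ (XV.pt c).w})

/-- Full counts on all exact surfaces (DIS 4.4, 4.5). -/
def Stmt_FullV : Prop :=
  ∀ (p : ℕ) [Fact p.Prime] (J : Type) [Finite J] (E : Eqs p XV.N J), XV.GoodEqs E →
    ∀ (M : CompleteModel E (2 + 1)) (T : ExactPrime M {c | 1 ≤ (XV.pt c).w}) [T.Q.IsPrime],
      FullV M.V T.Q

/-- **The counting part.** -/
theorem count (hSpx : XV.Stmt_Spx) (hFdv : Stmt_Fdv) (hFdc : Stmt_Fdc) (hTfm : Stmt_Tfm)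
    (hFfa : Stmt_Ffa) (hTjb : Stmt_Tjb) (hTli : Stmt_Tli) (hTda : Stmt_Tda) (hTdb : Stmt_Tdb)
    (hExact : Stmt_Exact) (hFull : Stmt_FullV) : DIS.Stmt_Count := by
  intro p _ J _ E hE M
  obtain ⟨S⟩ := hTfm p XV.N 2 J E {c | 1 ≤ (XV.pt c).w} (dimE hSpx hE (ZMod p)) M
    (hExact p J E hE M)
  obtain ⟨Φ⟩ := hFfa p XV.N J E _ S
  haveI := S.T.prime
  have hd := dvrs_a hFdv hFdc S
  exact ⟨toDis Φ hd, full_of_fullV hTjb hTli hTda hTdb Φ hd (hFull p J E hE S.M S.T)⟩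

end Pool.Agent.TFR
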