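import Pool.Agent.TFR.Stmts

/-!
Module DEH of part TFR: the field of fractions of degree zero.
-/

set_option autoImplicit false

noncomputable section

namespace Pool.Agent.TFR

open scoped Classical
open MvPolynomial Pool.Agent.LibDb3ab1 Pool.Agent.DC Pool.Agent.FRM

namespace DEH_

theorem hom_eval {N : ℕ} {K L : Type} [Field K] [Field L] [Algebra K L] (x : Fin (N + 1) → L)
    (c : L) (G : MvPolynomial (Fin (N + 1)) K) (m : ℕ) (hG : G.IsHomogeneous m) :
    aeval (fun i => x i / c) G = aeval x G / c ^ m := by
  rw [aeval_def, aeval_def, eval₂_eq', eval₂_eq', Finset.sum_div]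
  refine Finset.sum_congr rfl fun d hd => ?_
  have h1 : ∑ i, d i = m := by
    have := hG (mem_support_iff.1 hd)
    rw [← this, Finsupp.weight_apply, Finsupp.sum_fintype]
    · simp
    · intro i
      simp
  rw [mul_div_assoc]
  congr 1
  rw [← h1, ← Finset.prod_pow_eq_pow_sum, ← Finset.prod_div_distrib]
  refine Finset.prod_congr rfl fun i _ => ?_
  rw [div_pow]

end DEH_

open DEH_ in
theorem deh_proof : Stmt_Deh := by
  intro N K _ Q hQ hhom z hz hz0
  let B := MvPolynomial (Fin (N + 1)) K ⧸ Q
  let L := FractionRing B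
  let x : Fin (N + 1) → L := fun i => algebraMap B L (Ideal.Quotient.mk Q (X i))
  have hev : ∀ G : MvPolynomial (Fin (N + 1)) K,
      aeval x G = algebraMap B L (Ideal.Quotient.mk Q G) := by
    intro G
    have h1 : (aeval x : MvPolynomial (Fin (N + 1)) K →ₐ[K] L) =
        (IsScalarTower.toAlgHom K B L).comp (Ideal.Quotient.mkₐ K Q) := by
      apply MvPolynomial.algHom_ext
      intro i
      rw [aeval_X]
      rfl
    rw [h1]
    rfl
  have hz0' : aeval x (z 0) ≠ 0 := by
    rw [hev]
    intro h
    rw [FaithfulSMul.algebraMap_eq_zero_iff, Ideal.Quotient.eq_zero_iff_mem] at h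
    exact hz0 h
  let c : L := aeval x (z 0)
  let S : Set L := Set.range fun i => x i / c
  let F := IntermediateField.adjoin K S
  let ξ : Fin (N + 1) → F := fun i =>
    ⟨x i / c, IntermediateField.subset_adjoin K S ⟨i, rfl⟩⟩
  have hval : ∀ G : MvPolynomial (Fin (N + 1)) K, ((aeval ξ G : F) : L) =
      aeval (fun i => x i / c) G := by
    intro G
    have h1 : (F.val.comp (aeval ξ : MvPolynomial (Fin (N + 1)) K →ₐ[K] F)) =
        aeval (fun i => x i / c) := by
      apply MvPolynomial.algHom_ext
      intro i
      rw [AlgHom.comp_apply, aeval_X, aeval_X]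
      rfl
    exact congrArg (fun f => f G) h1
  refine ⟨F, inferInstance, inferInstance, ξ, ?_, ?_, ?_⟩
  · intro G m hG
    have h2 : (aeval ξ G : F) = 0 ↔ ((aeval ξ G : F) : L) = 0 := by
      rw [ZeroMemClass.coe_eq_zero]
    rw [h2, hval, hom_eval x c G m hG, div_eq_zero_iff, hev, FaithfulSMul.algebraMap_eq_zero_iff,
      Ideal.Quotient.eq_zero_iff_mem]
    constructor
    · intro h
      exact Or.inl h
    · rintro (h | h)
      · exact h
      · exact absurd h (pow_ne_zero _ hz0')
  · apply Subtype.ext
    rw [hval, hom_eval x c (z 0) 1 (hz 0), pow_one]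
    exact div_self hz0'
  · apply IntermediateField.lift_injective F
    rw [IntermediateField.lift_adjoin, IntermediateField.lift_top]
    show IntermediateField.adjoin K (Subtype.val '' Set.range ξ) = IntermediateField.adjoin K S
    congr 1
    rw [← Set.range_comp]
    rfl

end Pool.Agent.TFR
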