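import Pool.Agent.TFR.Stmts

/-!
# TFR, module HIE: homogeneous integral equations
-/

set_option autoImplicit false

noncomputable section

namespace Pool.Agent.TFR

open scoped Classical
open MvPolynomial Pool.Agent.LibDb3ab1 Pool.Agent.DC Pool.Agent.FRM

namespace HIE_

theorem comp_mul {σ R : Type} [CommRing R] (G B : MvPolynomial σ R) (k d : ℕ)
    (hB : B.IsHomogeneous d) :
    homogeneousComponent (k + d) (G * B) = homogeneousComponent k G * B := by
  conv_lhs => rw [← sum_homogeneousComponent G, Finset.sum_mul, map_sum]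
  have h1 : ∀ j, homogeneousComponent (k + d) (homogeneousComponent j G * B) =
      if k = j then homogeneousComponent k G * B else 0 := by
    intro j
    rw [homogeneousComponent_of_mem ((homogeneousComponent_isHomogeneous j G).mul hB)]
    by_cases h : k = j
    · rw [if_pos (by omega), if_pos h, h]
    · rw [if_neg (by omega), if_neg h]
  simp only [h1]
  rw [Finset.sum_ite_eq]
  split_ifs with h
  · rfl
  · rw [homogeneousComponent_eq_zero k G (by simpa using h), zero_mul]

theorem comp_map {σ R S : Type} [CommRing R] [CommRing S] (ρ : R →+* S) (G : MvPolynomial σ R)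
    (k : ℕ) : homogeneousComponent k (MvPolynomial.map ρ G) =
      MvPolynomial.map ρ (homogeneousComponent k G) := by
  ext d
  rw [coeff_homogeneousComponent, coeff_map, coeff_map, coeff_homogeneousComponent]
  split_ifs with h
  · rfl
  · rw [map_zero]

theorem comp_aeval {σ τ R : Type} [CommRing R] (z : σ → MvPolynomial τ R)
    (hz : ∀ i, (z i).IsHomogeneous 1) (G : MvPolynomial σ R) (k : ℕ) :
    homogeneousComponent k (aeval z G) = aeval z (homogeneousComponent k G) := by
  conv_lhs => rw [← sum_homogeneousComponent G, map_sum, map_sum]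
  have h1 : ∀ j, homogeneousComponent k (aeval z (homogeneousComponent j G)) =
      if k = j then aeval z (homogeneousComponent k G) else 0 := by
    intro j
    have h2 : (aeval z (homogeneousComponent j G)).IsHomogeneous j := by
      have h3 := (homogeneousComponent_isHomogeneous j G).aeval z hz
      simpa using h3
    rw [homogeneousComponent_of_mem h2]
    by_cases h : k = j
    · rw [if_pos h, if_pos h, h]
    · rw [if_neg h, if_neg h]
  simp only [h1]
  rw [Finset.sum_ite_eq]
  split_ifs with h
  · rfl
  · rw [homogeneousComponent_eq_zero k G (by simpa using h), map_zero]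

end HIE_

open HIE_ in
theorem hie_proof : Stmt_Hie := by
  intro N r A K _ _ ρ Q hQ z hz b m hb hint
  obtain ⟨f0, hf0, he0⟩ := hint
  -- a monic equation of positive degree
  obtain ⟨f, hf, he, hn⟩ : ∃ f : Polynomial (MvPolynomial (Fin r) A), f.Monic ∧
      f.eval₂ (amap ρ Q z) (Ideal.Quotient.mk Q b) = 0 ∧ 0 < f.natDegree := by
    by_cases h : Nontrivial (MvPolynomial (Fin r) A)
    · refine ⟨f0 * Polynomial.X, hf0.mul Polynomial.monic_X, ?_, ?_⟩
      · rw [Polynomial.eval₂_mul, he0, zero_mul]
      · rw [Polynomial.natDegree_mul_X hf0.ne_zero]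
        exact Nat.succ_pos _
    · rw [not_nontrivial_iff_subsingleton] at h
      exfalso
      have h1 : (1 : A) = 0 := by
        have h2 : (C 1 : MvPolynomial (Fin r) A) = C 0 := Subsingleton.elim _ _
        exact C_injective _ _ h2
      have h3 := congrArg ρ h1
      rw [map_one, map_zero] at h3
      exact one_ne_zero h3
  set n := f.natDegree with hn'
  refine ⟨n, fun i => homogeneousComponent (i * m) (f.coeff (n - i)), hn,
    fun i => homogeneousComponent_isHomogeneous _ _, ?_⟩
  -- the equation in the ring
  have hmem : b ^ n + ∑ i ∈ Finset.Icc 1 n, MvPolynomial.map ρ (aeval z (f.coeff (n - i))) *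
      b ^ (n - i) ∈ Q := by
    rw [← Ideal.Quotient.eq_zero_iff_mem, map_add, map_sum, map_pow]
    rw [Polynomial.eval₂_eq_sum_range, ← hn', Finset.sum_range_succ] at he
    have h1 : (amap ρ Q z) (f.coeff n) = 1 := by
      rw [hn', hf.coeff_natDegree, map_one]
    rw [h1, one_mul] at he
    have h5 : ∑ i ∈ Finset.Icc 1 n, (Ideal.Quotient.mk Q) (MvPolynomial.map ρ
        (aeval z (f.coeff (n - i))) * b ^ (n - i)) =
        ∑ j ∈ Finset.range n, (amap ρ Q z) (f.coeff j) * (Ideal.Quotient.mk Q) b ^ j := ?_
    · rw [h5]
      exact (add_comm _ _).trans he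
    refine Finset.sum_bij (fun i _ => n - i) ?_ ?_ ?_ ?_
    · intro i hi
      rw [Finset.mem_Icc] at hi
      rw [Finset.mem_range]; omega
    · intro i hi j hj hij
      rw [Finset.mem_Icc] at hi hj
      omega
    · intro j hj
      rw [Finset.mem_range] at hj
      exact ⟨n - j, Finset.mem_Icc.2 (by omega), by omega⟩
    · intro i _
      rw [map_mul, map_pow]
      rfl
  have h2 := hQ _ hmem (n * m)
  rw [map_add, map_sum] at h2
  have hbn : ∀ k, (b ^ k).IsHomogeneous (k * m) := fun k => by
    rw [mul_comm]; exact hb.pow k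
  have h3 : homogeneousComponent (n * m) (b ^ n) = b ^ n :=
    homogeneousComponent_eq_self (hbn n)
  rw [h3] at h2
  refine (Eq.mp (congrArg (· ∈ Q) ?_) h2 : _)
  congr 1
  refine Finset.sum_congr rfl fun i hi => ?_
  rw [Finset.mem_Icc] at hi
  have h4 : n * m = i * m + (n - i) * m := by
    rw [← add_mul]; congr 1; omega
  rw [h4, comp_mul _ _ _ _ (hbn (n - i)), HIE_.comp_map, comp_aeval z hz]

end Pool.Agent.TFR
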