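import Pool.Agent.TFR.Stmts
import Pool.Agent.DC.DIMF

set_option autoImplicit false

noncomputable section

namespace Pool.Agent.TFR

open scoped Classical
open MvPolynomial Pool.Agent.LibDb3ab1 Pool.Agent.DC Pool.Agent.FRM

namespace DFP_

theorem map_red {p N : ℕ} [Fact p.Prime] (F : Type) [Field F] (ι : ZMod p →+* F)
    (G : MvPolynomial (Fin (N + 1)) ℤ) :
    MvPolynomial.map ι (red (ZMod p) G) = red F G := by
  have h : ι.comp (Int.castRingHom (ZMod p)) = Int.castRingHom F := RingHom.ext_int _ _
  change MvPolynomial.map ι (MvPolynomial.map (Int.castRingHom (ZMod p)) G) =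
    MvPolynomial.map (Int.castRingHom F) G
  rw [MvPolynomial.map_map, h]

theorem map_ideal {p N : ℕ} [Fact p.Prime] (J : Type) (g : J → MvPolynomial (Fin (N + 1)) ℤ)
    (W : Set (Fin (N + 1))) (F : Type) [Field F] (ι : ZMod p →+* F) :
    (Ideal.span (Set.range fun j => red (ZMod p) (g j)) ⊔ Ideal.span ((fun i => X i) '' W) :
        Ideal (MvPolynomial (Fin (N + 1)) (ZMod p))).map (MvPolynomial.map ι) =
    (Ideal.span (Set.range fun j => red F (g j)) ⊔ Ideal.span ((fun i => X i) '' W) :
        Ideal (MvPolynomial (Fin (N + 1)) F)) := by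
  rw [Ideal.map_sup, Ideal.map_span, Ideal.map_span]
  congr 2
  · rw [← Set.range_comp]
    congr 1
    funext j
    exact map_red F ι (g j)
  · rw [Set.image_image]
    simp

end DFP_

theorem dfp_proof : Stmt_Dfp := by
  intro p N _ J g W F _ _
  have h := dimf_proof (ZMod p) F (ZMod.castHom (dvd_refl p) F) (N + 1)
    (Ideal.span (Set.range fun j => red (ZMod p) (g j)) ⊔ Ideal.span ((fun i => X i) '' W) :
        Ideal (MvPolynomial (Fin (N + 1)) (ZMod p)))
  rw [DFP_.map_ideal J g W F (ZMod.castHom (dvd_refl p) F)] at h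
  exact h

end Pool.Agent.TFR
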