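import Pool.Agent.TFR.Stmts

set_option autoImplicit false

noncomputable section

namespace Pool.Agent.TFR

open scoped Classical
open MvPolynomial Pool.Agent.LibDb3ab1 Pool.Agent.DC Pool.Agent.FRM

namespace DIO_

/-- integral elements over a valuation ring -/
theorem mem_of_eq {F : Type} [Field F] (W : ValuationSubring F) (n : ℕ) (hn : 0 < n) (c : ℕ → F)
    (hc : ∀ k, c k ∈ W) (u : F) (h : u ^ n + ∑ k ∈ Finset.Icc 1 n, c k * u ^ (n - k) = 0) :
    u ∈ W := by
  by_contra hu
  have hinv : u⁻¹ ∈ W := (W.mem_or_inv_mem u).resolve_left hu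
  have hu0 : u ≠ 0 := by
    rintro rfl
    exact hu W.zero_mem
  apply hu
  have h1 : u = -∑ k ∈ Finset.Icc 1 n, c k * (u⁻¹) ^ (k - 1) := by
    have h2 : u ^ n * (u⁻¹) ^ (n - 1) = u := by
      obtain ⟨m, rfl⟩ := Nat.exists_eq_succ_of_ne_zero hn.ne'
      rw [Nat.succ_sub_one, pow_succ, mul_right_comm, ← mul_pow, mul_inv_cancel₀ hu0, one_pow,
        one_mul]
    have h3 : ∑ k ∈ Finset.Icc 1 n, c k * (u⁻¹) ^ (k - 1)
        = (∑ k ∈ Finset.Icc 1 n, c k * u ^ (n - k)) * (u⁻¹) ^ (n - 1) := by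
      rw [Finset.sum_mul]
      refine Finset.sum_congr rfl fun k hk => ?_
      rw [Finset.mem_Icc] at hk
      have h4 : n - 1 = (n - k) + (k - 1) := by omega
      rw [h4, pow_add, mul_assoc, ← mul_assoc (u ^ (n - k)), ← mul_pow, mul_inv_cancel₀ hu0,
        one_pow, one_mul]
    have h5 : u ^ n = -∑ k ∈ Finset.Icc 1 n, c k * u ^ (n - k) := by
      linear_combination h
    rw [h3, ← neg_mul, ← h5, h2]
  rw [h1]
  exact W.neg_mem _ (W.toSubring.sum_mem fun k _ => W.mul_mem _ _ (hc k) (W.toSubring.pow_mem hinv _))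

variable {r : ℕ} {A F : Type} [CommRing A] [Field F]

theorem eval₂_scale (g : A →+* F) (y : Fin r → F) (ζ : F) (d : ℕ) (a : MvPolynomial (Fin r) A)
    (ha : a.IsHomogeneous d) : eval₂ g (fun j => ζ * y j) a = ζ ^ d * eval₂ g y a := by
  rw [eval₂_eq', eval₂_eq', Finset.mul_sum]
  refine Finset.sum_congr rfl fun s hs => ?_
  have hd : ∑ i, s i = d := by
    have h := ha (mem_support_iff.1 hs)
    rw [← h]
    simp [Finsupp.weight_apply, Finsupp.sum_fintype]
  simp only [mul_pow]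
  rw [Finset.prod_mul_distrib, Finset.prod_pow_eq_pow_sum, hd]
  ring

theorem eval₂_mem (W : ValuationSubring F) (g : A →+* F) (hg : ∀ c, g c ∈ W) (y : Fin r → F)
    (hy : ∀ j, y j ∈ W) (a : MvPolynomial (Fin r) A) : eval₂ g y a ∈ W := by
  rw [eval₂_eq']
  refine W.toSubring.sum_mem fun s _ => W.mul_mem _ _ (hg _) ?_
  exact W.toSubring.prod_mem fun i _ => W.toSubring.pow_mem (hy i) _

theorem main (hHie : Stmt_Hie) {N : ℕ} {K : Type} [Field K] [Algebra K F]
    (O : ValuationSubring K) (Q : Ideal (MvPolynomial (Fin (N + 1)) K)) (hQ : Homog Q)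
    (z : Fin r → MvPolynomial (Fin (N + 1)) O) (hz : ∀ i, (z i).IsHomogeneous 1)
    (ξ : Fin (N + 1) → F)
    (hmem : ∀ (G : MvPolynomial (Fin (N + 1)) K) (m : ℕ), G.IsHomogeneous m →
      (G ∈ Q ↔ aeval ξ G = 0)) (m : ℕ) (b : MvPolynomial (Fin (N + 1)) K)
    (hb : b.IsHomogeneous m) (hint : (amap O.subtype Q z).IsIntegralElem (Ideal.Quotient.mk Q b))
    (W : EN2.Pl O F) (ζ : F) (hζ : ζ ≠ 0)
    (h : ∀ j, (aeval ξ (MvPolynomial.map O.subtype (z j)) : F) / ζ ∈ W.W) :
    (aeval ξ b : F) / ζ ^ m ∈ W.W := by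
  obtain ⟨n, a, hn, ha, hE⟩ := hHie N r O K O.subtype Q hQ z hz b m hb hint
  set η : Fin r → F := fun j => aeval ξ (MvPolynomial.map O.subtype (z j)) with hη
  let g : O →+* F := (algebraMap K F).comp O.subtype
  have hsub : ∀ p : MvPolynomial (Fin r) O,
      (aeval ξ (MvPolynomial.map O.subtype (aeval z p)) : F) = eval₂ g η p := by
    intro p
    have h1 : (((aeval ξ : MvPolynomial (Fin (N + 1)) K →ₐ[K] F).toRingHom.comp
        (MvPolynomial.map O.subtype)).comp (aeval z).toRingHom : MvPolynomial (Fin r) O →+* F)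
        = eval₂Hom g η := by
      refine MvPolynomial.ringHom_ext ?_ ?_
      · intro c
        simp [g]
      · intro j
        simp [hη]
    exact RingHom.congr_fun h1 p
  have hhom : (b ^ n + ∑ i ∈ Finset.Icc 1 n,
      MvPolynomial.map O.subtype (aeval z (a i)) * b ^ (n - i)).IsHomogeneous (m * n) := by
    refine (hb.pow n).add (IsHomogeneous.sum _ _ _ fun i hi => ?_)
    rw [Finset.mem_Icc] at hi
    have h1 : (MvPolynomial.map O.subtype (aeval z (a i))).IsHomogeneous (1 * (i * m)) :=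
      ((ha i).aeval z hz).map _
    have h2 := h1.mul (hb.pow (n - i))
    have h3 : 1 * (i * m) + m * (n - i) = m * n := by
      obtain ⟨k, rfl⟩ := Nat.exists_eq_add_of_le hi.2
      rw [Nat.add_sub_cancel_left]
      ring
    rwa [h3] at h2
  have h0 := (hmem _ _ hhom).1 hE
  rw [map_add, map_sum, map_pow] at h0
  simp only [map_mul, map_pow, hsub] at h0
  refine mem_of_eq W.W n hn (fun k => eval₂ g (fun j => η j / ζ) (a k)) ?_ _ ?_
  · intro k
    refine eval₂_mem W.W g ?_ _ h _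
    intro c
    exact (W.mem_iff _).2 c.2
  · have h1 : ∀ k, eval₂ g η (a k) = ζ ^ (k * m) * eval₂ g (fun j => η j / ζ) (a k) := by
      intro k
      rw [← eval₂_scale g _ ζ (k * m) (a k) (ha k)]
      congr 1
      funext j
      rw [mul_div_cancel₀ _ hζ]
    have h2 : ζ ^ (n * m) * ((aeval ξ b / ζ ^ m) ^ n + ∑ k ∈ Finset.Icc 1 n,
        eval₂ g (fun j => η j / ζ) (a k) * (aeval ξ b / ζ ^ m) ^ (n - k)) = 0 := by
      rw [← h0, mul_add, Finset.mul_sum]
      congr 1
      · rw [div_pow, ← pow_mul, mul_comm m n, mul_div_cancel₀ _ (pow_ne_zero _ hζ)]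
      · refine Finset.sum_congr rfl fun k hk => ?_
        rw [Finset.mem_Icc] at hk
        rw [h1, div_pow, ← pow_mul]
        have h3 : n * m = k * m + m * (n - k) := by
          obtain ⟨l, rfl⟩ := Nat.exists_eq_add_of_le hk.2
          rw [Nat.add_sub_cancel_left]
          ring
        rw [h3, pow_add]
        field_simp
    exact (mul_eq_zero.1 h2).resolve_left (pow_ne_zero _ hζ)

end DIO_

open DIO_ in
theorem dio_proof (hHie : Stmt_Hie) : Stmt_Dio := by
  intro N K _ O Q _ hQ z hz hint F _ _ ξ hdeh m b hb hbi W i hW hne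
  have h1 : ∀ l, ξ l / aeval ξ (MvPolynomial.map O.subtype (z i)) ∈ W.W := by
    intro l
    have := main hHie O Q hQ z hz ξ hdeh.mem 1 (X l) (isHomogeneous_X _ _) (hint l) W _ hne hW
    simpa using this
  refine main hHie O Q hQ (fun j => X j) (fun j => isHomogeneous_X _ _) ξ hdeh.mem m b hb ?_ W _
    hne ?_
  · have h2 : amap O.subtype Q (fun j => (X j : MvPolynomial (Fin (N + 1)) O)) = vmap O Q := by
      refine MvPolynomial.ringHom_ext ?_ ?_
      · intro c
        simp [amap, vmap]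
      · intro j
        simp [amap, vmap]
    rw [h2]
    exact hbi
  · intro j
    simpa using h1 j

end Pool.Agent.TFR
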