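import Pool.Agent.TFR.Stmts

/-!
# TFR, module DLH: quotients of homogeneous elements integral over `K[x]` are sections
-/

set_option autoImplicit false

noncomputable section

namespace Pool.Agent.TFR

open scoped Classical
open MvPolynomial Pool.Agent.LibDb3ab1 Pool.Agent.DC Pool.Agent.FRM
open Pool.Agent.SRF

namespace DLH_

/-- homogeneous components of a product with a homogeneous factor -/
theorem hc_mul {σ R : Type} [CommRing R] (G c : MvPolynomial σ R) (a b : ℕ)
    (hG : G.IsHomogeneous a) :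
    homogeneousComponent (a + b) (G * c) = G * homogeneousComponent b c := by
  conv_lhs => rw [← sum_homogeneousComponent c]
  rw [Finset.mul_sum, map_sum]
  have h1 : ∀ j ∈ Finset.range (c.totalDegree + 1),
      homogeneousComponent (a + b) (G * homogeneousComponent j c) =
        if j = b then G * homogeneousComponent j c else 0 := by
    intro j _
    rw [homogeneousComponent_of_mem (hG.mul (homogeneousComponent_isHomogeneous j c))]
    by_cases hj : j = b
    · subst hj
      simp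
    · rw [if_neg hj, if_neg (by omega)]
  rw [Finset.sum_congr rfl h1, Finset.sum_ite_eq']
  split_ifs with h2
  · rfl
  · rw [homogeneousComponent_eq_zero _ _ (by
      rw [Finset.mem_range] at h2
      omega), mul_zero]

/-- scaling of homogeneous polynomials -/
theorem scale {K F : Type} [Field K] [Field F] [Algebra K F] {n m : ℕ} (x : Fin n → F) (c : F)
    (G : MvPolynomial (Fin n) K) (hG : G.IsHomogeneous m) :
    (aeval x G : F) / c ^ m = aeval (fun i => x i / c) G := by
  rw [aeval_def, aeval_def, eval₂_eq', eval₂_eq', Finset.sum_div]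
  refine Finset.sum_congr rfl fun d hd => ?_
  have h2 : ∑ i, d i = m := by
    have h3 := hG (mem_support_iff.1 hd)
    rw [← h3, Finsupp.weight_apply, Finsupp.sum_fintype _ _ (fun i => by rw [zero_smul])]
    exact Finset.sum_congr rfl fun i _ => by simp
  have h1 : ∏ i, (x i / c) ^ d i = (∏ i, x i ^ d i) / c ^ m := by
    rw [← h2, ← Finset.prod_pow_eq_pow_sum, ← Finset.prod_div_distrib]
    exact Finset.prod_congr rfl fun i _ => by rw [div_pow]
  rw [h1, mul_div_assoc]

/-- a valuation ring is integrally closed -/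
theorem mem_of_eq {F : Type} [Field F] (O : ValuationSubring F) (n : ℕ) (c : ℕ → F)
    (hc : ∀ i < n, c i ∈ O) (u : F) (h : u ^ n + ∑ i ∈ Finset.range n, c i * u ^ i = 0) :
    u ∈ O := by
  rcases Nat.eq_zero_or_pos n with rfl | hn
  · simp at h
  · by_contra hu
    have hu0 : u ≠ 0 := by
      rintro rfl
      exact hu O.zero_mem
    have hinv : u⁻¹ ∈ O := (O.mem_or_inv_mem u).resolve_left hu
    have h1 : u = - ∑ i ∈ Finset.range n, c i * (u⁻¹) ^ (n - 1 - i) := by
      have h2 : u = u ^ n * (u⁻¹) ^ (n - 1) := by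
        obtain ⟨l, rfl⟩ := Nat.exists_eq_add_of_lt hn
        have h3 : 0 + l + 1 - 1 = l := by omega
        rw [h3, inv_pow, zero_add, pow_succ']
        field_simp
      have h4 : u ^ n = - ∑ i ∈ Finset.range n, c i * u ^ i := eq_neg_of_add_eq_zero_left h
      rw [h4] at h2
      rw [neg_mul, Finset.sum_mul] at h2
      conv_lhs => rw [h2]
      congr 1
      refine Finset.sum_congr rfl fun i hi => ?_
      have hi' := Finset.mem_range.1 hi
      have h5 : n - 1 = i + (n - 1 - i) := by omega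
      conv_lhs => rw [h5, pow_add]
      rw [mul_assoc, ← mul_assoc (u ^ i), ← mul_pow, mul_inv_cancel₀ hu0, one_pow, one_mul]
    apply hu
    rw [h1]
    refine O.neg_mem _ (sum_mem fun i hi => ?_)
    exact O.mul_mem _ _ (hc i (Finset.mem_range.1 hi)) (pow_mem hinv _)

theorem aux {L : Type} [Field L] (a b c : L) (i n : ℕ) (hi : i ≤ n) (hb : b ≠ 0) :
    a ^ i * b ^ (n - i) * c = b ^ n * (c * (a / b) ^ i) := by
  have h3 : b ^ n = b ^ (n - i) * b ^ i := by
    rw [← pow_add, Nat.sub_add_cancel hi]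
  have h4 : b ^ i ≠ 0 := pow_ne_zero _ hb
  rw [h3, div_pow]
  field_simp

theorem aeval_mem {K F : Type} [Field K] [Field F] [Algebra K F] {n : ℕ} (O : ValuationSubring F)
    (hK : ∀ c : K, algebraMap K F c ∈ O) (x : Fin n → F) (hx : ∀ j, x j ∈ O)
    (G : MvPolynomial (Fin n) K) : (aeval x G : F) ∈ O := by
  rw [aeval_def, eval₂_eq']
  exact sum_mem fun d _ => O.mul_mem _ _ (hK _) (prod_mem fun j _ => pow_mem (hx j) _)

theorem H_ge {K F : Type} [Field K] [Field F] [Algebra K F] {x y : F} (e : PP K x y)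
    (i : Fin 3) : - ord e.1 (SRF.z x y i) ≤ H K x y e := by
  unfold H
  fin_cases i
  · change - ord e.1 (1 : F) ≤ _
    rw [e.isOrd.one, neg_zero]
    exact le_max_left _ _
  · exact le_max_of_le_right (le_max_left _ _)
  · exact le_max_of_le_right (le_max_right _ _)

end DLH_

open DLH_ in
theorem dlh_proof (hDzn : Stmt_Dzn) (hDlx : Stmt_Dlx) : Stmt_Dlh := by
  intro N K _ Q hQ hhom hdim z hz hint F _ _ ξ hdeh m k G₁ G₂ hG₁ hG₂ hG₂Q hh
  set B := MvPolynomial (Fin (N + 1)) K ⧸ Q with hB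
  have hinj := hDzn N 2 K Q hQ hhom hdim z hz hint
  -- the linear forms do not vanish
  have hz0 : ∀ i, (aeval ξ (z i) : F) ≠ 0 := by
    intro i h0
    have h1 : z i ∈ Q := (hdeh.mem (z i) 1 (hz i)).2 h0
    have h2 : kmap Q z (X i) = 0 := by
      change Ideal.Quotient.mk Q (aeval z (X i)) = 0
      rw [aeval_X, Ideal.Quotient.eq_zero_iff_mem]
      exact h1
    have h3 : (X i : MvPolynomial (Fin 3) K) = 0 := hinj (by rw [h2, map_zero])
    exact X_ne_zero i h3
  have hzz : ∀ i, SRF.z (aeval ξ (z 1) : F) (aeval ξ (z 2)) i = aeval ξ (z i) := by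
    intro i
    fin_cases i
    · exact hdeh.z0.symm
    · rfl
    · rfl
  have hγ₂ : (aeval ξ G₂ : F) ≠ 0 := fun h0 => hG₂Q ((hdeh.mem G₂ k hG₂).2 h0)
  -- the integral equation
  obtain ⟨p, hp, hroot⟩ := hh
  set n := p.natDegree with hn
  set fr : B →+* FractionRing B := algebraMap B (FractionRing B) with hfr
  have hfrinj : Function.Injective fr := IsFractionRing.injective B (FractionRing B)
  have hg₂ : fr (Ideal.Quotient.mk Q G₂) ≠ 0 := by
    intro h0
    apply hG₂Q
    rw [← Ideal.Quotient.eq_zero_iff_mem]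
    apply hfrinj
    rw [h0, map_zero]
  have hlift : ∀ i : ℕ, ∃ c : MvPolynomial (Fin (N + 1)) K,
      Ideal.Quotient.mk Q c = p.coeff i ∧ (i = n → c = 1) := by
    intro i
    by_cases hi : i = n
    · refine ⟨1, ?_, fun _ => rfl⟩
      rw [hi, map_one]
      exact hp.coeff_natDegree.symm
    · obtain ⟨c, hc⟩ := Ideal.Quotient.mk_surjective (p.coeff i)
      exact ⟨c, hc, fun h => absurd h hi⟩
  choose c hc hc1 using hlift
  -- the equation in `K[x]`
  have hS : ∑ i ∈ Finset.range (n + 1), (G₁ ^ i * G₂ ^ (n - i)) * c i ∈ Q := by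
    rw [← Ideal.Quotient.eq_zero_iff_mem]
    apply hfrinj
    rw [map_zero, map_sum, map_sum]
    rw [Polynomial.eval₂_eq_sum_range] at hroot
    have h2 : (fr (Ideal.Quotient.mk Q G₂)) ^ n *
        ∑ i ∈ Finset.range (n + 1), fr (p.coeff i) *
          (fr (Ideal.Quotient.mk Q G₁) / fr (Ideal.Quotient.mk Q G₂)) ^ i = 0 := by
      rw [hroot, mul_zero]
    rw [← h2, Finset.mul_sum]
    refine Finset.sum_congr rfl fun i hi => ?_
    have hi' : i ≤ n := Nat.lt_succ_iff.1 (Finset.mem_range.1 hi)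
    have hexp : fr (Ideal.Quotient.mk Q (G₁ ^ i * G₂ ^ (n - i) * c i)) =
        (fr (Ideal.Quotient.mk Q G₁)) ^ i * (fr (Ideal.Quotient.mk Q G₂)) ^ (n - i) *
          fr (p.coeff i) := by
      rw [← hc i]
      simp only [map_mul, map_pow]
    rw [hexp]
    exact aux _ _ _ i n hi' hg₂
  -- homogeneous component
  have hcomp : ∑ i ∈ Finset.range (n + 1), (G₁ ^ i * G₂ ^ (n - i)) *
      homogeneousComponent ((n - i) * m) (c i) ∈ Q := by
    have h1 := hhom _ hS (n * (k + m))
    rw [map_sum] at h1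
    have h2 : ∀ i ∈ Finset.range (n + 1),
        homogeneousComponent (n * (k + m)) ((G₁ ^ i * G₂ ^ (n - i)) * c i) =
          (G₁ ^ i * G₂ ^ (n - i)) * homogeneousComponent ((n - i) * m) (c i) := by
      intro i hi
      have hi' : i ≤ n := Nat.lt_succ_iff.1 (Finset.mem_range.1 hi)
      have h3 : (G₁ ^ i * G₂ ^ (n - i)).IsHomogeneous ((k + m) * i + k * (n - i)) :=
        (hG₁.pow i).mul (hG₂.pow (n - i))
      have h4 : n * (k + m) = ((k + m) * i + k * (n - i)) + (n - i) * m := by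
        obtain ⟨l, hl⟩ := Nat.exists_eq_add_of_le hi'
        rw [hl, Nat.add_sub_cancel_left]
        ring
      rw [h4]
      exact hc_mul _ _ _ _ h3
    rw [Finset.sum_congr rfl h2] at h1
    exact h1
  have hcompH : (∑ i ∈ Finset.range (n + 1), (G₁ ^ i * G₂ ^ (n - i)) *
      homogeneousComponent ((n - i) * m) (c i)).IsHomogeneous (n * (k + m)) := by
    refine IsHomogeneous.sum _ _ _ fun i hi => ?_
    have hi' : i ≤ n := Nat.lt_succ_iff.1 (Finset.mem_range.1 hi)
    have h3 : ((G₁ ^ i * G₂ ^ (n - i)) * homogeneousComponent ((n - i) * m) (c i)).IsHomogeneous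
        (((k + m) * i + k * (n - i)) + (n - i) * m) :=
      ((hG₁.pow i).mul (hG₂.pow (n - i))).mul (homogeneousComponent_isHomogeneous _ _)
    have h4 : n * (k + m) = ((k + m) * i + k * (n - i)) + (n - i) * m := by
      obtain ⟨l, hl⟩ := Nat.exists_eq_add_of_le hi'
      rw [hl, Nat.add_sub_cancel_left]
      ring
    rw [h4]
    exact h3
  have hval := (hdeh.mem _ _ hcompH).1 hcomp
  rw [map_sum] at hval
  -- the section
  rw [mem_L]
  by_cases hzero : (aeval ξ G₁ / aeval ξ G₂ : F) = 0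
  · exact Or.inl hzero
  right
  intro e
  obtain ⟨-, i₀, hi₀, -⟩ := e.2
  set ζ : F := aeval ξ (z i₀) with hζ
  have hζ0 : ζ ≠ 0 := hz0 i₀
  -- coefficients
  have hcoef : ∀ i < n, (aeval ξ (homogeneousComponent ((n - i) * m) (c i)) : F) /
      ζ ^ ((n - i) * m) ∈ e.1 := by
    intro i _
    rw [scale ξ ζ _ (homogeneousComponent_isHomogeneous _ _)]
    refine aeval_mem e.1 (fun c => e.2.const_mem _ _ _ c) _ (fun j => ?_) _
    apply hi₀
    exact hDlx N K Q hQ hhom z hz hint F ξ hdeh j i₀ hζ0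
  have hu : (aeval ξ G₁ / aeval ξ G₂ : F) / ζ ^ m ∈ e.1 := by
    refine mem_of_eq e.1 n (fun i => (aeval ξ (homogeneousComponent ((n - i) * m) (c i)) : F) /
      ζ ^ ((n - i) * m)) hcoef _ ?_
    rw [Finset.sum_range_succ] at hval
    have hlast : (aeval ξ ((G₁ ^ n * G₂ ^ (n - n)) *
        homogeneousComponent ((n - n) * m) (c n)) : F) = (aeval ξ G₁) ^ n := by
      rw [hc1 n rfl, Nat.sub_self, zero_mul, pow_zero, mul_one, homogeneousComponent_zero,
        coeff_zero_one, map_one, mul_one, map_pow]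
    rw [hlast] at hval
    have hfac : ((aeval ξ G₂ : F) ^ n * ζ ^ (m * n)) *
        (((aeval ξ G₁ / aeval ξ G₂ : F) / ζ ^ m) ^ n + ∑ i ∈ Finset.range n,
          (aeval ξ (homogeneousComponent ((n - i) * m) (c i)) : F) / ζ ^ ((n - i) * m) *
            ((aeval ξ G₁ / aeval ξ G₂ : F) / ζ ^ m) ^ i) = 0 := by
      rw [← hval, mul_add, Finset.mul_sum, add_comm]
      congr 1
      · refine Finset.sum_congr rfl fun i hi => ?_
        have hi' : i ≤ n := (Finset.mem_range.1 hi).le
        rw [map_mul, map_mul, map_pow, map_pow]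
        have h3 : (aeval ξ G₂ : F) ^ n = (aeval ξ G₂) ^ (n - i) * (aeval ξ G₂) ^ i := by
          rw [← pow_add, Nat.sub_add_cancel hi']
        have h4 : ζ ^ (m * n) = ζ ^ ((n - i) * m) * (ζ ^ m) ^ i := by
          rw [← pow_mul, ← pow_add]
          congr 1
          obtain ⟨l, hl⟩ := Nat.exists_eq_add_of_le hi'
          rw [hl, Nat.add_sub_cancel_left]
          ring
        rw [h3, h4, div_pow, div_pow]
        have h5 : (ζ ^ m) ^ i ≠ 0 := pow_ne_zero _ (pow_ne_zero _ hζ0)
        have h6 : ζ ^ ((n - i) * m) ≠ 0 := pow_ne_zero _ hζ0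
        have h7 : (aeval ξ G₂ : F) ^ i ≠ 0 := pow_ne_zero _ hγ₂
        field_simp
      · rw [pow_mul ζ m n, div_pow, div_pow]
        have h5 : (ζ ^ m) ^ n ≠ 0 := pow_ne_zero _ (pow_ne_zero _ hζ0)
        have h7 : (aeval ξ G₂ : F) ^ n ≠ 0 := pow_ne_zero _ hγ₂
        field_simp
    exact (mul_eq_zero.1 hfac).resolve_left
      (mul_ne_zero (pow_ne_zero _ hγ₂) (pow_ne_zero _ hζ0))
  have hζm : ζ ^ m ≠ 0 := pow_ne_zero _ hζ0
  rw [e.isOrd.mem _ (div_ne_zero hzero hζm), div_eq_mul_inv,
    e.isOrd.mul _ _ hzero (inv_ne_zero hζm), e.isOrd.inv hζm, e.isOrd.pow hζ0] at hu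
  have hH : - ord e.1 ζ ≤ H K (aeval ξ (z 1) : F) (aeval ξ (z 2)) e := by
    have h1 := H_ge e i₀
    rw [hzz i₀] at h1
    exact h1
  have hm : (m : ℤ) * (- ord e.1 ζ) ≤ m * H K (aeval ξ (z 1) : F) (aeval ξ (z 2)) e :=
    mul_le_mul_of_nonneg_left hH (by positivity)
  linarith

end Pool.Agent.TFR
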