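import Pool.Agent.TFR.Stmts

/-!
# Module DLX: the quotients `x_j / z_i` belong to the charts
-/

set_option autoImplicit false

noncomputable section

namespace Pool.Agent.TFR

open scoped Classical
open MvPolynomial Pool.Agent.LibDb3ab1 Pool.Agent.DC Pool.Agent.FRM Pool.Agent.SRF

namespace DLX_

theorem aeval_zero {N : ℕ} {K : Type} [Field K] {Q : Ideal (MvPolynomial (Fin (N + 1)) K)}
    (hQ : Homog Q) {z : Fin 3 → MvPolynomial (Fin (N + 1)) K} {F : Type} [Field F] [Algebra K F]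
    {ξ : Fin (N + 1) → F} (h : Deh Q z F ξ) (G : MvPolynomial (Fin (N + 1)) K) (hG : G ∈ Q) :
    aeval ξ G = 0 := by
  rw [← sum_homogeneousComponent G, map_sum]
  refine Finset.sum_eq_zero fun m _ => ?_
  exact (h.mem _ m (homogeneousComponent_isHomogeneous m G)).1 (hQ G hG m)

theorem aeval_div {K F : Type} [Field K] [Field F] [Algebra K F] {r k : ℕ}
    {a : MvPolynomial (Fin r) K} (ha : a.IsHomogeneous k) (ζ : Fin r → F) (c : F) (hc : c ≠ 0) :
    aeval (fun l => ζ l / c) a = aeval ζ a / c ^ k := by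
  rw [eq_div_iff (pow_ne_zero _ hc), aeval_def, aeval_def, eval₂_eq, eval₂_eq, Finset.sum_mul]
  refine Finset.sum_congr rfl fun d hd => ?_
  have h1 : d.degree = k := by
    have := ha (mem_support_iff.1 hd)
    rw [Finsupp.degree_eq_weight_one]
    exact this
  have h2 : ∏ i ∈ d.support, (ζ i / c) ^ d i = (∏ i ∈ d.support, ζ i ^ d i) / c ^ k := by
    rw [← h1, Finsupp.degree_apply, ← Finset.prod_pow_eq_pow_sum, ← Finset.prod_div_distrib]
    exact Finset.prod_congr rfl fun i _ => div_pow _ _ _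
  rw [h2]
  field_simp

end DLX_

open DLX_ in
theorem dlx_proof (hHie : Stmt_Hie) : Stmt_Dlx := by
  intro N K _ Q hQp hQ z hz hint F _ _ ξ hD j i hi
  have hmap : amap (RingHom.id K) Q z = kmap Q z := by
    have hid : (MvPolynomial.map (RingHom.id K) :
        MvPolynomial (Fin (N + 1)) K →+* MvPolynomial (Fin (N + 1)) K) = RingHom.id _ :=
      RingHom.ext fun p => MvPolynomial.map_id p
    unfold amap kmap
    rw [hid, RingHom.comp_id]
  have hj := hint j
  rw [← hmap] at hj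
  obtain ⟨n, a, hn, ha, heq⟩ := hHie N 3 K K (RingHom.id K) Q hQ z hz (X j) 1
    (isHomogeneous_X K j) hj
  have h0 := aeval_zero hQ hD _ heq
  simp only [map_add, map_pow, map_sum, map_mul, aeval_X, MvPolynomial.map_id] at h0
  let ζ : Fin 3 → F := fun l => aeval ξ (z l)
  have hζ : ∀ p : MvPolynomial (Fin 3) K, (aeval ξ (aeval z p : MvPolynomial (Fin (N + 1)) K) : F) =
      aeval ζ p := by
    intro p
    have : (aeval ξ : MvPolynomial (Fin (N + 1)) K →ₐ[K] F).comp (aeval z) = aeval ζ := by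
      ext l
      simp [ζ]
    exact AlgHom.congr_fun this p
  have hzz : ∀ l, SRF.z (ζ 1) (ζ 2) l = ζ l := by
    intro l
    fin_cases l
    · exact hD.z0.symm
    · rfl
    · rfl
  have hi' : ζ i ≠ 0 := hi
  -- the coefficients
  have hc : ∀ k, aeval (fun l => ζ l / ζ i) (a k) ∈ base K (ζ 1) (ζ 2) i := by
    intro k
    have h1 : (fun l => ζ l / ζ i) = fun l => SRF.z (ζ 1) (ζ 2) l / SRF.z (ζ 1) (ζ 2) i := by
      funext l
      rw [hzz, hzz]
    rw [h1]
    unfold base
    rw [Algebra.adjoin_range_eq_range_aeval]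
    exact ⟨a k, rfl⟩
  let c : ℕ → base K (ζ 1) (ζ 2) i := fun k => ⟨aeval (fun l => ζ l / ζ i) (a k), hc k⟩
  let q : Polynomial (base K (ζ 1) (ζ 2) i) :=
    ∑ k ∈ Finset.Icc 1 n, Polynomial.C (c k) * Polynomial.X ^ (n - k)
  have hq : q.degree < n := by
    refine (Polynomial.degree_sum_le _ _).trans_lt ?_
    refine (Finset.sup_lt_iff (WithBot.bot_lt_coe n)).2 fun k hk => ?_
    refine (Polynomial.degree_C_mul_X_pow_le _ _).trans_lt ?_
    rw [Finset.mem_Icc] at hk
    exact WithBot.coe_lt_coe.2 (by omega : n - k < n)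
  change IsIntegral (base K (ζ 1) (ζ 2) i) (ξ j / ζ i)
  refine ⟨Polynomial.X ^ n + q, Polynomial.monic_X_pow_add hq, ?_⟩
  rw [Polynomial.eval₂_add, Polynomial.eval₂_X_pow, Polynomial.eval₂_finsetSum]
  have h1 : ∀ k ∈ Finset.Icc 1 n,
      Polynomial.eval₂ (algebraMap (base K (ζ 1) (ζ 2) i) F) (ξ j / ζ i)
        (Polynomial.C (c k) * Polynomial.X ^ (n - k)) =
      (aeval ζ (a k) * ξ j ^ (n - k)) / ζ i ^ n := by
    intro k hk
    rw [Finset.mem_Icc] at hk
    rw [Polynomial.eval₂_mul, Polynomial.eval₂_C, Polynomial.eval₂_X_pow]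
    change aeval (fun l => ζ l / ζ i) (a k) * (ξ j / ζ i) ^ (n - k) = _
    have h2 := ha k
    rw [mul_one] at h2
    rw [aeval_div h2 ζ (ζ i) hi', div_pow, div_mul_div_comm, ← pow_add]
    congr 2
    omega
  rw [Finset.sum_congr rfl h1, ← Finset.sum_div, div_pow, ← add_div]
  rw [div_eq_zero_iff]
  left
  rw [← h0]
  congr 1
  refine Finset.sum_congr rfl fun k _ => ?_
  rw [hζ]

end Pool.Agent.TFR
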