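import Pool.Agent.TFR.Stmts

/-!
# DSF: the function field is a surface
-/

set_option autoImplicit false

noncomputable section

namespace Pool.Agent.TFR

open scoped Classical
open MvPolynomial Pool.Agent.LibDb3ab1 Pool.Agent.DC Pool.Agent.FRM Pool.Agent.SRF

namespace DSF_

variable {N : ℕ} {K : Type} [Field K]

/-- components of products with homogeneous polynomials -/
theorem comp_mul {σ : Type} (A B : MvPolynomial σ K) (i : ℕ) (hB : B.IsHomogeneous i) (D : ℕ) :
    homogeneousComponent D (A * B) =
      if i ≤ D then homogeneousComponent (D - i) A * B else 0 := by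
  induction A using MvPolynomial.induction_on' with
  | monomial s c =>
    have h1 : (monomial s c : MvPolynomial σ K).IsHomogeneous s.degree :=
      isHomogeneous_monomial c rfl
    have h2 : (monomial s c * B : MvPolynomial σ K).IsHomogeneous (s.degree + i) := h1.mul hB
    rw [homogeneousComponent_of_mem h2]
    split_ifs with h3 h4 h4
    · subst h3
      rw [homogeneousComponent_of_mem h1, if_pos (by omega)]
    · omega
    · rw [homogeneousComponent_of_mem h1, if_neg (by omega), zero_mul]
    · rfl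
  | add p q hp hq =>
    rw [add_mul, map_add, hp, hq]
    split_ifs
    · rw [map_add, add_mul]
    · rw [add_zero]

/-- components of polynomials in linear forms -/
theorem comp_aeval {σ τ : Type} (z : τ → MvPolynomial σ K) (hz : ∀ i, (z i).IsHomogeneous 1)
    (c : MvPolynomial τ K) (n : ℕ) :
    homogeneousComponent n (aeval z c) = aeval z (homogeneousComponent n c) := by
  induction c using MvPolynomial.induction_on' with
  | monomial s a =>
    have h1 : (monomial s a : MvPolynomial τ K).IsHomogeneous s.degree :=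
      isHomogeneous_monomial a rfl
    have h2 : (aeval z (monomial s a) : MvPolynomial σ K).IsHomogeneous s.degree := by
      have := h1.aeval z hz
      rwa [one_mul] at this
    rw [homogeneousComponent_of_mem h1, homogeneousComponent_of_mem h2]
    split_ifs
    · rfl
    · rw [map_zero]
  | add p q hp hq => rw [map_add, map_add, hp, hq, map_add, map_add]

/-- the homogeneous part of total degree `D` -/
def Φ (D : ℕ) (f : Polynomial (MvPolynomial (Fin 3) K)) : Polynomial (MvPolynomial (Fin 3) K) :=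
  ∑ i ∈ Finset.range (D + 1), Polynomial.monomial i (homogeneousComponent (D - i) (f.coeff i))

theorem Φ_coeff (D : ℕ) (f : Polynomial (MvPolynomial (Fin 3) K)) (i : ℕ) :
    (Φ D f).coeff i = if i ≤ D then homogeneousComponent (D - i) (f.coeff i) else 0 := by
  unfold Φ
  rw [Polynomial.finset_sum_coeff]
  simp only [Polynomial.coeff_monomial]
  rw [Finset.sum_ite_eq' (Finset.range (D + 1)) i]
  simp only [Finset.mem_range, Nat.lt_succ_iff]

theorem Φ_add (D : ℕ) (f g : Polynomial (MvPolynomial (Fin 3) K)) :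
    Φ D (f + g) = Φ D f + Φ D g := by
  ext1 i
  rw [Polynomial.coeff_add, Φ_coeff, Φ_coeff, Φ_coeff, Polynomial.coeff_add, map_add]
  split_ifs
  · rfl
  · rw [add_zero]

theorem Φ_monomial (D i : ℕ) (c : MvPolynomial (Fin 3) K) :
    Φ D (Polynomial.monomial i c) =
      if i ≤ D then Polynomial.monomial i (homogeneousComponent (D - i) c) else 0 := by
  ext1 k
  rw [Φ_coeff, Polynomial.coeff_monomial]
  by_cases h : i = k
  · subst h
    rw [if_pos rfl]
    split_ifs
    · rw [Polynomial.coeff_monomial, if_pos rfl]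
    · rw [Polynomial.coeff_zero]
  · rw [if_neg h, map_zero]
    split_ifs
    · rw [Polynomial.coeff_monomial, if_neg h]
    · rw [Polynomial.coeff_zero]
    · rw [Polynomial.coeff_monomial, if_neg h]
    · rw [Polynomial.coeff_zero]

theorem Φ_derivative (D : ℕ) (f : Polynomial (MvPolynomial (Fin 3) K)) :
    (Φ (D + 1) f).derivative = Φ D f.derivative := by
  ext1 i
  rw [Polynomial.coeff_derivative, Φ_coeff, Φ_coeff, Polynomial.coeff_derivative]
  by_cases h : i ≤ D
  · rw [if_pos h, if_pos (by omega)]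
    have h1 : ((i : MvPolynomial (Fin 3) K) + 1) = C ((i : K) + 1) := by
      rw [map_add, map_one, map_natCast]
    rw [h1, mul_comm, mul_comm (f.coeff (i + 1)), homogeneousComponent_C_mul]
    congr 2
    congr 1
    omega
  · rw [if_neg h, if_neg (by omega), zero_mul]

theorem Φ_eval (z : Fin 3 → MvPolynomial (Fin (N + 1)) K) (hz : ∀ i, (z i).IsHomogeneous 1)
    (j : Fin (N + 1)) (D : ℕ) (f : Polynomial (MvPolynomial (Fin 3) K)) :
    homogeneousComponent D (f.eval₂ (aeval z).toRingHom (X j)) =
      (Φ D f).eval₂ (aeval z).toRingHom (X j) := by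
  induction f using Polynomial.induction_on' with
  | add p q hp hq =>
    rw [Polynomial.eval₂_add, map_add, hp, hq, Φ_add, Polynomial.eval₂_add]
  | monomial i c =>
    rw [Polynomial.eval₂_monomial, Φ_monomial,
      comp_mul _ _ i (by simpa using (isHomogeneous_X K j).pow i)]
    split_ifs
    · rw [Polynomial.eval₂_monomial]
      congr 1
      exact comp_aeval z hz c _
    · rw [Polynomial.eval₂_zero]

/-- simple zeros are separable -/
theorem sep_of {E F : Type} [Field E] [Field F] [Algebra E F] (a : F) (g : Polynomial E)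
    (h0 : Polynomial.aeval a g = 0) (h1 : Polynomial.aeval a g.derivative ≠ 0) :
    IsSeparable E a := by
  have hg : g ≠ 0 := by
    rintro rfl
    rw [Polynomial.derivative_zero, map_zero] at h1
    exact h1 rfl
  have hint : IsIntegral E a := IsAlgebraic.isIntegral ⟨g, hg, h0⟩
  obtain ⟨q, hq⟩ := minpoly.dvd E a h0
  unfold IsSeparable
  rw [Polynomial.separable_iff_derivative_ne_zero (minpoly.irreducible hint)]
  intro h2
  apply h1
  rw [hq, Polynomial.derivative_mul, h2, zero_mul, zero_add, map_mul, minpoly.aeval, zero_mul]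

theorem mem_zero (ξF : Type) [Field ξF] [Algebra K ξF] (ξ : Fin (N + 1) → ξF)
    {Q : Ideal (MvPolynomial (Fin (N + 1)) K)} {z : Fin 3 → MvPolynomial (Fin (N + 1)) K}
    (hD : Deh Q z ξF ξ) (i : Fin 3) :
    aeval ξ (z i) ∈ IntermediateField.adjoin K {(aeval ξ (z 1) : ξF), aeval ξ (z 2)} := by
  fin_cases i
  · show aeval ξ (z 0) ∈ _
    rw [hD.z0]
    exact one_mem _
  · exact IntermediateField.subset_adjoin _ _ (Set.mem_insert _ _)
  · exact IntermediateField.subset_adjoin _ _ (Set.mem_insert_of_mem _ rfl)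

theorem sep_gen (Q : Ideal (MvPolynomial (Fin (N + 1)) K)) (hQ : Homog Q)
    (z : Fin 3 → MvPolynomial (Fin (N + 1)) K) (hz : ∀ i, (z i).IsHomogeneous 1)
    (hsep : Sepz Q z) (F : Type) [Field F] [Algebra K F] (ξ : Fin (N + 1) → F)
    (hD : Deh Q z F ξ) (j : Fin (N + 1)) :
    IsSeparable (IntermediateField.adjoin K {(aeval ξ (z 1) : F), aeval ξ (z 2)}) (ξ j) := by
  obtain ⟨f, hf0, hf1⟩ := hsep j
  set E := IntermediateField.adjoin K {(aeval ξ (z 1) : F), aeval ξ (z 2)} with hE
  have hk : ∀ g : Polynomial (MvPolynomial (Fin 3) K),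
      g.eval₂ (kmap Q z) (Ideal.Quotient.mk Q (X j)) =
        Ideal.Quotient.mk Q (g.eval₂ (aeval z).toRingHom (X j)) := by
    intro g
    exact (Polynomial.hom_eval₂ g (aeval z).toRingHom (Ideal.Quotient.mk Q) (X j)).symm
  rw [hk, Ideal.Quotient.eq_zero_iff_mem] at hf0
  rw [hk, Ne, Ideal.Quotient.eq_zero_iff_mem] at hf1
  obtain ⟨D, hD1⟩ : ∃ D, homogeneousComponent D
      (f.derivative.eval₂ (aeval z).toRingHom (X j)) ∉ Q := by
    by_contra hcon
    push Not at hcon
    apply hf1
    rw [← sum_homogeneousComponent (f.derivative.eval₂ (aeval z).toRingHom (X j))]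
    exact Ideal.sum_mem _ fun i _ => hcon i
  have h0 := hQ _ hf0 (D + 1)
  have hhom0 := homogeneousComponent_isHomogeneous (D + 1)
    (f.eval₂ (aeval z).toRingHom (X j))
  have hhom1 := homogeneousComponent_isHomogeneous D
    (f.derivative.eval₂ (aeval z).toRingHom (X j))
  rw [hD.mem _ _ hhom0, Φ_eval z hz] at h0
  rw [hD.mem _ _ hhom1, Φ_eval z hz, ← Φ_derivative] at hD1
  let ψ : MvPolynomial (Fin 3) K →ₐ[K] E :=
    aeval fun i => (⟨aeval ξ (z i), mem_zero F ξ hD i⟩ : E)
  have hψ : (algebraMap E F).comp ψ.toRingHom =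
      (aeval ξ : MvPolynomial (Fin (N + 1)) K →ₐ[K] F).toRingHom.comp (aeval z).toRingHom := by
    apply MvPolynomial.ringHom_ext
    · intro a
      show algebraMap E F (ψ (C a)) = aeval ξ (aeval z (C a))
      rw [MvPolynomial.algHom_C, MvPolynomial.algHom_C, AlgHom.commutes]
      rfl
    · intro i
      show algebraMap E F (ψ (X i)) = aeval ξ (aeval z (X i))
      rw [aeval_X, aeval_X]
      rfl
  have key : ∀ g : Polynomial (MvPolynomial (Fin 3) K),
      Polynomial.aeval (ξ j) (g.map ψ.toRingHom) =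
        aeval ξ (g.eval₂ (aeval z).toRingHom (X j)) := by
    intro g
    rw [Polynomial.aeval_def, Polynomial.eval₂_map, hψ]
    have h2 := Polynomial.hom_eval₂ g (aeval z).toRingHom
      (aeval ξ : MvPolynomial (Fin (N + 1)) K →ₐ[K] F).toRingHom (X j)
    have h3 : (aeval ξ : MvPolynomial (Fin (N + 1)) K →ₐ[K] F).toRingHom (X j) = ξ j :=
      aeval_X ξ j
    rw [h3] at h2
    exact h2.symm
  refine sep_of (ξ j) ((Φ (D + 1) f).map ψ.toRingHom) ?_ ?_
  · rw [key]
    exact h0
  · rw [Polynomial.derivative_map, key]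
    exact hD1

theorem indep (hZ : Stmt_Dzn) (Q : Ideal (MvPolynomial (Fin (N + 1)) K)) (hQp : Q.IsPrime)
    (hQ : Homog Q) (hdim : ringKrullDim (MvPolynomial (Fin (N + 1)) K ⧸ Q) = (2 + 1 : ℕ))
    (z : Fin 3 → MvPolynomial (Fin (N + 1)) K) (hz : ∀ i, (z i).IsHomogeneous 1)
    (hint : ∀ i, (kmap Q z).IsIntegralElem (Ideal.Quotient.mk Q (X i)))
    (F : Type) [Field F] [Algebra K F] (ξ : Fin (N + 1) → F)
    (hD : Deh Q z F ξ) : AlgebraicIndependent K ![(aeval ξ (z 1) : F), aeval ξ (z 2)] := by
  have hinj := hZ N 2 K Q hQp hQ hdim z hz hint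
  rw [algebraicIndependent_iff]
  intro f hf
  set D := f.totalDegree with hDd
  set h : MvPolynomial (Fin 3) K :=
    ∑ s ∈ f.support, C (coeff s f) * (X 0 ^ (D - s.degree) * X 1 ^ (s 0) * X 2 ^ (s 1)) with hh
  have hhom : h.IsHomogeneous D := by
    refine IsHomogeneous.sum _ _ _ fun s hs => ?_
    have h1 : s.degree ≤ D := le_totalDegree hs
    have h2 : s.degree = s 0 + s 1 := by
      rw [Finsupp.degree_eq_sum, Fin.sum_univ_two]
    have h3 : D = 0 + ((D - s.degree) + s 0 + s 1) := by omega
    have h4 : (C (coeff s f) * (X 0 ^ (D - s.degree) * X 1 ^ (s 0) * X 2 ^ (s 1)) :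
        MvPolynomial (Fin 3) K).IsHomogeneous (0 + ((D - s.degree) + s 0 + s 1)) := by
      refine (isHomogeneous_C _ _).mul ((IsHomogeneous.mul ?_ ?_).mul ?_)
      · simpa using (isHomogeneous_X K (0 : Fin 3)).pow (D - s.degree)
      · simpa using (isHomogeneous_X K (1 : Fin 3)).pow (s 0)
      · simpa using (isHomogeneous_X K (2 : Fin 3)).pow (s 1)
    rw [← h3] at h4
    exact h4
  have hh1 : aeval ![(1 : MvPolynomial (Fin 2) K), X 0, X 1] h = f := by
    rw [hh, map_sum]
    conv_rhs => rw [← support_sum_monomial_coeff f]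
    refine Finset.sum_congr rfl fun s hs => ?_
    rw [map_mul, map_mul, map_mul, map_pow, map_pow, map_pow, aeval_X, aeval_X, aeval_X,
      MvPolynomial.algHom_C]
    show C (coeff s f) * (1 ^ (D - s.degree) * X 0 ^ s 0 * X 1 ^ s 1) = monomial s (coeff s f)
    rw [one_pow, one_mul, monomial_eq]
    congr 1
    rw [Finsupp.prod_fintype _ _ (fun i => pow_zero _), Fin.prod_univ_two]
  have h5 : aeval ξ (aeval z h) = aeval ![(aeval ξ (z 1) : F), aeval ξ (z 2)] f := by
    conv_rhs => rw [← hh1]
    have e1 : (aeval ξ : MvPolynomial (Fin (N + 1)) K →ₐ[K] F).comp (aeval z) =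
        (aeval ![(aeval ξ (z 1) : F), aeval ξ (z 2)]).comp
          (aeval ![(1 : MvPolynomial (Fin 2) K), X 0, X 1]) := by
      apply MvPolynomial.algHom_ext
      intro i
      rw [AlgHom.comp_apply, AlgHom.comp_apply, aeval_X, aeval_X]
      fin_cases i
      · show aeval ξ (z 0) = aeval ![(aeval ξ (z 1) : F), aeval ξ (z 2)] (1 : MvPolynomial (Fin 2) K)
        rw [hD.z0, map_one]
      · show aeval ξ (z 1) = aeval ![(aeval ξ (z 1) : F), aeval ξ (z 2)]
          (X 0 : MvPolynomial (Fin 2) K)
        rw [aeval_X]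
        rfl
      · show aeval ξ (z 2) = aeval ![(aeval ξ (z 1) : F), aeval ξ (z 2)]
          (X 1 : MvPolynomial (Fin 2) K)
        rw [aeval_X]
        rfl
    exact DFunLike.congr_fun e1 h
  have h6 : (aeval z h : MvPolynomial (Fin (N + 1)) K).IsHomogeneous D := by
    have := hhom.aeval z hz
    rwa [one_mul] at this
  have h7 : aeval z h ∈ Q := by
    rw [hD.mem _ _ h6, h5]
    exact hf
  have h8 : kmap Q z h = 0 := Ideal.Quotient.eq_zero_iff_mem.2 h7
  have h9 : h = 0 := hinj (by rw [h8, map_zero])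
  rw [← hh1, h9, map_zero]

end DSF_

theorem dsf_proof (_h : Stmt_Hie) (hZ : Stmt_Dzn) : Stmt_Dsf := by
  intro N K _ Q hQp hQ hdim z hz hint hsep F _ _ ξ hD
  have hgen : IntermediateField.adjoin
      (IntermediateField.adjoin K {(aeval ξ (z 1) : F), aeval ξ (z 2)}) (Set.range ξ) = ⊤ := by
    rw [eq_top_iff]
    intro a _
    have h1 : a ∈ IntermediateField.adjoin K (Set.range ξ) := by
      rw [hD.gen]
      trivial
    have h2 : IntermediateField.adjoin K (Set.range ξ) ≤ (IntermediateField.adjoin
        (IntermediateField.adjoin K {(aeval ξ (z 1) : F), aeval ξ (z 2)})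
          (Set.range ξ)).restrictScalars K := by
      rw [IntermediateField.adjoin_le_iff]
      exact IntermediateField.subset_adjoin _ _
    exact h2 h1
  have hs : ∀ a ∈ Set.range ξ, IsSeparable
      (IntermediateField.adjoin K {(aeval ξ (z 1) : F), aeval ξ (z 2)}) a := by
    rintro a ⟨j, rfl⟩
    exact DSF_.sep_gen Q hQ z hz hsep F ξ hD j
  refine ⟨DSF_.indep hZ Q hQp hQ hdim z hz hint F ξ hD, ?_, ?_⟩
  · have : Finite (Set.range ξ) := inferInstance
    have h1 := IntermediateField.finiteDimensional_adjoin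
      (K := IntermediateField.adjoin K {(aeval ξ (z 1) : F), aeval ξ (z 2)})
      (S := Set.range ξ) (fun a ha => (hs a ha).isIntegral)
    rw [hgen] at h1
    exact (IntermediateField.topEquiv (F := IntermediateField.adjoin K
      {(aeval ξ (z 1) : F), aeval ξ (z 2)}) (E := F)).toLinearEquiv.finiteDimensional
  · have h1 := (IntermediateField.isSeparable_adjoin_iff_isSeparable
      (F := IntermediateField.adjoin K {(aeval ξ (z 1) : F), aeval ξ (z 2)}) (E := F)
      (S := Set.range ξ)).2 hs
    rw [hgen] at h1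
    exact AlgEquiv.Algebra.isSeparable (IntermediateField.topEquiv (F := IntermediateField.adjoin K
      {(aeval ξ (z 1) : F), aeval ξ (z 2)}) (E := F))

end Pool.Agent.TFR
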