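import Pool.Agent.TFR.Stmts

/-!
# TFR, module DZN: the linear forms are algebraically independent modulo `Q`
-/

set_option autoImplicit false

noncomputable section

namespace Pool.Agent.TFR

open scoped Classical
open MvPolynomial Pool.Agent.LibDb3ab1 Pool.Agent.DC Pool.Agent.FRM

namespace DZN_

theorem dim_le {A B : Type} [CommRing A] [CommRing B] (f : A →+* B) (hf : f.IsIntegral) :
    ringKrullDim B ≤ ringKrullDim A := by
  let : Algebra A B := f.toAlgebra
  have : Algebra.IsIntegral A B := ⟨hf⟩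
  apply Order.krullDim_le_of_strictMono (fun P => PrimeSpectrum.comap (algebraMap A B) P)
  intro P Q hPQ
  exact Ideal.IsIntegral.comap_lt_comap (R := A) (I := P.asIdeal) (J := Q.asIdeal) hPQ

theorem inj {k B : Type} [Field k] [CommRing B] (d : ℕ) (f : MvPolynomial (Fin (d + 1)) k →+* B)
    (hf : f.IsIntegral) (hdim : ringKrullDim B = (d + 1 : ℕ)) : Function.Injective f := by
  rw [injective_iff_map_eq_zero]
  intro r hr
  by_contra h0
  have h1 := ringKrullDim_quotient_succ_le_of_nonZeroDivisor (mem_nonZeroDivisors_of_ne_zero h0)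
  rw [MvPolynomial.ringKrullDim_of_isNoetherianRing, ringKrullDim_eq_zero_of_field] at h1
  let g : (MvPolynomial (Fin (d + 1)) k ⧸ Ideal.span {r}) →+* B :=
    Ideal.Quotient.lift _ f (by
      intro a ha
      obtain ⟨c, rfl⟩ := Ideal.mem_span_singleton.1 ha
      rw [map_mul, hr, zero_mul])
  have hg : g.IsIntegral := by
    apply RingHom.IsIntegral.tower_top (Ideal.Quotient.mk (Ideal.span {r})) g
    have : g.comp (Ideal.Quotient.mk (Ideal.span {r})) = f := by
      ext <;> simp [g]
    rw [this]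
    exact hf
  have h2 := dim_le g hg
  rw [hdim] at h2
  have h3 : ((d + 1 : ℕ) : WithBot ℕ∞) + 1 ≤ 0 + ((Nat.card (Fin (d + 1)) : ℕ) : WithBot ℕ∞) :=
    le_trans (by gcongr) h1
  rw [zero_add, Nat.card_eq_fintype_card, Fintype.card_fin] at h3
  have h4 : (((d + 1 + 1 : ℕ) : ℕ) : WithBot ℕ∞) ≤ ((d + 1 : ℕ) : WithBot ℕ∞) := by
    push_cast at h3 ⊢
    exact h3
  have h5 : d + 1 + 1 ≤ d + 1 := by exact_mod_cast h4
  omega

/-- everything is integral over the image of `kmap` -/
theorem kint {N r : ℕ} {K : Type} [Field K] (Q : Ideal (MvPolynomial (Fin (N + 1)) K))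
    (z : Fin r → MvPolynomial (Fin (N + 1)) K)
    (h : ∀ i, (kmap Q z).IsIntegralElem (Ideal.Quotient.mk Q (X i))) : (kmap Q z).IsIntegral := by
  intro b
  obtain ⟨P, rfl⟩ := Ideal.Quotient.mk_surjective b
  induction P using MvPolynomial.induction_on with
  | C a =>
    have e : Ideal.Quotient.mk Q (C a) = kmap Q z (C a) := by simp [kmap]
    rw [e]
    exact (kmap Q z).isIntegralElem_map
  | add p q hp hq => rw [map_add]; exact hp.add (kmap Q z) hq
  | mul_X p i hp => rw [map_mul]; exact hp.mul (kmap Q z) (h i)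

end DZN_

theorem dzn_proof : Stmt_Dzn := by
  intro N d K _ Q _ _ hdim z _ hint
  exact DZN_.inj d _ (DZN_.kint Q z hint) hdim

end Pool.Agent.TFR
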