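import Pool.Agent.TFR.StmtsB

/-!
# TFR: FDC
-/

set_option autoImplicit false

namespace Pool.Agent.TFR

namespace FDC_

open IsLocalRing

variable {V O : Type} [CommRing V] [CommRing O]

lemma smod_iff {R : Type} [CommRing R] (I : Ideal R) (p : R) (hI : I = Ideal.span {p}) (n : ℕ)
    (x y : R) : x ≡ y [SMOD (I ^ n • ⊤ : Submodule R R)] ↔ p ^ n ∣ x - y := by
  rw [SModEq.sub_mem, smul_eq_mul, Ideal.mul_top, hI, Ideal.span_singleton_pow,
    Ideal.mem_span_singleton]

/-- element of valuation `n` -/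
def pw (q p : O) (e n : ℕ) : O := q ^ (n / e) * p ^ (n % e)

lemma pw_eq (q p : O) (e : ℕ) (u : Oˣ) (hq : q = u * p ^ e) (n : ℕ) :
    pw q p e n = ((u ^ (n / e) : Oˣ) : O) * p ^ n := by
  unfold pw
  rw [hq, mul_pow, ← pow_mul, mul_assoc, ← pow_add, Nat.div_add_mod]
  simp

lemma step (μ : V →+* O) (q p : O) (e : ℕ) (u : Oˣ) (hq : q = u * p ^ e)
    (hres : ∀ x : O, ∃ a : V, p ∣ x - μ a) (n : ℕ) (x : O) (hx : p ^ n ∣ x) :
    ∃ a : V, p ^ (n + 1) ∣ x - μ a * pw q p e n := by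
  obtain ⟨y, rfl⟩ := hx
  obtain ⟨a, z, hz⟩ := hres ((((u ^ (n / e))⁻¹ : Oˣ) : O) * y)
  refine ⟨a, ((u ^ (n / e) : Oˣ) : O) * z, ?_⟩
  rw [pw_eq q p e u hq]
  have h1 : ((u ^ (n / e) : Oˣ) : O) * (((u ^ (n / e))⁻¹ : Oˣ) : O) = 1 := Units.mul_inv _
  calc p ^ n * y - μ a * (((u ^ (n / e) : Oˣ) : O) * p ^ n)
      = p ^ n * (((u ^ (n / e) : Oˣ) : O) * (((u ^ (n / e))⁻¹ : Oˣ) : O)) * y
        - μ a * (((u ^ (n / e) : Oˣ) : O) * p ^ n) := by rw [h1, mul_one]
    _ = p ^ n * ((u ^ (n / e) : Oˣ) : O) * ((((u ^ (n / e))⁻¹ : Oˣ) : O) * y - μ a) := by ring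
    _ = p ^ (n + 1) * (((u ^ (n / e) : Oˣ) : O) * z) := by rw [hz]; ring

/-- partial sums -/
def S (μ : V →+* O) (q p : O) (e : ℕ) (c : ℕ → O → V) (f : ℕ → O) : ℕ → O
  | 0 => 0
  | n + 1 => S μ q p e c f n + μ (c n (f (n + 1) - S μ q p e c f n)) * pw q p e n

theorem core (I : Ideal V) (J : Ideal O) [IsPrecomplete I V] (μ : V →+* O) (ϖ : V) (p : O)
    (hI : I = Ideal.span {ϖ}) (hJ : J = Ideal.span {p}) (e : ℕ) (he : 0 < e) (u : Oˣ)
    (hq : μ ϖ = u * p ^ e) (hres : ∀ x : O, ∃ a : V, p ∣ x - μ a) : IsPrecomplete J O := by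
  constructor
  intro f hf
  have hf' : ∀ {m n : ℕ}, m ≤ n → p ^ m ∣ f m - f n := fun h => (smod_iff J p hJ _ _ _).mp (hf h)
  have hstep := step μ (μ ϖ) p e u hq hres
  classical
  let c : ℕ → O → V := fun n x => if h : p ^ n ∣ x then (hstep n x h).choose else 0
  have hc : ∀ n x, p ^ n ∣ x → p ^ (n + 1) ∣ x - μ (c n x) * pw (μ ϖ) p e n := by
    intro n x h
    have : c n x = (hstep n x h).choose := dif_pos h
    rw [this]
    exact (hstep n x h).choose_spec
  let s := S μ (μ ϖ) p e c f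
  have hs0 : s 0 = 0 := rfl
  let a : ℕ → V := fun n => c n (f (n + 1) - s n)
  have hs1 : ∀ n, s (n + 1) = s n + μ (a n) * pw (μ ϖ) p e n := fun n => rfl
  have hinv : ∀ n, p ^ n ∣ f n - s n := by
    intro n
    induction n with
    | zero => simp
    | succ n ih =>
      have h1 : p ^ n ∣ f (n + 1) - s n := by
        have h2 := hf' (Nat.le_succ n)
        have h3 : f (n + 1) - s n = (f n - s n) - (f n - f (n + 1)) := by ring
        rw [h3]
        exact dvd_sub ih h2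
      have h4 := hc n _ h1
      rw [hs1]
      have h5 : f (n + 1) - (s n + μ (a n) * pw (μ ϖ) p e n) =
          f (n + 1) - s n - μ (c n (f (n + 1) - s n)) * pw (μ ϖ) p e n := by
        ring
      rw [h5]
      exact h4
  let T : ℕ → ℕ → V := fun N k => ∑ j ∈ Finset.range N, a (j * e + k) * ϖ ^ j
  have hblock : ∀ N, s (N * e) = ∑ k ∈ Finset.range e, μ (T N k) * p ^ k := by
    have hadd : ∀ m n, s (m + n) = s m + ∑ k ∈ Finset.range n, μ (a (m + k)) * pw (μ ϖ) p e (m + k) := by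
      intro m n
      induction n with
      | zero => simp
      | succ n ih =>
        rw [← add_assoc, hs1, ih, Finset.sum_range_succ, add_assoc]
    intro N
    induction N with
    | zero => simp [T, hs0]
    | succ N ih =>
      rw [Nat.succ_mul, hadd, ih, ← Finset.sum_add_distrib]
      refine Finset.sum_congr rfl fun k hk => ?_
      have hk' : k < e := Finset.mem_range.mp hk
      have h1 : pw (μ ϖ) p e (N * e + k) = (μ ϖ) ^ N * p ^ k := by
        unfold pw
        rw [Nat.add_comm, Nat.add_mul_div_right _ _ he, Nat.div_eq_of_lt hk', zero_add,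
          Nat.add_mul_mod_self_right, Nat.mod_eq_of_lt hk']
      rw [h1]
      have h2 : T (N + 1) k = T N k + a (N * e + k) * ϖ ^ N := Finset.sum_range_succ _ _
      rw [h2, map_add, map_mul, map_pow]
      ring
  have hlim : ∀ k, ∃ A : V, ∀ N, ϖ ^ N ∣ T N k - A := by
    intro k
    obtain ⟨A, hA⟩ := IsPrecomplete.prec (I := I) inferInstance (f := fun N => T N k) (by
      intro m n hmn
      rw [smod_iff I ϖ hI]
      obtain ⟨d, rfl⟩ := Nat.exists_eq_add_of_le hmn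
      have : T m k - T (m + d) k = - ∑ j ∈ Finset.range d, a ((m + j) * e + k) * ϖ ^ (m + j) := by
        simp only [T]
        rw [Finset.sum_range_add]
        ring
      rw [this, dvd_neg]
      apply Finset.dvd_sum
      intro j _
      rw [pow_add]
      exact ⟨a ((m + j) * e + k) * ϖ ^ j, by ring⟩)
    exact ⟨A, fun N => (smod_iff I ϖ hI _ _ _).mp (hA N)⟩
  choose A hA using hlim
  refine ⟨∑ k ∈ Finset.range e, μ (A k) * p ^ k, fun N => ?_⟩
  rw [smod_iff J p hJ]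
  have h1 : p ^ N ∣ f N - f (N * e) := hf' (Nat.le_mul_of_pos_right N he)
  have h2 : p ^ N ∣ p ^ (N * e) := pow_dvd_pow p (Nat.le_mul_of_pos_right N he)
  have h3 : p ^ N ∣ f (N * e) - s (N * e) := h2.trans (hinv _)
  have h4 : p ^ N ∣ s (N * e) - ∑ k ∈ Finset.range e, μ (A k) * p ^ k := by
    rw [hblock, ← Finset.sum_sub_distrib]
    apply Finset.dvd_sum
    intro k _
    rw [← sub_mul, ← map_sub]
    obtain ⟨z, hz⟩ := hA k N
    rw [hz, map_mul, map_pow, hq, mul_pow, ← pow_mul]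
    have h5 : p ^ N ∣ p ^ (e * N) := by
      rw [mul_comm e N]
      exact h2
    obtain ⟨w, hw⟩ := h5
    exact ⟨(u : O) ^ N * w * μ z * p ^ k, by rw [hw]; ring⟩
  have h6 : f N - ∑ k ∈ Finset.range e, μ (A k) * p ^ k = (f N - f (N * e)) +
      (f (N * e) - s (N * e)) + (s (N * e) - ∑ k ∈ Finset.range e, μ (A k) * p ^ k) := by
    ring
  rw [h6]
  exact dvd_add (dvd_add h1 h3) h4

end FDC_

open FDC_ in
theorem fdc_proof : Stmt_Fdc := by
  intro K L _ _ μ V O hV hO hVO hcomp hres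
  have hmem : ∀ a : K, μ a ∈ O ↔ a ∈ V := by
    intro a
    rw [← hVO]
    rfl
  let μO : V →+* O := (μ.comp V.subtype).codRestrict O.toSubring
    (fun a => (hmem a).mpr a.2)
  have hμO : ∀ a : V, ((μO a : O) : L) = μ a := fun a => rfl
  obtain ⟨ϖ, hϖ⟩ := IsDiscreteValuationRing.exists_irreducible V
  obtain ⟨p, hp⟩ := IsDiscreteValuationRing.exists_irreducible O
  have hne : μO ϖ ≠ 0 := by
    intro h0
    have h1 : μ (ϖ : K) = 0 := by
      rw [← hμO, h0]
      rfl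
    have h2 : (ϖ : K) = 0 := (map_eq_zero μ).mp h1
    exact hϖ.ne_zero (Subtype.ext h2)
  obtain ⟨e, u, hu⟩ := IsDiscreteValuationRing.eq_unit_mul_pow_irreducible hne hp
  have he : 0 < e := by
    rcases Nat.eq_zero_or_pos e with h0 | h0
    · exfalso
      rw [h0, pow_zero, mul_one] at hu
      have h1 : μ ((ϖ : K)⁻¹) ∈ O := by
        have h2 : ((u⁻¹ : Oˣ) : O) * μO ϖ = 1 := by rw [hu, Units.inv_mul]
        have h3 : (((u⁻¹ : Oˣ) : O) : L) * μ (ϖ : K) = 1 := congrArg (fun z : O => (z : L)) h2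
        rw [map_inv₀, ← eq_inv_of_mul_eq_one_left h3]
        exact ((u⁻¹ : Oˣ) : O).2
      have h4 : (ϖ : K)⁻¹ ∈ V := (hmem _).mp h1
      apply hϖ.not_isUnit
      refine IsUnit.of_mul_eq_one ⟨(ϖ : K)⁻¹, h4⟩ ?_
      apply Subtype.ext
      change (ϖ : K) * (ϖ : K)⁻¹ = 1
      apply mul_inv_cancel₀
      intro h5
      exact hϖ.ne_zero (Subtype.ext h5)
    · exact h0
  have hprec : IsPrecomplete (IsLocalRing.maximalIdeal O) O := by
    have : IsPrecomplete (IsLocalRing.maximalIdeal V) V := inferInstance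
    refine core (IsLocalRing.maximalIdeal V) (IsLocalRing.maximalIdeal O) μO ϖ p
      hϖ.maximalIdeal_eq hp.maximalIdeal_eq e he u hu ?_
    intro x
    obtain ⟨a, ha⟩ := hres x
    refine ⟨a, ?_⟩
    obtain ⟨h1, h2⟩ := ValuationSubring.mem_nonunits_iff_exists_mem_maximalIdeal.mp ha
    rw [hp.maximalIdeal_eq, Ideal.mem_span_singleton] at h2
    exact h2
  have hhaus : IsHausdorff (IsLocalRing.maximalIdeal O) O :=
    IsHausdorff.of_le_jacobson _ _ (IsLocalRing.maximalIdeal_le_jacobson _)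
  exact { hhaus, hprec with }

end Pool.Agent.TFR
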