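import Pool.Agent.TFR.Stmts
import Pool.Agent.FRM.CMA

/-!
# FDV: valuation rings of algebraic extensions above a discrete valuation ring
-/

set_option autoImplicit false

noncomputable section

namespace Pool.Agent.TFR

open scoped Classical

namespace FDV_

variable {K L : Type} [Field K] [Field L]

/-- two terms of a vanishing sum have the same value -/
theorem two_terms (μ : K →+* L) (O : ValuationSubring L) (x : L) (hx : x ≠ 0)
    (f : Polynomial K) (hf : f ≠ 0) (h0 : f.eval₂ μ x = 0) :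
    ∃ n : ℕ, 0 < n ∧ n ≤ f.natDegree ∧ ∃ a : K, a ≠ 0 ∧
      O.valuation x ^ n = O.valuation (μ a) := by
  set v := O.valuation with hv
  by_contra hcon
  push Not at hcon
  -- the valuations of nonzero terms are distinct
  have hdist : ∀ i ∈ f.support, ∀ j ∈ f.support, i < j →
      v (μ (f.coeff i) * x ^ i) ≠ v (μ (f.coeff j) * x ^ j) := by
    intro i hi j hj hij he
    have hi0 : f.coeff i ≠ 0 := Polynomial.mem_support_iff.1 hi
    have hj0 : f.coeff j ≠ 0 := Polynomial.mem_support_iff.1 hj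
    have hmi : μ (f.coeff i) ≠ 0 := (map_ne_zero μ).2 hi0
    have hmj : μ (f.coeff j) ≠ 0 := (map_ne_zero μ).2 hj0
    refine hcon (j - i) (by omega) ?_ (f.coeff i / f.coeff j) (div_ne_zero hi0 hj0) ?_
    · have := Polynomial.le_natDegree_of_mem_supp j hj
      omega
    · rw [map_div₀, map_div₀, ← map_pow]
      rw [eq_div_iff ((map_ne_zero v).2 hmj), ← map_mul]
      have h1 : v (x ^ (j - i) * μ (f.coeff j)) * v (x ^ i) = v (μ (f.coeff i)) * v (x ^ i) := by
        rw [← map_mul, ← map_mul, he]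
        congr 1
        have : x ^ j = x ^ (j - i) * x ^ i := by
          rw [← pow_add]
          congr 1
          omega
        rw [this]
        ring
      exact mul_right_cancel₀ ((map_ne_zero v).2 (pow_ne_zero i hx)) h1
  have hne : f.support.Nonempty := Polynomial.support_nonempty.2 hf
  obtain ⟨k, hk, hmax⟩ := f.support.exists_max_image (fun i => v (μ (f.coeff i) * x ^ i)) hne
  have hk0 : f.coeff k ≠ 0 := Polynomial.mem_support_iff.1 hk
  have hvk : v (μ (f.coeff k) * x ^ k) ≠ 0 :=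
    (map_ne_zero v).2 (mul_ne_zero ((map_ne_zero μ).2 hk0) (pow_ne_zero k hx))
  rw [Polynomial.eval₂_eq_sum, Polynomial.sum_def, ← Finset.add_sum_erase _ _ hk] at h0
  have hlt : v (∑ i ∈ f.support.erase k, μ (f.coeff i) * x ^ i) < v (μ (f.coeff k) * x ^ k) := by
    refine Valuation.map_sum_lt v hvk ?_
    intro i hi
    have hi1 : i ∈ f.support := Finset.mem_of_mem_erase hi
    have hi2 : i ≠ k := Finset.ne_of_mem_erase hi
    refine lt_of_le_of_ne (hmax i hi1) ?_
    rcases lt_or_gt_of_ne hi2 with h | h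
    · exact hdist i hi1 k hk h
    · exact (hdist k hk i hi1 h).symm
  have h1 : v (μ (f.coeff k) * x ^ k + ∑ i ∈ f.support.erase k, μ (f.coeff i) * x ^ i) =
      v (μ (f.coeff k) * x ^ k) := Valuation.map_add_eq_of_lt_left v hlt
  rw [h0, map_zero] at h1
  exact hvk h1.symm

theorem comap_mem {μ : K →+* L} {V : ValuationSubring K} {O : ValuationSubring L}
    (hc : O.comap μ = V) (x : K) : μ x ∈ O ↔ x ∈ V := by
  rw [← hc, ValuationSubring.mem_comap]

/-- the restriction -/
def μV (μ : K →+* L) (V : ValuationSubring K) (O : ValuationSubring L)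
    (hc : O.comap μ = V) : V →+* O :=
  (μ.comp V.subtype).codRestrict O.toSubring fun x => (comap_mem hc (x : K)).2 x.2

theorem μV_coe (μ : K →+* L) (V : ValuationSubring K) (O : ValuationSubring L)
    (hc : O.comap μ = V) (x : V) : ((μV μ V O hc x : O) : L) = μ x := rfl

theorem μV_local (μ : K →+* L) (V : ValuationSubring K) (O : ValuationSubring L)
    (hc : O.comap μ = V) : IsLocalHom (μV μ V O hc) := by
  constructor
  intro x hx
  obtain ⟨y, hy⟩ := hx.exists_right_inv
  have h1 : μ (x : K) * (y : L) = 1 := congrArg Subtype.val hy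
  have hx0 : (x : K) ≠ 0 := by
    intro h
    rw [h, map_zero, zero_mul] at h1
    exact zero_ne_one h1
  have h2 : (y : L) = μ ((x : K)⁻¹) := by
    rw [map_inv₀]
    exact eq_inv_of_mul_eq_one_right h1
  have h3 : (x : K)⁻¹ ∈ V := (comap_mem hc _).1 (h2 ▸ y.2)
  exact IsUnit.of_mul_eq_one ⟨(x : K)⁻¹, h3⟩ (Subtype.ext (mul_inv_cancel₀ hx0))

/-- a primitive polynomial -/
theorem primitive (V : ValuationSubring K) (f : Polynomial K) (hf : f ≠ 0) :
    ∃ (G : Polynomial V) (b : K) (k : ℕ), G.map V.subtype = Polynomial.C b * f ∧ G.coeff k = 1 := by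
  have hne : f.support.Nonempty := Polynomial.support_nonempty.2 hf
  obtain ⟨k, hk, hmax⟩ := f.support.exists_max_image (fun i => V.valuation (f.coeff i)) hne
  have hk0 : f.coeff k ≠ 0 := Polynomial.mem_support_iff.1 hk
  set g := Polynomial.C ((f.coeff k)⁻¹) * f with hg
  have hmem : ∀ i, g.coeff i ∈ V := by
    intro i
    rw [hg, Polynomial.coeff_C_mul, ← ValuationSubring.valuation_le_one_iff, map_mul, map_inv₀]
    by_cases hi : i ∈ f.support
    · have h1 := hmax i hi
      have h2 : V.valuation (f.coeff k) ≠ 0 := (map_ne_zero _).2 hk0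
      calc (V.valuation (f.coeff k))⁻¹ * V.valuation (f.coeff i)
          ≤ (V.valuation (f.coeff k))⁻¹ * V.valuation (f.coeff k) := by
            exact mul_le_mul_right h1 _
        _ = 1 := inv_mul_cancel₀ h2
    · rw [Polynomial.notMem_support_iff.1 hi, map_zero, mul_zero]
      exact zero_le_one
  have hlift : g ∈ Polynomial.lifts V.subtype := by
    rw [Polynomial.lifts_iff_coeff_lifts]
    intro i
    exact ⟨⟨g.coeff i, hmem i⟩, rfl⟩
  obtain ⟨G, hG⟩ := (Polynomial.mem_lifts g).1 hlift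
  refine ⟨G, (f.coeff k)⁻¹, k, hG, ?_⟩
  have h1 : ((G.coeff k : V) : K) = g.coeff k := by
    rw [← hG, Polynomial.coeff_map]
    rfl
  apply Subtype.ext
  rw [h1, hg, Polynomial.coeff_C_mul, inv_mul_cancel₀ hk0]
  rfl

theorem residue_bij (μ : K →+* L) (V : ValuationSubring K) (O : ValuationSubring L)
    (hc : O.comap μ = V) (hint : μ.IsIntegral) (F : Type) [Field F] [IsAlgClosed F] (c : F →+* V)
    (hb : Function.Bijective ((IsLocalRing.residue V).comp c)) :
    Function.Bijective ((IsLocalRing.residue O).comp ((μV μ V O hc).comp c)) := by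
  refine ⟨RingHom.injective _, ?_⟩
  intro rr
  obtain ⟨r, rfl⟩ := IsLocalRing.residue_surjective rr
  obtain ⟨f, hfm, hf⟩ := hint (r : L)
  obtain ⟨G, b, k, hG, hk⟩ := primitive V f hfm.ne_zero
  have := μV_local μ V O hc
  let e : F ≃+* IsLocalRing.ResidueField V := RingEquiv.ofBijective _ hb
  have he : ∀ a : F, e a = IsLocalRing.residue V (c a) := fun a => rfl
  let φ : V →+* F := e.symm.toRingHom.comp (IsLocalRing.residue V)
  have hφ : (((IsLocalRing.residue O).comp ((μV μ V O hc).comp c))).comp φ =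
      (IsLocalRing.residue O).comp (μV μ V O hc) := by
    ext x
    have h1 : IsLocalRing.residue V (c (φ x)) = IsLocalRing.residue V x := by
      rw [← he]
      exact e.apply_symm_apply _
    have h2 := congrArg (IsLocalRing.ResidueField.map (μV μ V O hc)) h1
    rw [IsLocalRing.ResidueField.map_residue, IsLocalRing.ResidueField.map_residue] at h2
    exact h2
  refine Pool.Agent.FRM.CMA_.alg_mem _ (G.map φ) ?_ _ ?_
  · intro h0
    have h1 : (G.map φ).coeff k = 0 := by rw [h0, Polynomial.coeff_zero]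
    rw [Polynomial.coeff_map, hk, map_one] at h1
    exact one_ne_zero h1
  · rw [Polynomial.eval₂_map, hφ, ← Polynomial.hom_eval₂]
    have h1 : G.eval₂ (μV μ V O hc) r = 0 := by
      apply Subtype.ext
      have h2 : ((G.eval₂ (μV μ V O hc) r : O) : L) = (G.map V.subtype).eval₂ μ (r : L) := by
        have h3 := Polynomial.hom_eval₂ G (μV μ V O hc) O.subtype r
        rw [Polynomial.eval₂_map]
        exact h3
      rw [h2, hG, Polynomial.eval₂_mul, hf, mul_zero]
      rfl
    rw [h1, map_zero]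

theorem fdv_val (μ : K →+* L) (O : ValuationSubring L) (hint : μ.IsIntegral) (x : L)
    (hx : x ≠ 0) : ∃ n : ℕ, 0 < n ∧ ∃ a : K, a ≠ 0 ∧ O.valuation x ^ n = O.valuation (μ a) := by
  obtain ⟨f, hfm, hf⟩ := hint x
  obtain ⟨n, hn, _, h⟩ := two_terms μ O x hx f hfm.ne_zero hf
  exact ⟨n, hn, h⟩

/-- elements of the maximal ideal are topologically nilpotent -/
theorem dvr_arch (V : ValuationSubring K) (hV : IsDiscreteValuationRing V) (a b : K)
    (ha : V.valuation a < 1) : ∃ k : ℕ, a ^ k * b ∈ V := by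
  rcases V.mem_or_inv_mem b with hb | hb
  · exact ⟨0, by simpa using hb⟩
  by_cases hb0 : b = 0
  · exact ⟨0, by simp [hb0]⟩
  have haV : a ∈ V := (V.valuation_le_one_iff a).1 ha.le
  obtain ⟨ϖ, hϖ⟩ := IsDiscreteValuationRing.exists_irreducible V
  have hq0 : (⟨b⁻¹, hb⟩ : V) ≠ 0 := by
    intro h
    exact inv_ne_zero hb0 (congrArg Subtype.val h)
  obtain ⟨k, u, hu⟩ := IsDiscreteValuationRing.eq_unit_mul_pow_irreducible hq0 hϖ
  have hdvd : ϖ ∣ (⟨a, haV⟩ : V) := by
    have h1 : (⟨a, haV⟩ : V) ∈ IsLocalRing.maximalIdeal V := by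
      rw [IsLocalRing.mem_maximalIdeal, mem_nonunits_iff]
      intro hu
      have h2 := (V.valuation_unit hu.unit)
      rw [IsUnit.unit_spec] at h2
      exact absurd h2 (ne_of_lt ha)
    rw [(IsDiscreteValuationRing.irreducible_iff_uniformizer ϖ).1 hϖ,
      Ideal.mem_span_singleton] at h1
    exact h1
  have hdvd2 : (⟨b⁻¹, hb⟩ : V) ∣ (⟨a, haV⟩ : V) ^ k := by
    rw [hu]
    exact (Units.isUnit u).mul_left_dvd.2 (pow_dvd_pow_of_dvd hdvd k)
  obtain ⟨q, hq⟩ := hdvd2
  refine ⟨k, ?_⟩
  have h3 : a ^ k = b⁻¹ * (q : K) := congrArg Subtype.val hq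
  have h4 : a ^ k * b = q := by
    rw [h3]
    field_simp
  rw [h4]
  exact q.2

theorem arch (μ : K →+* L) (V : ValuationSubring K) (O : ValuationSubring L)
    (hV : IsDiscreteValuationRing V) (hc : O.comap μ = V) (hint : μ.IsIntegral) :
    EN2.Arch O := by
  have hval : ∀ x : K, O.valuation (μ x) ≤ 1 ↔ V.valuation x ≤ 1 := by
    intro x
    rw [ValuationSubring.valuation_le_one_iff, ValuationSubring.valuation_le_one_iff]
    exact comap_mem hc x
  have hval2 : ∀ x : K, x ≠ 0 → (O.valuation (μ x) < 1 ↔ V.valuation x < 1) := by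
    intro x hx
    have h1 := hval x⁻¹
    rw [map_inv₀, map_inv₀, map_inv₀] at h1
    have hx1 : O.valuation (μ x) ≠ 0 := (map_ne_zero _).2 ((map_ne_zero μ).2 hx)
    have hx2 : V.valuation x ≠ 0 := (map_ne_zero _).2 hx
    rw [inv_le_one₀ (zero_lt_iff.2 hx1), inv_le_one₀ (zero_lt_iff.2 hx2)] at h1
    rw [← not_le, ← not_le, h1]
  refine ⟨?_, ?_⟩
  · obtain ⟨ϖ, hϖ⟩ := IsDiscreteValuationRing.exists_irreducible V
    have h0 : (ϖ : K) ≠ 0 := fun h => hϖ.ne_zero (Subtype.ext h)
    refine ⟨μ ϖ, (map_ne_zero μ).2 h0, ?_⟩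
    rw [ValuationSubring.mem_nonunits_iff, hval2 _ h0]
    refine lt_of_le_of_ne (V.valuation_le_one ϖ) ?_
    intro h
    exact hϖ.not_isUnit ((V.valuation_eq_one_iff ϖ).2 h)
  · intro a b ha
    rw [ValuationSubring.mem_nonunits_iff] at ha
    by_cases hb0 : b = 0
    · exact ⟨0, by rw [hb0, mul_zero]; exact zero_mem O⟩
    by_cases ha0 : a = 0
    · exact ⟨1, by rw [ha0, pow_one, zero_mul]; exact zero_mem O⟩
    obtain ⟨n, hn, a', ha', hna⟩ := fdv_val μ O hint a ha0
    obtain ⟨m, hm, b', hb', hmb⟩ := fdv_val μ O hint b hb0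
    have ha1 : V.valuation a' < 1 := by
      rw [← hval2 a' ha', ← hna]
      exact pow_lt_one₀ zero_le ha hn.ne'
    obtain ⟨k, hk⟩ := dvr_arch V hV a' b' ha1
    have hk1 : O.valuation (μ (a' ^ k * b')) ≤ 1 :=
      (hval _).2 ((V.valuation_le_one_iff _).2 hk)
    refine ⟨k * n, ?_⟩
    rw [← ValuationSubring.valuation_le_one_iff]
    have hnm : n * m ≠ 0 := (Nat.mul_pos hn hm).ne'
    rw [← pow_le_one_iff_of_nonneg zero_le hnm]
    have h1 : O.valuation (a ^ (k * n) * b) ^ (n * m) =
        O.valuation (μ a') ^ (k * n * (m - 1)) * O.valuation (μ (a' ^ k * b')) ^ n := by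
      rw [map_mul, map_pow, mul_pow, map_mul μ, map_mul, map_pow μ, map_pow, mul_pow, ← hna, ← hmb,
        ← pow_mul, ← pow_mul, ← pow_mul, ← pow_mul, ← pow_mul,
        ← mul_assoc (O.valuation a ^ _) (O.valuation a ^ _), ← pow_add (O.valuation a)]
      congr 2
      · obtain ⟨m', rfl⟩ : ∃ m', m = m' + 1 := ⟨m - 1, by omega⟩
        simp only [Nat.add_sub_cancel]
        ring
      · ring
    rw [h1]
    refine mul_le_one' (pow_le_one₀ zero_le ?_) (pow_le_one₀ zero_le hk1)
    exact (hval a').2 ha1.le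

theorem finite_dvr (μ : K →+* L) (V : ValuationSubring K) (O : ValuationSubring L)
    (hV : IsDiscreteValuationRing V) (hc : O.comap μ = V) (hfin : μ.Finite) :
    IsDiscreteValuationRing O := by
  have hint : μ.IsIntegral := hfin.to_isIntegral
  have hval : ∀ x : K, O.valuation (μ x) ≤ 1 ↔ V.valuation x ≤ 1 := by
    intro x
    rw [ValuationSubring.valuation_le_one_iff, ValuationSubring.valuation_le_one_iff]
    exact comap_mem hc x
  let := μ.toAlgebra
  have hfd : FiniteDimensional K L := hfin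
  set e := (Module.finrank K L).factorial with he
  have he0 : e ≠ 0 := Nat.factorial_ne_zero _
  obtain ⟨ϖ, hϖ⟩ := IsDiscreteValuationRing.exists_irreducible V
  have hϖ0 : (ϖ : K) ≠ 0 := fun h => hϖ.ne_zero (Subtype.ext h)
  set t := O.valuation (μ ϖ) with ht
  have ht0 : t ≠ 0 := (map_ne_zero _).2 ((map_ne_zero μ).2 hϖ0)
  have ht1 : t < 1 := by
    rw [ht, lt_iff_le_not_ge]
    refine ⟨(hval _).2 (V.valuation_le_one ϖ), ?_⟩
    intro h
    have h1 : O.valuation (μ (ϖ : K)⁻¹) ≤ 1 := by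
      rw [map_inv₀, map_inv₀]
      exact inv_le_one_of_one_le₀ h
    rw [hval, ValuationSubring.valuation_le_one_iff] at h1
    exact hϖ.not_isUnit (IsUnit.of_mul_eq_one ⟨(ϖ : K)⁻¹, h1⟩ (Subtype.ext (mul_inv_cancel₀ hϖ0)))
  -- the value
  have key : ∀ x : L, x ≠ 0 → x ∈ O → ∃ k : ℕ, O.valuation x ^ e = t ^ k := by
    intro x hx hxO
    obtain ⟨n, hn, hn2, a, ha, hna⟩ := two_terms μ O x hx (minpoly K x)
      (minpoly.ne_zero (Algebra.IsIntegral.isIntegral x)) (minpoly.aeval K x)
    have hnd : n ∣ e := Nat.dvd_factorial hn (hn2.trans (minpoly.natDegree_le x))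
    obtain ⟨q, hq⟩ := hnd
    have haV : a ∈ V := by
      rw [← comap_mem hc, ← ValuationSubring.valuation_le_one_iff, ← hna]
      exact pow_le_one₀ zero_le ((O.valuation_le_one_iff x).2 hxO)
    have ha0 : (⟨a, haV⟩ : V) ≠ 0 := fun h => ha (congrArg Subtype.val h)
    obtain ⟨k, u, hu⟩ := IsDiscreteValuationRing.eq_unit_mul_pow_irreducible ha0 hϖ
    have hu' : a = (u : V) * (ϖ : K) ^ k := congrArg Subtype.val hu
    have hu1 : O.valuation (μ ((u : V) : K)) = 1 := by
      have h1 : IsUnit (μV μ V O hc (u : V)) := (Units.isUnit u).map _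
      have h2 := (O.valuation_eq_one_iff _).1 h1
      exact h2
    refine ⟨k * q, ?_⟩
    rw [hq, pow_mul, hna, hu', map_mul, map_mul, hu1, one_mul, map_pow, map_pow, pow_mul]
  have tinj : ∀ i j : ℕ, t ^ i ≤ t ^ j ↔ j ≤ i := by
    intro i j
    constructor
    · intro h
      by_contra hlt
      push Not at hlt
      exact absurd h (not_le.2 (pow_lt_pow_right_of_lt_one₀ (zero_lt_iff.2 ht0) ht1 hlt))
    · intro h
      exact pow_le_pow_of_le_one zero_le ht1.le h
  choose! ν hν using key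
  -- minimal nonunit
  have hex : ∃ k : ℕ, ∃ y : L, y ≠ 0 ∧ y ∈ O ∧ O.valuation y < 1 ∧ ν y = k :=
    ⟨_, μ ϖ, (map_ne_zero μ).2 hϖ0, (comap_mem hc _).2 ϖ.2, ht1, rfl⟩
  obtain ⟨y, hy0, hyO, hy1, hyk⟩ := Nat.find_spec hex
  have hymin : ∀ z : L, z ≠ 0 → z ∈ O → O.valuation z < 1 → ν y ≤ ν z := by
    intro z hz0 hzO hz1
    rw [hyk]
    exact Nat.find_min' hex ⟨z, hz0, hzO, hz1, rfl⟩
  have hνle : ∀ x z : L, x ≠ 0 → x ∈ O → z ≠ 0 → z ∈ O → ν z ≤ ν x →
      O.valuation x ≤ O.valuation z := by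
    intro x z hx0 hxO hz0 hzO h
    have h1 : O.valuation x ^ e ≤ O.valuation z ^ e := by
      rw [hν x hx0 hxO, hν z hz0 hzO, tinj]
      exact h
    exact (pow_le_pow_iff_left₀ zero_le zero_le he0).1 h1
  have hνlt : ∀ x z : L, x ≠ 0 → x ∈ O → z ≠ 0 → z ∈ O → O.valuation x < O.valuation z →
      ν z < ν x := by
    intro x z hx0 hxO hz0 hzO h
    by_contra hc
    push Not at hc
    exact absurd h (not_lt.2 (hνle z x hz0 hzO hx0 hxO hc))
  let Y : O := ⟨y, hyO⟩
  have hYnu : ¬IsUnit Y := by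
    intro h
    rw [ValuationSubring.valuation_eq_one_iff] at h
    exact absurd h (ne_of_lt hy1)
  have hfac : ∀ k : ℕ, ∀ x : O, x ≠ 0 → ν (x : L) ≤ k → ∃ n : ℕ, Associated (Y ^ n) x := by
    intro k
    induction k with
    | zero =>
      intro x hx0 hxk
      have hx0' : (x : L) ≠ 0 := fun h => hx0 (Subtype.ext h)
      refine ⟨0, ?_⟩
      rw [pow_zero]
      have h1 : O.valuation (x : L) ^ e = 1 := by
        rw [hν x hx0' x.2, Nat.le_zero.1 hxk, pow_zero]
      have h2 : O.valuation (x : L) = 1 := (pow_eq_one_iff_of_nonneg zero_le he0).1 h1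
      have h3 : IsUnit x := (O.valuation_eq_one_iff x).2 h2
      exact (associated_one_iff_isUnit.2 h3).symm
    | succ k ih =>
      intro x hx0 hxk
      have hx0' : (x : L) ≠ 0 := fun h => hx0 (Subtype.ext h)
      by_cases hu : IsUnit x
      · exact ⟨0, by rw [pow_zero]; exact (associated_one_iff_isUnit.2 hu).symm⟩
      have hx1 : O.valuation (x : L) < 1 := by
        refine lt_of_le_of_ne (O.valuation_le_one x) ?_
        intro h
        exact hu ((O.valuation_eq_one_iff x).2 h)
      have h1 : O.valuation (x : L) ≤ O.valuation y :=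
        hνle x y hx0' x.2 hy0 hyO (hymin x hx0' x.2 hx1)
      have hvy : O.valuation y ≠ 0 := (map_ne_zero _).2 hy0
      have hvx : O.valuation (x : L) ≠ 0 := (map_ne_zero _).2 hx0'
      have hz : (x : L) / y ∈ O := by
        rw [← ValuationSubring.valuation_le_one_iff, map_div₀]
        exact div_le_one_of_le₀ h1 zero_le
      have hz0 : (x : L) / y ≠ 0 := div_ne_zero hx0' hy0
      have hlt : O.valuation (x : L) < O.valuation ((x : L) / y) := by
        rw [map_div₀, lt_div_iff₀ (zero_lt_iff.2 hvy)]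
        calc O.valuation (x : L) * O.valuation y < O.valuation (x : L) * 1 :=
              mul_lt_mul_of_pos_left hy1 (zero_lt_iff.2 hvx)
          _ = O.valuation (x : L) := mul_one _
      have h2 := hνlt x ((x : L) / y) hx0' x.2 hz0 hz hlt
      obtain ⟨n, hn⟩ := ih ⟨(x : L) / y, hz⟩ (fun h => hz0 (congrArg Subtype.val h))
        (by show ν ((x : L) / y) ≤ k; omega)
      refine ⟨n + 1, ?_⟩
      have h3 : x = ⟨(x : L) / y, hz⟩ * Y := by
        apply Subtype.ext
        show (x : L) = (x : L) / y * y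
        field_simp
      rw [h3, pow_succ]
      exact hn.mul_right Y
  have hirr : Irreducible Y := by
    refine ⟨hYnu, ?_⟩
    intro a b hab
    by_contra hcon
    push Not at hcon
    have hY0 : Y ≠ 0 := fun h => hy0 (congrArg Subtype.val h)
    have ha0 : a ≠ 0 := by
      rintro rfl
      exact hY0 (by rw [hab, zero_mul])
    have ha0' : (a : L) ≠ 0 := fun h => ha0 (Subtype.ext h)
    have hlt1 : ∀ z : O, ¬IsUnit z → O.valuation (z : L) < 1 := by
      intro z hz
      refine lt_of_le_of_ne (O.valuation_le_one z) ?_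
      intro h
      exact hz ((O.valuation_eq_one_iff z).2 h)
    have h1 : y = (a : L) * (b : L) := congrArg Subtype.val hab
    have hlt : O.valuation y < O.valuation (a : L) := by
      rw [h1, map_mul]
      calc O.valuation (a : L) * O.valuation (b : L) < O.valuation (a : L) * 1 :=
            mul_lt_mul_of_pos_left (hlt1 b hcon.2) (zero_lt_iff.2 ((map_ne_zero _).2 ha0'))
        _ = O.valuation (a : L) := mul_one _
    have h2 := hνlt y a hy0 hyO ha0' a.2 hlt
    have h3 := hymin a ha0' a.2 (hlt1 a hcon.1)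
    omega
  refine IsDiscreteValuationRing.ofHasUnitMulPowIrreducibleFactorization ⟨Y, hirr, ?_⟩
  intro x hx0
  exact hfac _ x hx0 le_rfl

end FDV_

theorem fdv_proof : Stmt_Fdv := by
  intro K L _ _ μ V O hV hc hint F _ _ c hb
  refine ⟨⟨FDV_.μV μ V O hc, fun x => rfl, FDV_.residue_bij μ V O hc hint F c hb⟩,
    FDV_.arch μ V O hV hc hint, ?_, FDV_.finite_dvr μ V O hV hc⟩
  intro x hx
  obtain ⟨n, hn, a, ha, h⟩ := FDV_.fdv_val μ O hint x hx
  have h0 : O.valuation (μ a) ≠ 0 := (map_ne_zero _).2 ((map_ne_zero μ).2 ha)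
  refine ⟨n, hn, a, ha, ?_, ?_⟩
  · rw [← ValuationSubring.valuation_le_one_iff, map_div₀, map_pow, h, div_self h0]
  · rw [← ValuationSubring.valuation_le_one_iff, map_div₀, map_pow, h, div_self h0]

end Pool.Agent.TFR
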