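import Pool.Agent.TFR.Stmts
import Pool.Agent.FRM.BCH

set_option autoImplicit false

noncomputable section

namespace Pool.Agent.TFR

open scoped Classical
open MvPolynomial Pool.Agent.LibDb3ab1 Pool.Agent.DC Pool.Agent.FRM Pool.Agent.SRF

namespace FFA_

/-- The ghost polynomials are homogeneous. -/
theorem hom₁ {p N : ℕ} [Fact p.Prime] {J : Type} (E : Eqs p N J) (j : J) :
    (E.g₁ j).IsHomogeneous (p * E.e j) := by
  have hp : (p : ℤ) ≠ 0 := by exact_mod_cast (Fact.out : p.Prime).ne_zero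
  have h1 : (C (p : ℤ) * E.g₁ j).IsHomogeneous (p * E.e j) := by
    rw [E.ghost]
    apply IsHomogeneous.sub
    · intro m hm
      have h2 : m ∈ (expand p (E.g j)).support := by rwa [mem_support_iff]
      obtain ⟨m', hm', rfl⟩ := Finset.mem_image.1 (support_expand_subset _ h2)
      have h3 := E.hom j (mem_support_iff.1 hm')
      change Finsupp.weight 1 (p • m') = _
      rw [map_nsmul, h3, smul_eq_mul]
    · rw [mul_comm]
      exact (E.hom j).pow p
  intro m hm
  apply h1
  rw [coeff_C_mul]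
  exact mul_ne_zero hp hm

/-- transport of integrality along commutative squares -/
theorem int_sq {A B A' B' : Type} [CommRing A] [CommRing B] [CommRing A'] [CommRing B']
    (f : A →+* B) (g : A' →+* B') (ψ : A →+* A') (φ : B →+* B') (h : φ.comp f = g.comp ψ)
    (x : B) (hx : f.IsIntegralElem x) : g.IsIntegralElem (φ x) := by
  obtain ⟨q, hq, hqx⟩ := hx
  refine ⟨q.map ψ, hq.map ψ, ?_⟩
  rw [Polynomial.eval₂_map, ← h, ← Polynomial.hom_eval₂, hqx, map_zero]

/-- evaluation of homogeneous polynomials at quotients -/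
theorem eval_div {F : Type} [Field F] {N : ℕ} (ξ : Fin (N + 1) → F) (ζ : F)
    (G : MvPolynomial (Fin (N + 1)) ℤ) (m : ℕ) (hG : G.IsHomogeneous m) :
    aeval (fun l => ξ l / ζ) G = aeval ξ G / ζ ^ m := by
  rw [aeval_def, aeval_def, eval₂_eq', eval₂_eq', Finset.sum_div]
  refine Finset.sum_congr rfl fun d hd => ?_
  have hd' : ∑ i, d i = m := by
    have := hG (mem_support_iff.1 hd)
    rw [Finsupp.weight_apply, Finsupp.sum_fintype _ _ (by simp)] at this
    simpa using this
  rw [mul_div_assoc]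
  congr 1
  rw [← hd', ← Finset.prod_pow_eq_pow_sum, ← Finset.prod_div_distrib]
  refine Finset.prod_congr rfl fun i _ => ?_
  rw [div_pow]

theorem aeval_red {K F : Type} [Field K] [Field F] [Algebra K F] {N : ℕ} (ξ : Fin (N + 1) → F)
    (G : MvPolynomial (Fin (N + 1)) ℤ) : (aeval ξ (red K G) : F) = aeval ξ G := by
  rw [red, aeval_def, aeval_def, eval₂_map]
  exact congrArg (fun f => eval₂ f ξ G) (RingHom.ext_int _ _)

end FFA_

open FFA_ in
theorem ffa_proof (hDeh : Stmt_Deh) (hDzn : Stmt_Dzn) (hDsf : Stmt_Dsf) (hDlx : Stmt_Dlx)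
    (hDlh : Stmt_Dlh) (hDio : Stmt_Dio) : Stmt_Ffa := by
  intro p N _ J E W S
  set μ : S.M.K →+* S.Ka := algebraMap S.M.K S.Ka with hμdef
  have hprime : S.Qa.IsPrime := S.geom S.Ka μ
  have hhom : Homog S.Qa := hom_map _ S.T.Q S.T.hom
  have hdim : ringKrullDim (MvPolynomial (Fin (N + 1)) S.Ka ⧸ S.Qa) = (2 + 1 : ℕ) := by
    have := dimf_proof S.M.K S.Ka μ (N + 1) S.T.Q
    rw [show S.Qa = S.T.Q.map (MvPolynomial.map μ) from rfl, this]
    exact S.T.dim
  have zO_hom : ∀ i, (S.zO i).IsHomogeneous 1 := fun i => (S.z_hom i).map _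
  have za_hom : ∀ i, (S.za i).IsHomogeneous 1 := fun i => (zO_hom i).map _
  -- the quotient map
  have hle : S.T.Q ≤ S.Qa.comap (MvPolynomial.map μ) := Ideal.le_comap_map
  let q : MvPolynomial (Fin (N + 1)) S.M.K ⧸ S.T.Q →+* MvPolynomial (Fin (N + 1)) S.Ka ⧸ S.Qa :=
    Ideal.quotientMap S.Qa (MvPolynomial.map μ) hle
  have hqinj : Function.Injective q := by
    apply Ideal.quotientMap_injective'
    exact (BCH_.comap_map μ S.T.Q).le
  have hqmk : ∀ F, q (Ideal.Quotient.mk _ F) = Ideal.Quotient.mk _ (MvPolynomial.map μ F) :=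
    fun F => rfl
  have hcomp : μ.comp S.M.V.subtype = S.O.subtype.comp S.ι :=
    RingHom.ext fun x => (S.ι_coe x).symm
  have hcomp' : (S.O.subtype.comp S.ι).comp S.M.c = μ.comp (S.M.V.subtype.comp S.M.c) := by
    rw [← hcomp, RingHom.comp_assoc]
  have hv : q.comp (vmap S.M.V S.T.Q) = (vmap S.O S.Qa).comp (MvPolynomial.map S.ι) := by
    refine RingHom.ext fun F => ?_
    simp only [vmap, RingHom.comp_apply, hqmk, MvPolynomial.map_map]
    rw [hcomp]
  have hzm : q.comp (zmap S.M.V S.T.Q (fun i => MvPolynomial.map S.M.c (S.z i))) =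
      (zmap S.O S.Qa S.zO).comp (MvPolynomial.map S.ι) := by
    unfold zmap
    rw [← RingHom.comp_assoc, hv, RingHom.comp_assoc, RingHom.comp_assoc]
    congr 1
    refine MvPolynomial.ringHom_ext (fun a => ?_) fun i => ?_
    · simp
    · simp [ExactSurf.zO, MvPolynomial.map_map]
  have hkz : (RingHom.id _).comp (zmap S.O S.Qa S.zO) =
      (kmap S.Qa S.za).comp (MvPolynomial.map S.O.subtype) := by
    refine MvPolynomial.ringHom_ext (fun a => ?_) fun i => ?_
    · simp [kmap, zmap, vmap]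
    · simp [kmap, zmap, vmap, ExactSurf.za]
  have hkm : q.comp (kmap S.T.Q (fun i => MvPolynomial.map (S.M.V.subtype.comp S.M.c) (S.z i))) =
      (kmap S.Qa S.za).comp (MvPolynomial.map μ) := by
    refine MvPolynomial.ringHom_ext (fun a => ?_) fun i => ?_
    · simp only [kmap, RingHom.comp_apply, hqmk, MvPolynomial.map_C, AlgHom.toRingHom_eq_coe,
        RingHom.coe_coe, MvPolynomial.aeval_C, MvPolynomial.algebraMap_eq]
    · simp only [kmap, RingHom.comp_apply, hqmk, MvPolynomial.map_X, AlgHom.toRingHom_eq_coe,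
        RingHom.coe_coe, MvPolynomial.aeval_X, MvPolynomial.map_map, ExactSurf.za, ExactSurf.zO]
      rw [← hcomp', RingHom.comp_assoc]
  have hqX : ∀ i, q (Ideal.Quotient.mk _ (X i)) = Ideal.Quotient.mk _ (X i) := by
    intro i
    rw [hqmk, MvPolynomial.map_X]
  have hred : ∀ F : MvPolynomial (Fin (N + 1)) ℤ,
      MvPolynomial.map μ (red S.M.K F) = red S.Ka F := by
    intro F
    have h0 : μ.comp (Int.castRingHom S.M.K) = Int.castRingHom S.Ka := RingHom.ext_int _ _
    rw [red, red, MvPolynomial.map_map, h0]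
  have z_intO : ∀ i, (zmap S.O S.Qa S.zO).IsIntegralElem (Ideal.Quotient.mk S.Qa (X i)) := by
    intro i
    rw [← hqX]
    exact int_sq _ _ _ q hzm _ (S.z_int i)
  have z_inta : ∀ i, (kmap S.Qa S.za).IsIntegralElem (Ideal.Quotient.mk S.Qa (X i)) := by
    intro i
    exact int_sq _ _ _ (RingHom.id _) hkz _ (z_intO i)
  have sepa : Sepz S.Qa S.za := by
    intro i
    obtain ⟨f, hf, hf'⟩ := S.z_sep i
    refine ⟨f.map (MvPolynomial.map μ), ?_, ?_⟩
    · rw [Polynomial.eval₂_map, ← hkm, ← hqX, ← Polynomial.hom_eval₂, hf, map_zero]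
    · rw [Polynomial.derivative_map, Polynomial.eval₂_map, ← hkm, ← hqX, ← Polynomial.hom_eval₂]
      intro h0
      apply hf'
      apply hqinj
      rw [h0, map_zero]
  have hz0 : S.za 0 ∉ S.Qa := by
    intro h0
    have hinj := hDzn N 2 S.Ka S.Qa hprime hhom hdim S.za za_hom z_inta
    have h1 : kmap S.Qa S.za (X 0) = kmap S.Qa S.za 0 := by
      rw [map_zero]
      simpa [kmap, Ideal.Quotient.eq_zero_iff_mem] using h0
    exact X_ne_zero (0 : Fin 3) (hinj h1)
  obtain ⟨F, _, _, ξ, hd⟩ := hDeh N S.Ka S.Qa hprime hhom S.za za_hom hz0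
  have dio : ∀ (m : ℕ) (b : MvPolynomial (Fin (N + 1)) S.Ka), b.IsHomogeneous m →
      (vmap S.O S.Qa).IsIntegralElem (Ideal.Quotient.mk S.Qa b) →
      ∀ (w : EN2.Pl S.O F) (i : Fin 3), (aeval ξ (S.za i) : F) ≠ 0 →
        (∀ j, (aeval ξ (S.za j) : F) / aeval ξ (S.za i) ∈ w.W) →
        (aeval ξ b : F) / aeval ξ (S.za i) ^ m ∈ w.W := fun m b hb hbi w i h0 hj =>
    hDio N S.Ka S.O S.Qa hprime hhom S.zO zO_hom z_intO F ξ hd m b hb hbi w i hj h0
  refine ⟨{
    F := F
    ξ := ξ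
    ζ := fun i => aeval ξ (S.za i)
    ζ_eq := fun i => rfl
    deh := hd
    surf := hDsf N S.Ka S.Qa hprime hhom hdim S.za za_hom z_inta sepa F ξ hd
    chart := fun j i h => hDlx N S.Ka S.Qa hprime hhom S.za za_hom z_inta F ξ hd j i h
    sec := ?_
    bound := ?_
    close := ?_
    exact := ?_ }⟩
  · intro j
    have h1 := hDlh N S.Ka S.Qa hhom hdim S.za za_hom z_inta F ξ hd 1 0 (X j) 1
      (isHomogeneous_X _ _) (isHomogeneous_one _ _)
      (fun h => hprime.ne_top ((Ideal.eq_top_iff_one _).2 h)) (by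
        rw [map_one, map_one, div_one]
        exact isIntegral_algebraMap)
    simpa using h1
  · intro w i h0 hj l
    have h1 := dio 1 (X l) (isHomogeneous_X _ _) (by
      have : Ideal.Quotient.mk S.Qa (X l) = vmap S.O S.Qa (X l) := by
        simp [vmap]
      rw [this]
      exact RingHom.isIntegralElem_map _) w i h0 hj
    simpa using h1
  · intro w i h0 hj j
    set τ : S.Ka := ((S.ι S.M.t : S.O) : S.Ka) with hτ
    set b : MvPolynomial (Fin (N + 1)) S.Ka :=
      C ((τ⁻¹) ^ (p + 1)) * (red S.Ka (E.g j) ^ p + C (τ ^ p) * red S.Ka (E.g₁ j)) with hb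
    have hbh : b.IsHomogeneous (p * E.e j) := by
      refine IsHomogeneous.C_mul ?_ _
      refine IsHomogeneous.add ?_ (IsHomogeneous.C_mul ((hom₁ E j).map _) _)
      rw [mul_comm]
      exact ((E.hom j).map _).pow p
    have hbi : (vmap S.O S.Qa).IsIntegralElem (Ideal.Quotient.mk S.Qa b) := by
      have h1 := S.M.close.close j
      have h2 := int_sq _ (vmap S.M.V S.T.Q) (RingHom.id _) (Ideal.Quotient.factor S.T.le)
        (by
          apply RingHom.ext
          intro x
          simp [vmap]) _ h1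
      have h3 := int_sq _ _ _ q hv _ h2
      rw [Ideal.Quotient.factor_mk, hqmk] at h3
      have h4 : MvPolynomial.map μ (C ((((S.M.t : S.M.V) : S.M.K)⁻¹) ^ (p + 1)) *
          (red S.M.K (E.g j) ^ p + C (((S.M.t : S.M.V) : S.M.K) ^ p) * red S.M.K (E.g₁ j))) = b := by
        simp only [map_mul, map_add, map_pow, hred, MvPolynomial.map_C, map_inv₀, hb, hτ, S.ι_coe]
        rfl
      rw [h4] at h3
      exact h3
    have h1 := dio _ b hbh hbi w i h0 hj
    have h2 : (aeval ξ b : F) = ((algebraMap S.Ka F τ)⁻¹) ^ (p + 1) *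
        ((aeval ξ (E.g j)) ^ p + (algebraMap S.Ka F τ) ^ p * aeval ξ (E.g₁ j)) := by
      simp only [hb, map_mul, map_add, map_pow, aeval_red, aeval_C, map_inv₀]
    rw [h2] at h1
    show ((algebraMap S.Ka F τ)⁻¹) ^ (p + 1) *
      ((aeval (fun l => ξ l / aeval ξ (S.za i)) (E.g j)) ^ p + (algebraMap S.Ka F τ) ^ p *
        aeval (fun l => ξ l / aeval ξ (S.za i)) (E.g₁ j)) ∈ w.W
    rw [eval_div ξ _ _ _ (E.hom j), eval_div ξ _ _ _ (hom₁ E j)]
    convert h1 using 1
    rw [div_pow, ← pow_mul, mul_comm (E.e j) p]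
    ring
  · intro w i h0 hj c hc
    set τ : S.Ka := ((S.ι S.T.ϖ : S.O) : S.Ka) with hτ
    have hbi : (vmap S.O S.Qa).IsIntegralElem (Ideal.Quotient.mk S.Qa (C (τ⁻¹) * X c)) := by
      have h1 := S.T.exact c hc
      have h3 := int_sq _ _ _ q hv _ h1
      rw [hqmk] at h3
      have h4 : MvPolynomial.map μ (C ((((S.T.ϖ : S.M.V) : S.M.K)⁻¹)) * X c) = C (τ⁻¹) * X c := by
        rw [map_mul, MvPolynomial.map_C, MvPolynomial.map_X, map_inv₀, hτ, S.ι_coe]
      rw [h4] at h3
      exact h3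
    have h1 := dio 1 (C (τ⁻¹) * X c) (IsHomogeneous.C_mul (isHomogeneous_X _ _) _) hbi w i h0 hj
    show (algebraMap S.Ka F τ)⁻¹ * (ξ c / aeval ξ (S.za i)) ∈ w.W
    convert h1 using 1
    rw [map_mul, aeval_C, aeval_X, map_inv₀, pow_one, mul_div_assoc]

end Pool.Agent.TFR
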