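import Pool.Agent.TFR.Stmts

/-!
# TFR, module SPD: descent of separability
-/

set_option autoImplicit false

noncomputable section

namespace Pool.Agent.TFR

open scoped Classical
open MvPolynomial Pool.Agent.LibDb3ab1 Pool.Agent.DC Pool.Agent.FRM

namespace SPD_

variable {K L : Type} [Field K] [Field L] (μ : K →+* L)

/-- apply an additive map to the coefficients -/
def Lam (ρ : L →+ K) {σ : Type} (F : MvPolynomial σ L) : MvPolynomial σ K :=
  ∑ m ∈ F.support, monomial m (ρ (coeff m F))

theorem coeff_Lam (ρ : L →+ K) {σ : Type} (F : MvPolynomial σ L) (m : σ →₀ ℕ) :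
    coeff m (Lam ρ F) = ρ (coeff m F) := by
  simp only [Lam, coeff_sum, coeff_monomial, Finset.sum_ite_eq']
  split_ifs with h
  · rfl
  · rw [notMem_support_iff.1 h, map_zero]

theorem Lam_add (ρ : L →+ K) {σ : Type} (F G : MvPolynomial σ L) :
    Lam ρ (F + G) = Lam ρ F + Lam ρ G := by
  ext m
  rw [coeff_Lam, coeff_add, coeff_add, coeff_Lam, coeff_Lam, map_add]

theorem Lam_zero (ρ : L →+ K) {σ : Type} : Lam ρ (0 : MvPolynomial σ L) = 0 := by
  ext m
  rw [coeff_Lam, coeff_zero, coeff_zero, map_zero]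

/-- the additive map -/
def LamH (ρ : L →+ K) (σ : Type) : MvPolynomial σ L →+ MvPolynomial σ K where
  toFun := Lam ρ
  map_zero' := Lam_zero ρ
  map_add' := Lam_add ρ

theorem Lam_mul (ρ : L →+ K) (hρ : ∀ (a : K) (x : L), ρ (μ a * x) = a * ρ x) {σ : Type}
    (G : MvPolynomial σ L) (F : MvPolynomial σ K) :
    Lam ρ (G * MvPolynomial.map μ F) = Lam ρ G * F := by
  ext m
  rw [coeff_Lam, coeff_mul, coeff_mul, map_sum]
  refine Finset.sum_congr rfl fun x _ => ?_
  rw [coeff_Lam, coeff_map, mul_comm, hρ, mul_comm]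

theorem Lam_C (ρ : L →+ K) {σ : Type} (c : L) : Lam ρ (C c : MvPolynomial σ L) = C (ρ c) := by
  ext m
  rw [coeff_Lam, coeff_C, coeff_C]
  split_ifs with h
  · rfl
  · rw [map_zero]

theorem Lam_mem (ρ : L →+ K) (hρ : ∀ (a : K) (x : L), ρ (μ a * x) = a * ρ x) {σ : Type}
    (P : Ideal (MvPolynomial σ K)) (G : MvPolynomial σ L) (hG : G ∈ P.map (MvPolynomial.map μ)) :
    Lam ρ G ∈ P := by
  have key : ∀ G ∈ P.map (MvPolynomial.map μ), ∀ a, Lam ρ (a * G) ∈ P := by
    intro G hG
    induction hG using Submodule.span_induction with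
    | mem x hx =>
      obtain ⟨y, hy, rfl⟩ := hx
      intro a
      rw [Lam_mul μ ρ hρ]
      exact Ideal.mul_mem_left _ _ hy
    | zero => intro a; rw [mul_zero, Lam_zero]; exact Ideal.zero_mem _
    | add x y _ _ hx hy =>
      intro a
      rw [mul_add, Lam_add]
      exact Ideal.add_mem _ (hx a) (hy a)
    | smul b x _ hx =>
      intro a
      rw [smul_eq_mul, ← mul_assoc]
      exact hx _
  have h := key _ hG 1
  rwa [one_mul] at h

/-- membership in the extended ideal is detected by the functionals -/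
theorem mem_of_Lam {σ : Type} (P : Ideal (MvPolynomial σ K)) (G : MvPolynomial σ L)
    (h : ∀ ρ : L →+ K, (∀ (a : K) (x : L), ρ (μ a * x) = a * ρ x) → Lam ρ G ∈ P) :
    G ∈ P.map (MvPolynomial.map μ) := by
  letI : Algebra K L := μ.toAlgebra
  let e := Module.Basis.ofVectorSpace K L
  let ρ : Module.Basis.ofVectorSpaceIndex K L → (L →+ K) := fun b => (e.coord b).toAddMonoidHom
  have hρ : ∀ b (a : K) (x : L), ρ b (μ a * x) = a * ρ b x := by
    intro b a x
    have h2 : μ a * x = a • x := rfl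
    rw [h2]
    exact (e.coord b).map_smul a x
  let T : Finset (Module.Basis.ofVectorSpaceIndex K L) :=
    G.support.biUnion fun m => (e.repr (coeff m G)).support
  have hG : G = ∑ b ∈ T, C (e b) * MvPolynomial.map μ (Lam (ρ b) G) := by
    ext m
    rw [coeff_sum]
    simp only [coeff_C_mul, coeff_map, coeff_Lam]
    have h3 : coeff m G = ∑ b ∈ (e.repr (coeff m G)).support, (e.repr (coeff m G) b) • e b := by
      conv_lhs => rw [← e.linearCombination_repr (coeff m G)]
      rw [Finsupp.linearCombination_apply]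
      rfl
    by_cases hm : m ∈ G.support
    · have h4 : ∑ b ∈ (e.repr (coeff m G)).support, (e.repr (coeff m G) b) • e b =
          ∑ b ∈ T, (e.repr (coeff m G) b) • e b := by
        refine Finset.sum_subset (Finset.subset_biUnion_of_mem
          (fun m => (e.repr (coeff m G)).support) hm) ?_
        intro b _ hb
        rw [Finsupp.notMem_support_iff.1 hb, zero_smul]
      refine (h3.trans h4).trans (Finset.sum_congr rfl fun b _ => ?_)
      show μ _ * e b = e b * μ _
      rw [mul_comm]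
      rfl
    · rw [notMem_support_iff.1 hm]
      symm
      refine Finset.sum_eq_zero fun b _ => ?_
      rw [map_zero, map_zero, mul_zero]
  rw [hG]
  refine Ideal.sum_mem _ fun b _ => Ideal.mul_mem_left _ _ ?_
  exact Ideal.mem_map_of_mem _ (h (ρ b) (hρ b))

/-- the functional and evaluation at the linear forms -/
theorem Lam_aeval (ρ : L →+ K) (hρ : ∀ (a : K) (x : L), ρ (μ a * x) = a * ρ x) {σ τ : Type}
    (z : τ → MvPolynomial σ K) (F : MvPolynomial τ L) (B : MvPolynomial σ K) :
    Lam ρ (aeval (fun i => MvPolynomial.map μ (z i)) F * MvPolynomial.map μ B) =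
      aeval z (Lam ρ F) * B := by
  induction F using MvPolynomial.induction_on' with
  | monomial m c =>
    have h1 : Lam ρ (monomial m c : MvPolynomial τ L) = monomial m (ρ c) := by
      ext m'
      rw [coeff_Lam, coeff_monomial, coeff_monomial]
      split_ifs with h
      · rfl
      · rw [map_zero]
    rw [h1, aeval_monomial, aeval_monomial]
    have h2 : (m.prod fun i k => MvPolynomial.map μ (z i) ^ k) =
        MvPolynomial.map μ (m.prod fun i k => z i ^ k) := by
      rw [map_finsuppProd]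
      simp only [map_pow]
    rw [h2, mul_assoc, ← map_mul, Lam_mul μ ρ hρ]
    show Lam ρ (C c) * _ = C (ρ c) * _ * _
    rw [Lam_C, mul_assoc]
  | add F G hF hG => rw [map_add, add_mul, Lam_add, hF, hG, Lam_add, map_add, add_mul]

/-- the polynomial with the functional applied -/
def LP (ρ : L →+ K) {τ : Type} (f : Polynomial (MvPolynomial τ L)) :
    Polynomial (MvPolynomial τ K) :=
  ∑ j ∈ Finset.range (f.natDegree + 1), Polynomial.monomial j (Lam ρ (f.coeff j))

theorem coeff_LP (ρ : L →+ K) {τ : Type} (f : Polynomial (MvPolynomial τ L)) (j : ℕ) :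
    (LP ρ f).coeff j = Lam ρ (f.coeff j) := by
  unfold LP
  rw [Polynomial.finsetSum_coeff]
  simp only [Polynomial.coeff_monomial, Finset.sum_ite_eq']
  split_ifs with h
  · rfl
  · rw [Polynomial.coeff_eq_zero_of_natDegree_lt (by simpa using h), Lam_zero]

theorem LP_derivative (ρ : L →+ K) {τ : Type} (f : Polynomial (MvPolynomial τ L)) :
    LP ρ f.derivative = (LP ρ f).derivative := by
  ext1 j
  rw [coeff_LP, Polynomial.coeff_derivative, Polynomial.coeff_derivative, coeff_LP]
  have h1 : ∀ (n : ℕ) (F : MvPolynomial τ L), Lam ρ (F * (n : MvPolynomial τ L)) =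
      Lam ρ F * (n : MvPolynomial τ K) := by
    intro n F
    have h2 : ∀ G : MvPolynomial τ L, Lam ρ G = LamH ρ τ G := fun _ => rfl
    rw [mul_comm, ← nsmul_eq_mul, h2, map_nsmul, nsmul_eq_mul, mul_comm]
    rfl
  have h3 := h1 (j + 1) (f.coeff (j + 1))
  push_cast at h3
  exact h3

/-- evaluation in the polynomial ring -/
def EV {σ τ R : Type} [CommRing R] (z : τ → MvPolynomial σ R) (x : MvPolynomial σ R)
    (f : Polynomial (MvPolynomial τ R)) : MvPolynomial σ R :=
  f.eval₂ (aeval z).toRingHom x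

theorem Lam_EV (ρ : L →+ K) (hρ : ∀ (a : K) (x : L), ρ (μ a * x) = a * ρ x) {σ τ : Type}
    (z : τ → MvPolynomial σ K) (x : MvPolynomial σ K) (f : Polynomial (MvPolynomial τ L)) :
    Lam ρ (EV (fun i => MvPolynomial.map μ (z i)) (MvPolynomial.map μ x) f) =
      EV z x (LP ρ f) := by
  unfold EV LP
  rw [Polynomial.eval₂_eq_sum_range, Polynomial.eval₂_finsetSum]
  have h2 : ∀ G : MvPolynomial σ L, Lam ρ G = LamH ρ σ G := fun _ => rfl
  rw [h2, map_sum]
  refine Finset.sum_congr rfl fun j _ => ?_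
  rw [Polynomial.eval₂_monomial, ← h2, ← map_pow]
  exact Lam_aeval μ ρ hρ z _ _

end SPD_

open SPD_ in
theorem spd_proof : Stmt_Spd := by
  intro N r K L _ _ μ Q z hsep i
  obtain ⟨f, hf1, hf2⟩ := hsep i
  have hev : ∀ (R : Type) [Field R] (P : Ideal (MvPolynomial (Fin (N + 1)) R))
      (w : Fin r → MvPolynomial (Fin (N + 1)) R) (g : Polynomial (MvPolynomial (Fin r) R)),
      g.eval₂ (kmap P w) (Ideal.Quotient.mk P (X i)) = Ideal.Quotient.mk P (EV w (X i) g) := by
    intro R _ P w g
    unfold EV kmap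
    rw [Polynomial.hom_eval₂]
  rw [hev] at hf1 hf2
  have hX : (X i : MvPolynomial (Fin (N + 1)) L) = MvPolynomial.map μ (X i) := by
    rw [map_X]
  have h1 := Ideal.Quotient.eq_zero_iff_mem.1 hf1
  have h2 := fun h => hf2 (Ideal.Quotient.eq_zero_iff_mem.2 h)
  have h3 : ∃ ρ : L →+ K, (∀ (a : K) (x : L), ρ (μ a * x) = a * ρ x) ∧
      Lam ρ (EV (fun i => MvPolynomial.map μ (z i)) (X i) f.derivative) ∉ Q := by
    by_contra hcon
    push Not at hcon
    exact h2 (mem_of_Lam μ Q _ hcon)
  obtain ⟨ρ, hρ, hn⟩ := h3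
  refine ⟨LP ρ f, ?_, ?_⟩
  · rw [hev, Ideal.Quotient.eq_zero_iff_mem, ← Lam_EV μ ρ hρ z (X i) f, ← hX]
    exact Lam_mem μ ρ hρ Q _ h1
  · rw [hev, Ne, Ideal.Quotient.eq_zero_iff_mem, ← LP_derivative, ← Lam_EV μ ρ hρ z (X i), ← hX]
    exact hn

end Pool.Agent.TFR
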