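import Pool.Agent.TFR.StmtsB

/-!
# TFR: TDA
-/

set_option autoImplicit false

namespace Pool.Agent.TFR

open scoped Classical
open MvPolynomial Pool.Agent.LibDb3ab1 Pool.Agent.DC Pool.Agent.FRM

namespace TDA_

variable {σ K L : Type} [Field K] [Field L]

/-- coefficientwise application of an additive map -/
noncomputable def Lam (l : L →+ K) (f : MvPolynomial σ L) : MvPolynomial σ K :=
  ∑ m ∈ f.support, monomial m (l (coeff m f))

lemma coeff_Lam (l : L →+ K) (f : MvPolynomial σ L) (m : σ →₀ ℕ) :
    coeff m (Lam l f) = l (coeff m f) := by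
  unfold Lam
  rw [coeff_sum]
  simp only [coeff_monomial]
  rw [Finset.sum_ite_eq' f.support m]
  split_ifs with h
  · rfl
  · rw [notMem_support_iff.mp h, map_zero]

lemma Lam_zero (l : L →+ K) : Lam l (0 : MvPolynomial σ L) = 0 := by
  ext m
  rw [coeff_Lam]
  simp

lemma Lam_add (l : L →+ K) (f g : MvPolynomial σ L) : Lam l (f + g) = Lam l f + Lam l g := by
  ext m
  simp [coeff_Lam]

lemma Lam_sum (l : L →+ K) {ι : Type} (s : Finset ι) (f : ι → MvPolynomial σ L) :
    Lam l (∑ i ∈ s, f i) = ∑ i ∈ s, Lam l (f i) := by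
  ext m
  rw [coeff_Lam, coeff_sum, coeff_sum, map_sum]
  simp [coeff_Lam]

lemma Lam_mul (μ : K →+* L) (l : L →+ K) (hl : ∀ (a : L) (k : K), l (a * μ k) = l a * k)
    (f : MvPolynomial σ L) (q : MvPolynomial σ K) :
    Lam l (f * MvPolynomial.map μ q) = Lam l f * q := by
  ext m
  rw [coeff_Lam, coeff_mul, coeff_mul, map_sum]
  refine Finset.sum_congr rfl fun x _ => ?_
  rw [coeff_map, hl, coeff_Lam]

lemma Lam_mem (μ : K →+* L) (l : L →+ K) (hl : ∀ (a : L) (k : K), l (a * μ k) = l a * k)
    (Q : Ideal (MvPolynomial σ K)) (f : MvPolynomial σ L)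
    (hf : f ∈ Q.map (MvPolynomial.map μ)) : Lam l f ∈ Q := by
  have h : f ∈ Submodule.span (MvPolynomial σ L) ((MvPolynomial.map μ) '' (Q : Set _)) := hf
  have key : ∀ a : MvPolynomial σ L, Lam l (a * f) ∈ Q := by
    induction h using Submodule.span_induction with
    | mem x hx =>
      obtain ⟨q, hq, rfl⟩ := hx
      intro a
      rw [Lam_mul μ l hl]
      exact Q.mul_mem_left _ hq
    | zero =>
      intro a
      rw [mul_zero, Lam_zero]
      exact Q.zero_mem
    | add x y hx hy h1 h2 =>
      intro a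
      rw [mul_add, Lam_add]
      exact Q.add_mem (h1 hx a) (h2 hy a)
    | smul b x hx h1 =>
      intro a
      rw [smul_eq_mul, ← mul_assoc]
      exact h1 hx _
  have := key 1
  rwa [one_mul] at this

end TDA_

open TDA_ in
theorem tda_proof : Stmt_Tda := by
  intro N K L _ _ μ Q n
  let σ := Fin (N + 1)
  let W := (homogeneousSubmodule (Fin (N + 1)) K n).map (Ideal.Quotient.mkₐ K Q).toLinearMap
  let QL := Q.map (MvPolynomial.map μ)
  let WL := (homogeneousSubmodule (Fin (N + 1)) L n).map (Ideal.Quotient.mkₐ L QL).toLinearMap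
  let b := Module.Basis.ofVectorSpace K W
  have hG : ∀ i, ∃ G : MvPolynomial (Fin (N + 1)) K, G.IsHomogeneous n ∧
      Ideal.Quotient.mk Q G = (b i : MvPolynomial (Fin (N + 1)) K ⧸ Q) := by
    intro i
    obtain ⟨G, hG, h⟩ := (b i).2
    exact ⟨G, hG, h⟩
  choose G hGh hGb using hG
  have hmem : ∀ i, Ideal.Quotient.mk QL (MvPolynomial.map μ (G i)) ∈ WL := by
    intro i
    exact ⟨MvPolynomial.map μ (G i), (hGh i).map μ, rfl⟩
  -- independence
  have hind : LinearIndependent L (fun i => (⟨_, hmem i⟩ : WL)) := by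
    rw [linearIndependent_iff']
    intro s c hc i hi
    have h1 : ∑ j ∈ s, C (c j) * MvPolynomial.map μ (G j) ∈ QL := by
      rw [← Ideal.Quotient.eq_zero_iff_mem, map_sum]
      have h2 : ∑ j ∈ s, c j • Ideal.Quotient.mk QL (MvPolynomial.map μ (G j)) = 0 := by
        have h3 := congrArg WL.subtype hc
        rw [map_sum, map_zero] at h3
        exact h3
      rw [← h2]
      refine Finset.sum_congr rfl fun j _ => ?_
      rw [map_mul]
      exact (Algebra.smul_def (c j) (Ideal.Quotient.mk QL (MvPolynomial.map μ (G j)))).symm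
    let _ : Algebra K L := μ.toAlgebra
    rw [← Module.forall_dual_apply_eq_zero_iff K (c i)]
    intro φ
    have hl : ∀ (a : L) (k : K), φ.toAddMonoidHom (a * μ k) = φ.toAddMonoidHom a * k := by
      intro a k
      have : a * μ k = k • a := by
        rw [Algebra.smul_def, mul_comm]
        rfl
      change φ (a * μ k) = φ a * k
      rw [this, map_smul, smul_eq_mul, mul_comm]
    have h4 := Lam_mem μ φ.toAddMonoidHom hl Q _ h1
    rw [Lam_sum] at h4
    have h5 : ∑ j ∈ s, Lam φ.toAddMonoidHom (C (c j) * MvPolynomial.map μ (G j)) =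
        ∑ j ∈ s, C (φ (c j)) * G j := by
      refine Finset.sum_congr rfl fun j _ => ?_
      rw [Lam_mul μ _ hl]
      congr 1
      ext m
      rw [coeff_Lam, coeff_C, coeff_C]
      split_ifs
      · rfl
      · simp
    rw [h5, ← Ideal.Quotient.eq_zero_iff_mem, map_sum] at h4
    have h6 : ∑ j ∈ s, φ (c j) • b j = 0 := by
      apply Subtype.ext
      rw [Submodule.coe_sum, Submodule.coe_zero, ← h4]
      refine Finset.sum_congr rfl fun j _ => ?_
      rw [map_mul, Submodule.coe_smul, ← hGb j]
      exact Algebra.smul_def (φ (c j)) (Ideal.Quotient.mk Q (G j))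
    exact linearIndependent_iff'.mp b.linearIndependent s (fun j => φ (c j)) h6 i hi
  have hgen : ∀ h : MvPolynomial (Fin (N + 1)) K, h.IsHomogeneous n →
      Ideal.Quotient.mk QL (MvPolynomial.map μ h) ∈
        Submodule.span L (Set.range (fun i => Ideal.Quotient.mk QL (MvPolynomial.map μ (G i)))) := by
    intro h hh
    let y : W := ⟨Ideal.Quotient.mk Q h, h, hh, rfl⟩
    have h1 := b.linearCombination_repr y
    have h2 : h - ∑ i ∈ (b.repr y).support, C ((b.repr y) i) * G i ∈ Q := by
      rw [← Ideal.Quotient.eq_zero_iff_mem, map_sub, map_sum, sub_eq_zero]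
      have h3 := congrArg W.subtype h1
      rw [Finsupp.linearCombination_apply, Finsupp.sum, map_sum] at h3
      change _ = Ideal.Quotient.mk Q h at h3
      rw [← h3]
      refine Finset.sum_congr rfl fun j _ => ?_
      rw [map_mul, map_smul]
      change (b.repr y) j • (b j : MvPolynomial (Fin (N + 1)) K ⧸ Q) = _
      rw [← hGb j]
      exact Algebra.smul_def ((b.repr y) j) (Ideal.Quotient.mk Q (G j))
    have h3 : MvPolynomial.map μ (h - ∑ i ∈ (b.repr y).support, C ((b.repr y) i) * G i) ∈ QL :=
      Ideal.mem_map_of_mem _ h2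
    rw [← Ideal.Quotient.eq_zero_iff_mem, map_sub, map_sub, sub_eq_zero, map_sum, map_sum] at h3
    rw [h3]
    apply Submodule.sum_mem
    intro i _
    rw [map_mul, map_mul, map_C]
    have : Ideal.Quotient.mk QL (C (μ ((b.repr y) i))) *
        Ideal.Quotient.mk QL (MvPolynomial.map μ (G i)) =
        (μ ((b.repr y) i)) • Ideal.Quotient.mk QL (MvPolynomial.map μ (G i)) :=
      (Algebra.smul_def (μ ((b.repr y) i)) (Ideal.Quotient.mk QL (MvPolynomial.map μ (G i)))).symm
    rw [this]
    exact Submodule.smul_mem _ _ (Submodule.subset_span ⟨i, rfl⟩)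
  have hspan : ⊤ ≤ Submodule.span L (Set.range (fun i => (⟨_, hmem i⟩ : WL))) := by
    rintro ⟨x, g, hg, hx⟩ -
    have h1 : x ∈ Submodule.span L
        (Set.range (fun i => Ideal.Quotient.mk QL (MvPolynomial.map μ (G i)))) := by
      rw [← hx]
      change Ideal.Quotient.mk QL g ∈ _
      rw [g.as_sum, map_sum]
      apply Submodule.sum_mem
      intro m hm
      have h2 : monomial m (coeff m g) = C (coeff m g) * MvPolynomial.map μ (monomial m 1) := by
        rw [map_monomial, map_one, C_mul_monomial, mul_one]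
      rw [h2, map_mul]
      have h3 : Ideal.Quotient.mk QL (C (coeff m g)) *
          Ideal.Quotient.mk QL (MvPolynomial.map μ (monomial m 1)) =
          coeff m g • Ideal.Quotient.mk QL (MvPolynomial.map μ (monomial m 1)) :=
        (Algebra.smul_def (coeff m g)
          (Ideal.Quotient.mk QL (MvPolynomial.map μ (monomial m 1)))).symm
      rw [h3]
      apply Submodule.smul_mem
      apply hgen
      apply isHomogeneous_monomial
      rw [Finsupp.degree_eq_weight_one]
      exact hg (mem_support_iff.mp hm)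
    have h4 : (Submodule.span L (Set.range (fun i => (⟨_, hmem i⟩ : WL)))).map WL.subtype =
        Submodule.span L
          (Set.range (fun i => Ideal.Quotient.mk QL (MvPolynomial.map μ (G i)))) := by
      rw [Submodule.map_span, ← Set.range_comp]
      rfl
    rw [← h4] at h1
    obtain ⟨z, hz, hz'⟩ := h1
    have : z = ⟨x, g, hg, hx⟩ := Subtype.ext hz'
    rw [← this]
    exact hz
  let bL := Module.Basis.mk hind hspan
  change Module.finrank L WL = Module.finrank K W
  rw [Module.finrank_eq_nat_card_basis b, Module.finrank_eq_nat_card_basis bL]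

end Pool.Agent.TFR
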