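import Pool.Agent.TFR.StmtsB

/-!
# TFR, module TDB: the Hilbert polynomial and the degree over the plane
-/

set_option autoImplicit false

noncomputable section

namespace Pool.Agent.TFR

open scoped Classical
open MvPolynomial Pool.Agent.LibDb3ab1 Pool.Agent.DC Pool.Agent.FRM

namespace TDB_

section MM
variable (K : Type) {F : Type} [Field K] [Field F] [Algebra K F] (x y : F)

/-- span of `x^a y^b w_i`, `a + b ≤ m` -/
def MM {ι : Type} (w : ι → F) (m : ℕ) : Submodule K F :=
  Submodule.span K {v | ∃ a b i, a + b ≤ m ∧ v = x ^ a * y ^ b * w i}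

variable {K x y} {ι : Type} {w : ι → F}

lemma MM_mem {a b m : ℕ} (h : a + b ≤ m) (i : ι) : x ^ a * y ^ b * w i ∈ MM K x y w m :=
  Submodule.subset_span ⟨a, b, i, h, rfl⟩

lemma MM_mono {m m' : ℕ} (h : m ≤ m') : MM K x y w m ≤ MM K x y w m' := by
  apply Submodule.span_mono
  rintro v ⟨a, b, i, hab, rfl⟩
  exact ⟨a, b, i, hab.trans h, rfl⟩

lemma MM_mul {m m' a b : ℕ} (h : m + (a + b) ≤ m') {v : F} (hv : v ∈ MM K x y w m) :
    x ^ a * y ^ b * v ∈ MM K x y w m' := by
  unfold MM at hv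
  induction hv using Submodule.span_induction with
  | mem v hv =>
    obtain ⟨c, d, i, hcd, rfl⟩ := hv
    have e : x ^ a * y ^ b * (x ^ c * y ^ d * w i) = x ^ (a + c) * y ^ (b + d) * w i := by ring
    rw [e]
    exact MM_mem (by omega) i
  | zero => rw [mul_zero]; exact zero_mem _
  | add u v _ _ hu hv => rw [mul_add]; exact add_mem hu hv
  | smul c v _ hv => rw [mul_smul_comm]; exact Submodule.smul_mem _ _ hv

lemma MM_smul {m m' : ℕ} {r v : F} (hr : r ∈ MM K x y (fun _ : Unit => (1 : F)) m')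
    (hv : v ∈ MM K x y w m) : r * v ∈ MM K x y w (m + m') := by
  unfold MM at hr
  induction hr using Submodule.span_induction with
  | mem r hr =>
    obtain ⟨c, d, i, hcd, rfl⟩ := hr
    rw [mul_one]
    exact MM_mul (by omega) hv
  | zero => rw [zero_mul]; exact zero_mem _
  | add u v _ _ hu hv => rw [add_mul]; exact add_mem hu hv
  | smul c v _ hv => rw [smul_mul_assoc]; exact Submodule.smul_mem _ _ hv

/-- polynomials in `x, y` -/
lemma alg_mem {r : F} (hr : r ∈ Algebra.adjoin K {x, y}) :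
    ∃ m, r ∈ MM K x y (fun _ : Unit => (1 : F)) m := by
  induction hr using Algebra.adjoin_induction with
  | mem r hr =>
    refine ⟨1, ?_⟩
    rcases hr with rfl | hr
    · have := MM_mem (K := K) (x := r) (y := y) (w := fun _ : Unit => (1 : F))
        (show 1 + 0 ≤ 1 by omega) ()
      simpa using this
    · rw [Set.mem_singleton_iff] at hr
      subst hr
      have := MM_mem (K := K) (x := x) (y := r) (w := fun _ : Unit => (1 : F))
        (show 0 + 1 ≤ 1 by omega) ()
      simpa using this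
  | algebraMap c =>
    refine ⟨0, ?_⟩
    have := MM_mem (K := K) (x := x) (y := y) (w := fun _ : Unit => (1 : F))
      (show 0 + 0 ≤ 0 by omega) ()
    have h2 := Submodule.smul_mem _ c this
    simpa [Algebra.smul_def] using h2
  | add u v _ _ hu hv =>
    obtain ⟨m, hm⟩ := hu
    obtain ⟨m', hm'⟩ := hv
    exact ⟨max m m', add_mem (MM_mono (le_max_left _ _) hm) (MM_mono (le_max_right _ _) hm')⟩
  | mul u v _ _ hu hv =>
    obtain ⟨m, hm⟩ := hu
    obtain ⟨m', hm'⟩ := hv
    exact ⟨m' + m, MM_smul hm hm'⟩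

lemma span_mem {v : F} (hv : v ∈ Submodule.span (Algebra.adjoin K {x, y}) (Set.range w)) :
    ∃ m, v ∈ MM K x y w m := by
  induction hv using Submodule.span_induction with
  | mem v hv =>
    obtain ⟨i, rfl⟩ := hv
    refine ⟨0, ?_⟩
    have := MM_mem (K := K) (x := x) (y := y) (w := w) (show 0 + 0 ≤ 0 by omega) i
    simpa using this
  | zero => exact ⟨0, zero_mem _⟩
  | add u v _ _ hu hv =>
    obtain ⟨m, hm⟩ := hu
    obtain ⟨m', hm'⟩ := hv
    exact ⟨max m m', add_mem (MM_mono (le_max_left _ _) hm) (MM_mono (le_max_right _ _) hm')⟩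
  | smul c v _ hv =>
    obtain ⟨m, hm⟩ := hv
    obtain ⟨m', hm'⟩ := alg_mem c.2
    exact ⟨m + m', MM_smul hm' hm⟩

/-- denominators -/
lemma denom {v : F} (hv : v ∈ Submodule.span (IntermediateField.adjoin K {x, y}) (Set.range w)) :
    ∃ f ∈ Algebra.adjoin K {x, y}, f ≠ 0 ∧
      f * v ∈ Submodule.span (Algebra.adjoin K {x, y}) (Set.range w) := by
  induction hv using Submodule.span_induction with
  | mem v hv =>
    exact ⟨1, one_mem _, one_ne_zero, by rw [one_mul]; exact Submodule.subset_span hv⟩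
  | zero => exact ⟨1, one_mem _, one_ne_zero, by rw [mul_zero]; exact zero_mem _⟩
  | add u v _ _ hu hv =>
    obtain ⟨f, hf, hf0, hfu⟩ := hu
    obtain ⟨g, hg, hg0, hgv⟩ := hv
    refine ⟨f * g, mul_mem hf hg, mul_ne_zero hf0 hg0, ?_⟩
    have e : f * g * (u + v) = (⟨g, hg⟩ : Algebra.adjoin K {x, y}) • (f * u) +
        (⟨f, hf⟩ : Algebra.adjoin K {x, y}) • (g * v) := by
      change _ = g * (f * u) + f * (g * v)
      ring
    rw [e]
    exact add_mem (Submodule.smul_mem _ _ hfu) (Submodule.smul_mem _ _ hgv)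
  | smul c v _ hv =>
    obtain ⟨f, hf, hf0, hfv⟩ := hv
    obtain ⟨r, hr, s, hs, e⟩ := IntermediateField.mem_adjoin_iff_div.1 c.2
    by_cases hs0 : s = 0
    · refine ⟨1, one_mem _, one_ne_zero, ?_⟩
      have : (c : F) = 0 := by rw [e, hs0, div_zero]
      have h2 : c • v = 0 := by
        change (c : F) * v = 0
        rw [this, zero_mul]
      rw [h2, mul_zero]; exact zero_mem _
    · refine ⟨s * f, mul_mem hs hf, mul_ne_zero hs0 hf0, ?_⟩
      have e2 : s * f * (c • v) = (⟨r, hr⟩ : Algebra.adjoin K {x, y}) • (f * v) := by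
        change s * f * ((c : F) * v) = r * (f * v)
        rw [e]
        field_simp
      rw [e2]
      exact Submodule.smul_mem _ _ hfv

/-- common denominator of a finite family -/
lemma denoms (hw : Submodule.span (IntermediateField.adjoin K {x, y}) (Set.range w) = ⊤)
    (s : Finset F) : ∃ f ∈ Algebra.adjoin K {x, y}, f ≠ 0 ∧
      ∀ v ∈ s, f * v ∈ Submodule.span (Algebra.adjoin K {x, y}) (Set.range w) := by
  induction s using Finset.induction_on with
  | empty => exact ⟨1, one_mem _, one_ne_zero, by simp⟩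
  | insert a s ha ih =>
    obtain ⟨f, hf, hf0, h⟩ := ih
    obtain ⟨g, hg, hg0, h'⟩ := denom (K := K) (x := x) (y := y) (w := w) (v := a)
      (by rw [hw]; trivial)
    refine ⟨f * g, mul_mem hf hg, mul_ne_zero hf0 hg0, ?_⟩
    intro v hv
    rcases Finset.mem_insert.1 hv with rfl | hv
    · rw [mul_assoc]
      exact Submodule.smul_mem _ (⟨f, hf⟩ : Algebra.adjoin K {x, y}) h'
    · rw [mul_comm f g, mul_assoc]
      exact Submodule.smul_mem _ (⟨g, hg⟩ : Algebra.adjoin K {x, y}) (h v hv)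

/-- exponents -/
abbrev T (m : ℕ) : Type := Σ k : Fin (m + 1), Fin (k.1 + 1)

lemma card_T (m : ℕ) : 2 * Fintype.card (T m) = (m + 1) * (m + 2) := by
  rw [Fintype.card_sigma]
  simp only [Fintype.card_fin]
  rw [Fin.sum_univ_eq_sum_range (fun k => k + 1) (m + 1)]
  induction m with
  | zero => simp
  | succ m ih =>
    rw [Finset.sum_range_succ, mul_add, ih]
    ring

lemma MM_eq (m : ℕ) : MM K x y w m = Submodule.span K (Set.range fun q : T m × ι =>
    x ^ (q.1.2 : ℕ) * y ^ ((q.1.1 : ℕ) - q.1.2) * w q.2) := by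
  unfold MM
  congr 1
  ext v
  constructor
  · rintro ⟨a, b, i, hab, rfl⟩
    refine ⟨(⟨⟨a + b, by omega⟩, ⟨a, by simp only; omega⟩⟩, i), ?_⟩
    change x ^ a * y ^ (a + b - a) * w i = _
    rw [Nat.add_sub_cancel_left]
  · rintro ⟨⟨⟨k, j⟩, i⟩, rfl⟩
    refine ⟨j, k - j, i, ?_, rfl⟩
    have h1 := j.2
    have h2 := k.2
    omega

lemma finrank_MM [Fintype ι]
    (hind : LinearIndependent K (fun q : (ℕ × ℕ) × ι => x ^ q.1.1 * y ^ q.1.2 * w q.2)) (m : ℕ) :
    Module.finrank K (MM K x y w m) = Fintype.card (T m) * Fintype.card ι := by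
  rw [MM_eq]
  have hli : LinearIndependent K (fun q : T m × ι =>
      x ^ (q.1.2 : ℕ) * y ^ ((q.1.1 : ℕ) - q.1.2) * w q.2) := by
    refine hind.comp (fun q : T m × ι => (((q.1.2 : ℕ), (q.1.1 : ℕ) - q.1.2), q.2)) ?_
    rintro ⟨⟨k, j⟩, i⟩ ⟨⟨k', j'⟩, i'⟩ h
    simp only [Prod.mk.injEq] at h
    obtain ⟨⟨h1, h2⟩, h3⟩ := h
    have e1 : (k : ℕ) = k' := by
      have := j.2
      have := j'.2
      omega
    have e1' : k = k' := Fin.ext e1
    subst e1'
    have e2 : j = j' := Fin.ext h1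
    rw [e2, h3]
  rw [finrank_span_eq_card hli, Fintype.card_prod]

end MM

section indep
variable {K F : Type} [Field K] [Field F] [Algebra K F] {x y : F}

lemma ind1 (h : AlgebraicIndependent K ![x, y]) :
    LinearIndependent K (fun q : ℕ × ℕ => x ^ q.1 * y ^ q.2) := by
  have h1 := (basisMonomials (Fin 2) K).linearIndependent
  have h2 := h1.map' (aeval (R := K) ![x, y]).toLinearMap
    (LinearMap.ker_eq_bot.2 h)
  have h3 := h2.comp (fun q : ℕ × ℕ => Finsupp.single (0 : Fin 2) q.1 + Finsupp.single 1 q.2) (by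
    rintro ⟨a, b⟩ ⟨c, d⟩ e
    have e0 := DFunLike.congr_fun e 0
    have e1 := DFunLike.congr_fun e 1
    simp at e0 e1
    rw [e0, e1])
  have h4 : (fun q : ℕ × ℕ => x ^ q.1 * y ^ q.2) =
      ((⇑(aeval (R := K) ![x, y]).toLinearMap ∘ ⇑(basisMonomials (Fin 2) K)) ∘
        fun q : ℕ × ℕ => Finsupp.single (0 : Fin 2) q.1 + Finsupp.single 1 q.2) := by
    funext q
    simp [aeval_monomial, Finsupp.prod_add_index', pow_add]
  rw [h4]
  exact h3

lemma ind2 (h : AlgebraicIndependent K ![x, y]) {ι : Type} {g : ι → F}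
    (hg : LinearIndependent (IntermediateField.adjoin K {x, y}) g) :
    LinearIndependent K (fun q : (ℕ × ℕ) × ι => x ^ q.1.1 * y ^ q.1.2 * g q.2) := by
  let x' : IntermediateField.adjoin K {x, y} :=
    ⟨x, IntermediateField.subset_adjoin _ _ (Set.mem_insert _ _)⟩
  let y' : IntermediateField.adjoin K {x, y} :=
    ⟨y, IntermediateField.subset_adjoin _ _ (Set.mem_insert_of_mem _ (Set.mem_singleton _))⟩
  have h1 : LinearIndependent K (fun q : ℕ × ℕ => x' ^ q.1 * y' ^ q.2) :=
    LinearIndependent.of_comp (IntermediateField.adjoin K {x, y}).val.toLinearMap (ind1 h)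
  exact linearIndependent_smul h1 hg

end indep

section forms
variable {N : ℕ} {K F : Type} [Field K] [Field F] [Algebra K F]
  {Q : Ideal (MvPolynomial (Fin (N + 1)) K)} {z : Fin 3 → MvPolynomial (Fin (N + 1)) K}
  {ξ : Fin (N + 1) → F}

/-- values of the forms of degree `n` -/
def EE (K : Type) [Field K] [Algebra K F] (ξ : Fin (N + 1) → F) (n : ℕ) : Submodule K F :=
  (homogeneousSubmodule (Fin (N + 1)) K n).map (aeval ξ).toLinearMap

lemma EE_mem {G : MvPolynomial (Fin (N + 1)) K} {n : ℕ} (h : G.IsHomogeneous n) :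
    aeval ξ G ∈ EE K ξ n := ⟨G, h, rfl⟩

lemma hilb_eq (hD : Deh Q z F ξ) (n : ℕ) : hilb Q n = Module.finrank K (EE K ξ n) := by
  unfold hilb EE
  rw [← LinearMap.range_domRestrict, ← LinearMap.range_domRestrict]
  set f1 := ((Ideal.Quotient.mkₐ K Q).toLinearMap).domRestrict
    (homogeneousSubmodule (Fin (N + 1)) K n) with hf1
  set f2 := ((aeval ξ : MvPolynomial (Fin (N + 1)) K →ₐ[K] F).toLinearMap).domRestrict
    (homogeneousSubmodule (Fin (N + 1)) K n) with hf2
  have hk : LinearMap.ker f1 = LinearMap.ker f2 := by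
    ext ⟨G, hG⟩
    rw [LinearMap.mem_ker, LinearMap.mem_ker]
    change Ideal.Quotient.mk Q G = 0 ↔ aeval ξ G = 0
    rw [Ideal.Quotient.eq_zero_iff_mem]
    exact hD.mem G n hG
  rw [← (f1.quotKerEquivRange).finrank_eq, ← (f2.quotKerEquivRange).finrank_eq, hk]

/-- the degree may be raised -/
lemma EE_mono (hD : Deh Q z F ξ) (hz : ∀ i, (z i).IsHomogeneous 1) {n m : ℕ} (h : n ≤ m) :
    EE K ξ n ≤ EE K ξ m := by
  rintro v ⟨G, hG, rfl⟩
  refine ⟨G * z 0 ^ (m - n), ?_, ?_⟩
  · have h1 := (IsHomogeneous.mul hG ((hz 0).pow (m - n)))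
    rw [one_mul, Nat.add_sub_cancel' h] at h1
    exact h1
  · change aeval ξ (G * z 0 ^ (m - n)) = aeval ξ G
    rw [map_mul, map_pow, hD.z0, one_pow, mul_one]

/-- products with polynomials in `x, y` -/
lemma EE_mul (hD : Deh Q z F ξ) (hz : ∀ i, (z i).IsHomogeneous 1) {n m a b : ℕ}
    (h : n + (a + b) ≤ m) {v : F} (hv : v ∈ EE K ξ n) :
    (aeval ξ (z 1) : F) ^ a * (aeval ξ (z 2) : F) ^ b * v ∈ EE K ξ m := by
  refine EE_mono hD hz h ?_
  obtain ⟨G, hG, rfl⟩ := hv
  refine ⟨z 1 ^ a * z 2 ^ b * G, ?_, ?_⟩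
  · have h1 := IsHomogeneous.mul (IsHomogeneous.mul ((hz 1).pow a) ((hz 2).pow b)) hG
    rw [one_mul, one_mul, add_comm (a + b) n] at h1
    exact h1
  · change aeval ξ (z 1 ^ a * z 2 ^ b * G) = _
    rw [map_mul, map_mul, map_pow, map_pow]
    rfl

/-- a basis consisting of forms -/
lemma basis (hD : Deh Q z F ξ) (x y : F) (hS : SRF.IsSurf K x y) :
    ∃ g : Fin (DIS.deg K x y) → F,
      LinearIndependent (IntermediateField.adjoin K {x, y}) g ∧
      Submodule.span (IntermediateField.adjoin K {x, y})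
        (Set.range g) = ⊤ ∧ ∀ i, ∃ m, g i ∈ EE K ξ m := by
  set k' := IntermediateField.adjoin K {x, y} with hk'
  have hfin : FiniteDimensional k' F := hS.fin
  -- the monoid of values of forms
  let s : Submonoid F :=
    { carrier := {v | ∃ m, v ∈ EE K ξ m}
      one_mem' := ⟨0, by
        have := EE_mem (ξ := ξ) (isHomogeneous_one (Fin (N + 1)) K)
        rwa [map_one] at this⟩
      mul_mem' := by
        rintro a b ⟨m, G, hG, rfl⟩ ⟨n, H, hH, rfl⟩
        refine ⟨m + n, G * H, IsHomogeneous.mul hG hH, ?_⟩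
        exact map_mul (aeval ξ) G H }
  have h1 : Submodule.span k' (s : Set F) = ⊤ := by
    have h0 := Algebra.adjoin_eq_span k' (s : Set F)
    rw [Submonoid.closure_eq] at h0
    rw [← h0]
    have h2 := IntermediateField.adjoin_toSubalgebra_of_isAlgebraic (F := k') (S := (s : Set F))
      (fun v _ => Algebra.IsAlgebraic.isAlgebraic v)
    rw [← h2]
    have h3 : IntermediateField.adjoin k' (s : Set F) = ⊤ := by
      rw [eq_top_iff]
      intro v _
      have h4 : v ∈ IntermediateField.adjoin K (Set.range ξ) := by rw [hD.gen]; trivial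
      have h5 : IntermediateField.adjoin K (Set.range ξ) ≤
          (IntermediateField.adjoin k' (s : Set F)).restrictScalars K := by
        rw [IntermediateField.adjoin_le_iff]
        rintro _ ⟨i, rfl⟩
        refine IntermediateField.subset_adjoin k' _ ?_
        refine ⟨1, X i, isHomogeneous_X K i, ?_⟩
        exact aeval_X ξ i
      exact h5 h4
    rw [h3]
    rfl
  obtain ⟨f, hf, hspan, hli⟩ := Submodule.exists_fun_fin_finrank_span_eq k' (s : Set F)
  have hdeg : DIS.deg K x y = Module.finrank k' (Submodule.span k' (s : Set F)) := by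
    rw [h1, finrank_top]
    rfl
  refine ⟨fun i => f (Fin.cast hdeg i), ?_, ?_, fun i => hf _⟩
  · exact hli.comp _ (Fin.cast_injective hdeg)
  · have h6 : Set.range (fun i => f (Fin.cast hdeg i)) = Set.range f := by
      ext v
      constructor
      · rintro ⟨i, rfl⟩; exact ⟨_, rfl⟩
      · rintro ⟨i, rfl⟩; exact ⟨Fin.cast hdeg.symm i, rfl⟩
    rw [h6, hspan, h1]

/-- everything is integral over the image of `kmap` -/
lemma kfin (hint : ∀ i, (kmap Q z).IsIntegralElem (Ideal.Quotient.mk Q (X i))) :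
    (kmap Q z).Finite := by
  have h1 : (kmap Q z).IsIntegral := by
    intro b
    obtain ⟨P, rfl⟩ := Ideal.Quotient.mk_surjective b
    induction P using MvPolynomial.induction_on with
    | C a =>
      have e : Ideal.Quotient.mk Q (C a) = kmap Q z (C a) := by simp [kmap]
      rw [e]
      exact (kmap Q z).isIntegralElem_map
    | add p q hp hq => rw [map_add]; exact hp.add (kmap Q z) hq
    | mul_X p i hp => rw [map_mul]; exact hp.mul (kmap Q z) (hint i)
  refine h1.to_finite (RingHom.FiniteType.of_comp_finiteType (f := C) ?_)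
  have h2 : (kmap Q z).comp C = algebraMap K (MvPolynomial (Fin (N + 1)) K ⧸ Q) := by
    ext c
    simp [kmap]
    rfl
  rw [h2, RingHom.finiteType_algebraMap]
  exact Algebra.FiniteType.of_surjective (Ideal.Quotient.mkₐ K Q)
    (Ideal.Quotient.mkₐ_surjective K Q)

/-- generators -/
lemma gens0 {A B : Type} [CommRing A] [CommRing B] (f : A →+* B) (hf : f.Finite) :
    ∃ (r : ℕ) (b : Fin r → B), ∀ v : B, ∃ c : Fin r → A, v = ∑ l, f (c l) * b l := by
  let : Algebra A B := f.toAlgebra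
  have hf' : Module.Finite A B := hf
  obtain ⟨r, b, hb⟩ := hf'.exists_fin
  refine ⟨r, b, fun v => ?_⟩
  have hG : v ∈ Submodule.span A (Set.range b) := by
    rw [hb]; trivial
  obtain ⟨c, hc⟩ := (Submodule.mem_span_range_iff_exists_fun _).1 hG
  exact ⟨c, hc.symm⟩

/-- generators -/
lemma gens (hint : ∀ i, (kmap Q z).IsIntegralElem (Ideal.Quotient.mk Q (X i))) :
    ∃ (r : ℕ) (p : Fin r → MvPolynomial (Fin (N + 1)) K), ∀ G : MvPolynomial (Fin (N + 1)) K,
      ∃ c : Fin r → MvPolynomial (Fin 3) K, G - ∑ l, aeval z (c l) * p l ∈ Q := by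
  obtain ⟨r, b, hb⟩ := gens0 _ (kfin hint)
  have hp : ∀ l, ∃ p, Ideal.Quotient.mk Q p = b l := fun l => Ideal.Quotient.mk_surjective (b l)
  choose p hp using hp
  refine ⟨r, p, fun G => ?_⟩
  obtain ⟨c, hc⟩ := hb (Ideal.Quotient.mk Q G)
  refine ⟨c, ?_⟩
  rw [← Ideal.Quotient.eq_zero_iff_mem, map_sub, map_sum, sub_eq_zero, hc]
  refine Finset.sum_congr rfl fun l _ => ?_
  rw [map_mul, hp]
  rfl

/-- the component of degree `n` of a product -/
lemma comp_mem (hD : Deh Q z F ξ) (hz : ∀ i, (z i).IsHomogeneous 1) {ι : Type} (w : ι → F)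
    (p : MvPolynomial (Fin (N + 1)) K)
    (hw : ∀ i, aeval ξ (homogeneousComponent i p) ∈
      MM K (aeval ξ (z 1) : F) (aeval ξ (z 2)) w 0) (c : MvPolynomial (Fin 3) K) (n : ℕ) :
    aeval ξ (homogeneousComponent n (aeval z c * p)) ∈
      MM K (aeval ξ (z 1) : F) (aeval ξ (z 2)) w n := by
  induction c using MvPolynomial.induction_on' with
  | add c d hc hd =>
    rw [map_add, add_mul, map_add, map_add]
    exact add_mem hc hd
  | monomial α r =>
    have e1 : aeval z (monomial α r) * p =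
        C r * (∑ i ∈ Finset.range (p.totalDegree + 1),
          (z 0 ^ α 0 * z 1 ^ α 1 * z 2 ^ α 2) * homogeneousComponent i p) := by
      rw [← Finset.mul_sum, sum_homogeneousComponent, aeval_monomial, Finsupp.prod_fintype _ _
        (by simp), Fin.prod_univ_three, MvPolynomial.algebraMap_eq]
      ring
    rw [e1, homogeneousComponent_C_mul, map_mul, map_sum, map_sum, aeval_C, ← Algebra.smul_def]
    refine Submodule.smul_mem _ _ (sum_mem fun i _ => ?_)
    have h2 : (z 0 ^ α 0 * z 1 ^ α 1 * z 2 ^ α 2 * homogeneousComponent i p).IsHomogeneous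
        (α 0 + α 1 + α 2 + i) := by
      have := IsHomogeneous.mul (IsHomogeneous.mul (IsHomogeneous.mul ((hz 0).pow (α 0))
        ((hz 1).pow (α 1))) ((hz 2).pow (α 2))) (homogeneousComponent_isHomogeneous i p)
      simpa only [one_mul] using this
    rw [homogeneousComponent_of_mem h2]
    split_ifs with h3
    · rw [map_mul, map_mul, map_mul, map_pow, map_pow, map_pow, hD.z0, one_pow, one_mul]
      exact MM_mul (by omega) (hw i)
    · rw [map_zero]; exact zero_mem _

/-- the upper bound -/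
lemma upper (hQ : Homog Q) (hD : Deh Q z F ξ) (hz : ∀ i, (z i).IsHomogeneous 1)
    (hint : ∀ i, (kmap Q z).IsIntegralElem (Ideal.Quotient.mk Q (X i))) :
    ∃ s : Finset F, ∀ n, EE K ξ n ≤
      MM K (aeval ξ (z 1) : F) (aeval ξ (z 2)) (fun v : s => (v : F)) n := by
  obtain ⟨r, p, hp⟩ := gens (Q := Q) (z := z) hint
  refine ⟨Finset.univ.biUnion fun l : Fin r =>
    (Finset.range ((p l).totalDegree + 1)).image fun i => aeval ξ (homogeneousComponent i (p l)),
    fun n => ?_⟩
  rintro v ⟨G, hG, rfl⟩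
  obtain ⟨c, hc⟩ := hp G
  have h1 := hQ _ hc n
  have h2 : homogeneousComponent n (G - ∑ l, aeval z (c l) * p l) =
      G - ∑ l, homogeneousComponent n (aeval z (c l) * p l) := by
    rw [map_sub, map_sum, homogeneousComponent_eq_self hG]
  have h3 := (hD.mem _ n (homogeneousComponent_isHomogeneous n _)).1 h1
  rw [h2, map_sub, map_sum, sub_eq_zero] at h3
  change aeval ξ G ∈ _
  rw [h3]
  refine sum_mem fun l _ => comp_mem hD hz _ (p l) ?_ (c l) n
  intro i
  by_cases hi : i ≤ (p l).totalDegree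
  · have hm : aeval ξ (homogeneousComponent i (p l)) ∈ (Finset.univ.biUnion fun l : Fin r =>
      (Finset.range ((p l).totalDegree + 1)).image
        fun i => aeval ξ (homogeneousComponent i (p l)) : Finset F) := by
      rw [Finset.mem_biUnion]
      refine ⟨l, Finset.mem_univ _, ?_⟩
      rw [Finset.mem_image]
      exact ⟨i, Finset.mem_range.2 (by omega), rfl⟩
    have := MM_mem (K := K) (x := (aeval ξ (z 1) : F)) (y := aeval ξ (z 2))
      (w := fun v : (Finset.univ.biUnion fun l : Fin r =>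
        (Finset.range ((p l).totalDegree + 1)).image
          fun i => aeval ξ (homogeneousComponent i (p l)) : Finset F) => (v : F))
      (show 0 + 0 ≤ 0 by omega) ⟨_, hm⟩
    simpa only [pow_zero, one_mul] using this
  · rw [homogeneousComponent_eq_zero _ _ (by omega), map_zero]
    exact zero_mem _

end forms

/-- the estimates -/
lemma arith (H : ℕ → ℕ) (D d e : ℕ) (hU : ∀ n, 2 * H n ≤ (n + e + 1) * (n + e + 2) * D)
    (hL : ∀ n, (n + 1) * (n + 2) * D ≤ 2 * H (n + d)) :
    ∃ B : ℝ, ∀ n : ℕ, |(H n : ℝ) - (D : ℝ) * (n : ℝ) ^ 2 / 2| ≤ B * ((n : ℝ) + 1) := by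
  refine ⟨(D : ℝ) * (2 * e + 3) + D * ((e + 1) * (e + 2)) + D * d, fun n => ?_⟩
  have hU' : 2 * (H n : ℝ) ≤ ((n : ℝ) + e + 1) * (n + e + 2) * D := by exact_mod_cast hU n
  have hn : (0 : ℝ) ≤ n := Nat.cast_nonneg n
  have he' : (0 : ℝ) ≤ e := Nat.cast_nonneg e
  have hd' : (0 : ℝ) ≤ d := Nat.cast_nonneg d
  have hD0 : (0 : ℝ) ≤ D := Nat.cast_nonneg D
  rw [abs_le]
  constructor
  · have hL' : (D : ℝ) * n ^ 2 - 2 * (D * d * n) ≤ 2 * H n := by
      rcases le_or_gt d n with h | h
      · obtain ⟨m', rfl⟩ : ∃ m', n = m' + d := ⟨n - d, by omega⟩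
        have h3 : ((m' : ℝ) + 1) * (m' + 2) * D ≤ 2 * H (m' + d) := by exact_mod_cast hL m'
        have hm' : (0 : ℝ) ≤ m' := Nat.cast_nonneg m'
        push_cast
        nlinarith [mul_nonneg hD0 hm', mul_nonneg hD0 (mul_nonneg hd' hd'),
          mul_nonneg hD0 (mul_nonneg hd' hm')]
      · have h3 : (n : ℝ) ≤ d := by exact_mod_cast h.le
        have h4 : (D : ℝ) * n ^ 2 ≤ D * d * n := by
          nlinarith [mul_nonneg hD0 (mul_nonneg hn (sub_nonneg.2 h3))]
        have h5 : (0 : ℝ) ≤ D * d * n := by positivity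
        have h6 : (0 : ℝ) ≤ H n := Nat.cast_nonneg _
        linarith
    have h7 : (0 : ℝ) ≤ (D : ℝ) * (2 * e + 3) + D * ((e + 1) * (e + 2)) := by positivity
    have h8 : (0 : ℝ) ≤ (D : ℝ) * d := by positivity
    nlinarith [mul_nonneg h7 hn, mul_nonneg h8 hn]
  · have h9 : (0 : ℝ) ≤ (D : ℝ) * d * (n + 1) := by positivity
    have h10 : (0 : ℝ) ≤ (D : ℝ) * ((e + 1) * (e + 2)) * n := by positivity
    have h11 : (0 : ℝ) ≤ (D : ℝ) * (2 * e + 3) * n := by positivity
    have h12 : (0 : ℝ) ≤ (D : ℝ) * (2 * e + 3) := by positivity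
    nlinarith

end TDB_

open TDB_

theorem tdb_proof (_hDzn : Stmt_Dzn) : Stmt_Tdb := by
  intro N K _ Q hQp hQ _ z hz hint F _ _ ξ hD hS
  have hup := upper hQ hD hz hint
  have hmulE : ∀ {n m a b : ℕ}, n + (a + b) ≤ m → ∀ v ∈ EE K ξ n,
    (aeval ξ (z 1) : F) ^ a * (aeval ξ (z 2) : F) ^ b * v ∈ EE K ξ m :=
    fun h v hv => EE_mul hD hz h hv
  generalize (aeval ξ (z 1) : F) = x at hS hup hmulE ⊢
  generalize (aeval ξ (z 2) : F) = y at hS hup hmulE ⊢
  obtain ⟨g, hg, hspan, hgE⟩ := basis hD x y hS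
  choose m hm using hgE
  -- common degree
  obtain ⟨d, hd⟩ : ∃ d : ℕ, ∀ i, m i ≤ d := by
    obtain ⟨d, hd⟩ := (Set.finite_range m).bddAbove
    exact ⟨d, fun i => hd ⟨i, rfl⟩⟩
  have hgd : ∀ i, g i ∈ EE K ξ d := fun i => EE_mono hD hz (hd i) (hm i)
  have hind := ind2 hS.indep hg
  have hfr : ∀ n, Module.finrank K (MM K x y g n) = Fintype.card (T n) * DIS.deg K x y := by
    intro n
    rw [finrank_MM hind, Fintype.card_fin]
  -- upper bound
  obtain ⟨s, hs⟩ := hup
  obtain ⟨f, hf, hf0, hfs⟩ := denoms hspan s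
  obtain ⟨e, he⟩ : ∃ e : ℕ, ∀ v ∈ s, f * v ∈ MM K x y g e := by
    have h1 : ∀ v : s, ∃ e, f * (v : F) ∈ MM K x y g e := fun v => span_mem (hfs v v.2)
    choose e0 he0 using h1
    obtain ⟨e, he⟩ := (Set.finite_range e0).bddAbove
    exact ⟨e, fun v hv => MM_mono (he ⟨⟨v, hv⟩, rfl⟩) (he0 ⟨v, hv⟩)⟩
  have hfE : ∀ n, ∀ v ∈ EE K ξ n, f * v ∈ MM K x y g (n + e) := by
    intro n v hv
    have h1 := hs n hv
    clear hv
    unfold MM at h1
    induction h1 using Submodule.span_induction with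
    | mem v hv' =>
      obtain ⟨a, b, w, hab, rfl⟩ := hv'
      have e1 : f * (x ^ a * y ^ b * (w : F)) = x ^ a * y ^ b * (f * (w : F)) := by ring
      rw [e1]
      exact MM_mul (by omega) (he w w.2)
    | zero => rw [mul_zero]; exact zero_mem _
    | add u v _ _ hu hv => rw [mul_add]; exact add_mem hu hv
    | smul c v _ hv => rw [mul_smul_comm]; exact Submodule.smul_mem _ _ hv
  -- lower bound
  have hlow : ∀ n, MM K x y g n ≤ EE K ξ (n + d) := by
    intro n
    unfold MM
    rw [Submodule.span_le]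
    rintro _ ⟨a, b, i, hab, rfl⟩
    exact hmulE (by omega) _ (hgd i)
  have hfinMM : ∀ n, FiniteDimensional K (MM K x y g n) := by
    intro n
    rw [MM_eq]
    exact FiniteDimensional.span_of_finite K (Set.finite_range _)
  -- multiplication by `f`
  have hup2 : ∀ n, FiniteDimensional K (EE K ξ n) ∧
      Module.finrank K (EE K ξ n) ≤ Module.finrank K (MM K x y g (n + e)) := by
    intro n
    have := hfinMM (n + e)
    let φ : EE K ξ n →ₗ[K] MM K x y g (n + e) :=
      { toFun := fun v => ⟨f * v, hfE n v v.2⟩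
        map_add' := fun u v => Subtype.ext (mul_add _ _ _)
        map_smul' := fun c v => Subtype.ext (mul_smul_comm _ _ _) }
    have hφ : Function.Injective φ := by
      intro u v h
      have h2 : f * (u : F) = f * (v : F) := congrArg Subtype.val h
      exact Subtype.ext (mul_left_cancel₀ hf0 h2)
    exact ⟨FiniteDimensional.of_injective φ hφ, LinearMap.finrank_le_finrank_of_injective hφ⟩
  have hU : ∀ n, 2 * hilb Q n ≤ (n + e + 1) * (n + e + 2) * DIS.deg K x y := by
    intro n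
    rw [hilb_eq hD]
    have h1 := (hup2 n).2
    rw [hfr] at h1
    have h2 := card_T (n + e)
    calc _ ≤ 2 * (Fintype.card (T (n + e)) * DIS.deg K x y) := by omega
      _ = _ := by rw [← mul_assoc, h2]
  have hL : ∀ n, (n + 1) * (n + 2) * DIS.deg K x y ≤ 2 * hilb Q (n + d) := by
    intro n
    rw [hilb_eq hD]
    have := (hup2 (n + d)).1
    have h1 := Submodule.finrank_mono (hlow n)
    rw [hfr] at h1
    have h2 := card_T n
    calc _ = 2 * (Fintype.card (T n) * DIS.deg K x y) := by rw [← mul_assoc, h2]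
      _ ≤ _ := by omega
  exact arith (hilb Q) _ d e hU hL

end Pool.Agent.TFR
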