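import Pool.Agent.TFR.Stmts
import Pool.Agent.FRM.CMA
import Pool.Agent.DC.HomMap
import Pool.Agent.DC.DIMF

set_option autoImplicit false

noncomputable section

namespace Pool.Agent.TFR

open scoped Classical
open MvPolynomial Pool.Agent.LibDb3ab1 Pool.Agent.DC Pool.Agent.FRM

namespace TFM_

/-- an ideal generated by homogeneous elements is homogeneous -/
theorem homog_span {k : Type} [CommRing k] {N : ℕ} (S : Set (MvPolynomial (Fin (N + 1)) k))
    (hS : ∀ G ∈ S, ∃ m, G.IsHomogeneous m) : Homog (Ideal.span S) := by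
  have key : ∀ (a G : MvPolynomial (Fin (N + 1)) k), G ∈ S → ∀ m,
      homogeneousComponent m (a * G) ∈ Ideal.span S := by
    intro a G hG m
    obtain ⟨e, he⟩ := hS G hG
    have h1 : a * G = ∑ i ∈ Finset.range (a.totalDegree + 1), homogeneousComponent i a * G := by
      conv_lhs => rw [← MvPolynomial.sum_homogeneousComponent a]
      rw [Finset.sum_mul]
    rw [h1, map_sum]
    refine Ideal.sum_mem _ fun i _ => ?_
    have h2 : (homogeneousComponent i a * G).IsHomogeneous (i + e) :=
      (homogeneousComponent_isHomogeneous i a).mul he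
    rw [homogeneousComponent_of_mem h2]
    split_ifs
    · exact Ideal.mul_mem_left _ _ (Ideal.subset_span hG)
    · exact Ideal.zero_mem _
  have key2 : ∀ F ∈ Ideal.span S, ∀ a : MvPolynomial (Fin (N + 1)) k, ∀ m,
      homogeneousComponent m (a * F) ∈ Ideal.span S := by
    intro F hF
    induction hF using Submodule.span_induction with
    | mem x hx => exact fun a m => key a x hx m
    | zero => intro a m; rw [mul_zero, map_zero]; exact Ideal.zero_mem _
    | add x y _ _ hx hy =>
      intro a m
      rw [mul_add, map_add]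
      exact Ideal.add_mem _ (hx a m) (hy a m)
    | smul b x _ hx =>
      intro a m
      rw [smul_eq_mul, ← mul_assoc]
      exact hx _ m
  intro F hF m
  have := key2 F hF 1 m
  rwa [one_mul] at this

end TFM_

open TFM_ in
theorem tfm_proof (hLinz : FRM.Stmt_Linz) (hHla : FRM.Stmt_Hla) (hFdv : Stmt_Fdv)
    (hTgc : Stmt_Tgc) (hVin : Stmt_Vin) (hSpd : Stmt_Spd) (hDfp : Stmt_Dfp) : Stmt_Tfm := by
  intro p N d _ J _ E W hdim M₀ hT₀
  obtain ⟨M, T, geom⟩ := hTgc p N d J E W M₀ hT₀
  -- the algebraic closure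
  obtain ⟨O, hO⟩ := CMA_.ext_val (algebraMap M.K (AlgebraicClosure M.K)) M.V
  have hint : (algebraMap M.K (AlgebraicClosure M.K)).IsIntegral := by
    intro x
    exact Algebra.IsIntegral.isIntegral (R := M.K) x
  obtain ⟨⟨ι, hι, bij⟩, arch, -, -⟩ := hFdv M.K (AlgebraicClosure M.K) (algebraMap _ _) M.V O
    M.dvr hO hint M.F M.c M.bij
  -- the linear forms
  have hcF : CharP M.F p := charP_of_injective_algebraMap (algebraMap (ZMod p) M.F).injective p
  have hinf : Infinite M.F := IsAlgClosed.instInfinite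
  set I : Ideal (MvPolynomial (Fin (N + 1)) M.F) :=
    Ideal.span (Set.range fun j => red M.F (E.g j)) ⊔ Ideal.span ((fun i => X i) '' W) with hI
  set α : M.F →+* AlgebraicClosure M.K :=
    (algebraMap M.K (AlgebraicClosure M.K)).comp (M.V.subtype.comp M.c) with hα
  have hIhom : Homog I := by
    rw [hI, ← Ideal.span_union]
    apply homog_span
    rintro G (⟨j, rfl⟩ | ⟨c, _, rfl⟩)
    · exact ⟨E.e j, (E.hom j).map _⟩
    · exact ⟨1, isHomogeneous_X _ _⟩
  have hIdim : ringKrullDim (MvPolynomial (Fin (N + 1)) M.F ⧸ I) ≤ (d + 1 : ℕ) := by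
    rw [hI, hDfp p N J E.g W M.F]
    exact hdim
  have hQhom : Homog (T.Q.map (MvPolynomial.map (algebraMap M.K (AlgebraicClosure M.K)))) :=
    hom_map _ T.Q T.hom
  have hQdim : ringKrullDim (MvPolynomial (Fin (N + 1)) (AlgebraicClosure M.K) ⧸
      T.Q.map (MvPolynomial.map (algebraMap M.K (AlgebraicClosure M.K)))) = (d + 1 : ℕ) := by
    rw [dimf_proof M.K (AlgebraicClosure M.K) (algebraMap _ _) (N + 1) T.Q]
    exact T.dim
  obtain ⟨z, z_hom, param, z_sep⟩ := hLinz M.F (AlgebraicClosure M.K) α N d I hIhom hIdim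
    (T.Q.map (MvPolynomial.map (algebraMap M.K (AlgebraicClosure M.K)))) (geom _ _) hQhom hQdim
  have hcl := M.close
  have hpr := T.prime
  -- integrality
  have z_int : ∀ i, (zmap M.V T.Q fun i => MvPolynomial.map M.c (z i)).IsIntegralElem
      (Ideal.Quotient.mk T.Q (X i)) := by
    set S : Set (MvPolynomial (Fin (N + 1)) M.V) :=
      (Set.range fun j => red M.V (E.g j)) ∪ ((fun i => X i) '' W) with hS
    refine hVin N (d + 1) M.K M.V T.Q T.prime T.hom S (fun i => MvPolynomial.map M.c (z i))
      (fun i => (z_hom i).map _) ?_ ?_ ?_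
    · rintro G (⟨j, rfl⟩ | ⟨c, _, rfl⟩)
      · exact ⟨E.e j, (E.hom j).map _⟩
      · exact ⟨1, isHomogeneous_X _ _⟩
    · rintro G (⟨j, rfl⟩ | ⟨c, hc, rfl⟩)
      · refine ⟨M.t, hcl.t_ne, hcl.t_nonunit, ?_⟩
        have h1 := hHla p N (d + 1) J E M.K M.V M.t M.P M.z hcl j
        obtain ⟨f, hf, hfe⟩ := h1
        refine ⟨f, hf, ?_⟩
        have h2 := congrArg (Ideal.Quotient.factor T.le) hfe
        rw [map_zero, Polynomial.hom_eval₂] at h2
        have h3 : (Ideal.Quotient.factor T.le).comp (vmap M.V M.P) = vmap M.V T.Q := by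
          apply RingHom.ext
          intro x
          simp [vmap]
        rw [h3, Ideal.Quotient.factor_mk] at h2
        have h4 : MvPolynomial.map M.V.subtype (red M.V (E.g j)) = red M.K (E.g j) := by
          rw [red, MvPolynomial.map_map]
          exact congrArg (fun f => MvPolynomial.map f (E.g j)) (RingHom.ext_int _ _)
        simp only
        rw [h4]
        exact h2
      · refine ⟨T.ϖ, T.ϖ_ne, T.ϖ_nonunit, ?_⟩
        have := T.exact c hc
        simpa using this
    · intro i
      obtain ⟨m, hm⟩ := param i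
      refine ⟨m, ?_⟩
      have h1 := Ideal.mem_map_of_mem (MvPolynomial.map M.c) hm
      rw [map_pow, map_X, Ideal.map_sup, hI, Ideal.map_sup, Ideal.map_span, Ideal.map_span,
        Ideal.map_span] at h1
      have h2 : ∀ A B C D : Ideal (MvPolynomial (Fin (N + 1)) M.V), A ≤ C → B ≤ D →
          ∀ x, x ∈ A ⊔ B → x ∈ C ⊔ D := fun A B C D hA hB x hx => sup_le_sup hA hB hx
      refine h2 _ _ _ _ ?_ ?_ _ h1
      · rw [hS, Ideal.span_union]
        refine sup_le_sup (Ideal.span_mono ?_) (Ideal.span_mono ?_)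
        · rintro _ ⟨_, ⟨j, rfl⟩, rfl⟩
          refine ⟨j, ?_⟩
          simp only
          rw [red, red, MvPolynomial.map_map]
          exact congrArg (fun f => MvPolynomial.map f (E.g j)) (RingHom.ext_int _ _)
        · rintro _ ⟨_, ⟨j, hj, rfl⟩, rfl⟩
          exact ⟨j, hj, by simp⟩
      · refine Ideal.span_mono ?_
        rintro _ ⟨_, ⟨j, rfl⟩, rfl⟩
        exact ⟨j, rfl⟩
  -- separability
  have z_sep' : Sepz T.Q fun i => MvPolynomial.map (M.V.subtype.comp M.c) (z i) := by
    refine hSpd N (d + 1) M.K (AlgebraicClosure M.K) (algebraMap _ _) T.Q _ ?_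
    have h1 : (fun i => MvPolynomial.map (algebraMap M.K (AlgebraicClosure M.K))
        (MvPolynomial.map (M.V.subtype.comp M.c) (z i))) = fun i => MvPolynomial.map α (z i) := by
      funext i
      rw [MvPolynomial.map_map]
    rw [h1]
    exact z_sep
  exact ⟨{
    M := M
    T := T
    geom := geom
    Ka := AlgebraicClosure M.K
    O := O
    comap := hO
    arch := arch
    ι := ι
    ι_coe := hι
    bij := bij
    z := z
    z_hom := z_hom
    z_int := z_int
    z_sep := z_sep'
    param := param }⟩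

end Pool.Agent.TFR
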