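import Pool.Agent.TFR.StmtsB
import Pool.Agent.FRM.BCH

/-!
# TFR, module TJB: fractions with poles in the tube over `K` have poles in the tube over `Ka`
-/

set_option autoImplicit false

noncomputable section

namespace Pool.Agent.TFR

open scoped Classical
open MvPolynomial Pool.Agent.LibDb3ab1 Pool.Agent.DC Pool.Agent.FRM
open Pool.Agent.SRF

namespace TJB_

/-- homogeneous components of a product with a homogeneous factor -/
theorem hc_mul {σ R : Type} [CommRing R] (G c : MvPolynomial σ R) (a b : ℕ)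
    (hG : G.IsHomogeneous a) :
    homogeneousComponent (a + b) (G * c) = G * homogeneousComponent b c := by
  conv_lhs => rw [← sum_homogeneousComponent c]
  rw [Finset.mul_sum, map_sum]
  have h1 : ∀ j ∈ Finset.range (c.totalDegree + 1),
      homogeneousComponent (a + b) (G * homogeneousComponent j c) =
        if j = b then G * homogeneousComponent j c else 0 := by
    intro j _
    rw [homogeneousComponent_of_mem (hG.mul (homogeneousComponent_isHomogeneous j c))]
    by_cases hj : j = b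
    · subst hj
      simp
    · rw [if_neg hj, if_neg (by omega)]
  rw [Finset.sum_congr rfl h1, Finset.sum_ite_eq']
  split_ifs with h2
  · rfl
  · rw [homogeneousComponent_eq_zero _ _ (by
      rw [Finset.mem_range] at h2
      omega), mul_zero]

/-- scaling of homogeneous polynomials -/
theorem scale {A F : Type} [CommRing A] [Field F] (g : A →+* F) {n m : ℕ} (x : Fin n → F) (c : F)
    (G : MvPolynomial (Fin n) A) (hG : G.IsHomogeneous m) :
    eval₂ g x G / c ^ m = eval₂ g (fun i => x i / c) G := by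
  rw [eval₂_eq', eval₂_eq', Finset.sum_div]
  refine Finset.sum_congr rfl fun d hd => ?_
  have h2 : ∑ i, d i = m := by
    have h3 := hG (mem_support_iff.1 hd)
    rw [← h3, Finsupp.weight_apply, Finsupp.sum_fintype _ _ (fun i => by rw [zero_smul])]
    exact Finset.sum_congr rfl fun i _ => by simp
  have h1 : ∏ i, (x i / c) ^ d i = (∏ i, x i ^ d i) / c ^ m := by
    rw [← h2, ← Finset.prod_pow_eq_pow_sum, ← Finset.prod_div_distrib]
    exact Finset.prod_congr rfl fun i _ => by rw [div_pow]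
  rw [h1, mul_div_assoc]

/-- a valuation ring is integrally closed -/
theorem mem_of_eq {F : Type} [Field F] (O : ValuationSubring F) (n : ℕ) (c : ℕ → F)
    (hc : ∀ i < n, c i ∈ O) (u : F) (h : u ^ n + ∑ i ∈ Finset.range n, c i * u ^ i = 0) :
    u ∈ O := by
  rcases Nat.eq_zero_or_pos n with rfl | hn
  · simp at h
  · by_contra hu
    have hu0 : u ≠ 0 := by
      rintro rfl
      exact hu O.zero_mem
    have hinv : u⁻¹ ∈ O := (O.mem_or_inv_mem u).resolve_left hu
    have h1 : u = - ∑ i ∈ Finset.range n, c i * (u⁻¹) ^ (n - 1 - i) := by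
      have h2 : u = u ^ n * (u⁻¹) ^ (n - 1) := by
        obtain ⟨l, rfl⟩ := Nat.exists_eq_add_of_lt hn
        have h3 : 0 + l + 1 - 1 = l := by omega
        rw [h3, inv_pow, zero_add, pow_succ']
        field_simp
      have h4 : u ^ n = - ∑ i ∈ Finset.range n, c i * u ^ i := eq_neg_of_add_eq_zero_left h
      rw [h4] at h2
      rw [neg_mul, Finset.sum_mul] at h2
      conv_lhs => rw [h2]
      congr 1
      refine Finset.sum_congr rfl fun i hi => ?_
      have hi' := Finset.mem_range.1 hi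
      have h5 : n - 1 = i + (n - 1 - i) := by omega
      conv_lhs => rw [h5, pow_add]
      rw [mul_assoc, ← mul_assoc (u ^ i), ← mul_pow, mul_inv_cancel₀ hu0, one_pow, one_mul]
    apply hu
    rw [h1]
    refine O.neg_mem _ (sum_mem fun i hi => ?_)
    exact O.mul_mem _ _ (hc i (Finset.mem_range.1 hi)) (pow_mem hinv _)

/-- an equation whose value is in the valuation ring -/
theorem mem_of_eq' {F : Type} [Field F] (O : ValuationSubring F) (n : ℕ) (hn : 0 < n) (c : ℕ → F)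
    (hc : ∀ i, c i ∈ O) (u δ : F) (hδ : δ ∈ O)
    (h : u ^ n + ∑ i ∈ Finset.Icc 1 n, c i * u ^ (n - i) = δ) : u ∈ O := by
  refine mem_of_eq O n (fun i => if i = 0 then c n - δ else c (n - i)) ?_ u ?_
  · intro i _
    split_ifs
    · exact sub_mem (hc _) hδ
    · exact hc _
  · have h1 : ∑ i ∈ Finset.Icc 1 n, c i * u ^ (n - i) =
        ∑ i ∈ Finset.range n, c (n - i) * u ^ i := by
      refine Finset.sum_nbij' (fun i => n - i) (fun i => n - i) ?_ ?_ ?_ ?_ ?_
      · intro i hi; rw [Finset.mem_Icc] at hi; rw [Finset.mem_range]; omega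
      · intro i hi; rw [Finset.mem_range] at hi; rw [Finset.mem_Icc]; omega
      · intro i hi; rw [Finset.mem_Icc] at hi; omega
      · intro i hi; rw [Finset.mem_range] at hi; omega
      · intro i hi; rw [Finset.mem_Icc] at hi
        rw [Nat.sub_sub_self hi.2]
    obtain ⟨m, rfl⟩ := Nat.exists_eq_succ_of_ne_zero hn.ne'
    rw [h1, Finset.sum_range_succ'] at h
    rw [Finset.sum_range_succ']
    simp only [Nat.sub_zero, pow_zero, mul_one, Nat.add_eq_zero_iff, one_ne_zero, and_false,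
      if_false, if_true] at h ⊢
    linear_combination h

theorem aux {L : Type} [Field L] (a b c : L) (i n : ℕ) (hi : i ≤ n) (hb : b ≠ 0) :
    a ^ i * b ^ (n - i) * c = b ^ n * (c * (a / b) ^ i) := by
  have h3 : b ^ n = b ^ (n - i) * b ^ i := by
    rw [← pow_add, Nat.sub_add_cancel hi]
  have h4 : b ^ i ≠ 0 := pow_ne_zero _ hb
  rw [h3, div_pow]
  field_simp

theorem eval₂_mem {A F : Type} [CommRing A] [Field F] (g : A →+* F) {n : ℕ}
    (O : ValuationSubring F) (hK : ∀ c : A, g c ∈ O) (x : Fin n → F) (hx : ∀ j, x j ∈ O)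
    (G : MvPolynomial (Fin n) A) : eval₂ g x G ∈ O := by
  rw [eval₂_eq']
  exact sum_mem fun d _ => O.mul_mem _ _ (hK _) (prod_mem fun j _ => pow_mem (hx j) _)

theorem H_ge {K F : Type} [Field K] [Field F] [Algebra K F] {x y : F} (e : PP K x y)
    (i : Fin 3) : - ord e.1 (SRF.z x y i) ≤ H K x y e := by
  unfold H
  fin_cases i
  · change - ord e.1 (1 : F) ≤ _
    rw [e.isOrd.one, neg_zero]
    exact le_max_left _ _
  · exact le_max_of_le_right (le_max_left _ _)
  · exact le_max_of_le_right (le_max_right _ _)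

/-- integral fractions are bounded -/
theorem int_mem {N : ℕ} {K F : Type} [Field K] [Field F]
    (Q : Ideal (MvPolynomial (Fin (N + 1)) K)) [Q.IsPrime] (hhom : Homog Q) (g : K →+* F)
    (ξ : Fin (N + 1) → F)
    (hmem : ∀ (G : MvPolynomial (Fin (N + 1)) K) (m : ℕ), G.IsHomogeneous m → G ∈ Q →
      eval₂ g ξ G = 0)
    (O : ValuationSubring F) (ζ : F) (hζ0 : ζ ≠ 0) (hO : ∀ c, g c ∈ O)
    (hξ : ∀ j, ξ j / ζ ∈ O) (m k : ℕ) (G₁ G₂ : MvPolynomial (Fin (N + 1)) K)
    (hG₁ : G₁.IsHomogeneous (k + m)) (hG₂ : G₂.IsHomogeneous k) (hG₂Q : G₂ ∉ Q)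
    (hγ₂ : eval₂ g ξ G₂ ≠ 0)
    (hh : IsIntegral (MvPolynomial (Fin (N + 1)) K ⧸ Q)
          (algebraMap (MvPolynomial (Fin (N + 1)) K ⧸ Q)
            (FractionRing (MvPolynomial (Fin (N + 1)) K ⧸ Q)) (Ideal.Quotient.mk Q G₁) /
          algebraMap (MvPolynomial (Fin (N + 1)) K ⧸ Q)
            (FractionRing (MvPolynomial (Fin (N + 1)) K ⧸ Q)) (Ideal.Quotient.mk Q G₂))) :
    (eval₂ g ξ G₁ / eval₂ g ξ G₂) / ζ ^ m ∈ O := by
  set B := MvPolynomial (Fin (N + 1)) K ⧸ Q with hB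
  obtain ⟨p, hp, hroot⟩ := hh
  set n := p.natDegree with hn
  set fr : B →+* FractionRing B := algebraMap B (FractionRing B) with hfr
  have hfrinj : Function.Injective fr := IsFractionRing.injective B (FractionRing B)
  have hg₂ : fr (Ideal.Quotient.mk Q G₂) ≠ 0 := by
    intro h0
    apply hG₂Q
    rw [← Ideal.Quotient.eq_zero_iff_mem]
    apply hfrinj
    rw [h0, map_zero]
  have hlift : ∀ i : ℕ, ∃ c : MvPolynomial (Fin (N + 1)) K,
      Ideal.Quotient.mk Q c = p.coeff i ∧ (i = n → c = 1) := by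
    intro i
    by_cases hi : i = n
    · refine ⟨1, ?_, fun _ => rfl⟩
      rw [hi, map_one]
      exact hp.coeff_natDegree.symm
    · obtain ⟨c, hc⟩ := Ideal.Quotient.mk_surjective (p.coeff i)
      exact ⟨c, hc, fun h => absurd h hi⟩
  choose c hc hc1 using hlift
  have hS : ∑ i ∈ Finset.range (n + 1), (G₁ ^ i * G₂ ^ (n - i)) * c i ∈ Q := by
    rw [← Ideal.Quotient.eq_zero_iff_mem]
    apply hfrinj
    rw [map_zero, map_sum, map_sum]
    rw [Polynomial.eval₂_eq_sum_range] at hroot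
    have h2 : (fr (Ideal.Quotient.mk Q G₂)) ^ n *
        ∑ i ∈ Finset.range (n + 1), fr (p.coeff i) *
          (fr (Ideal.Quotient.mk Q G₁) / fr (Ideal.Quotient.mk Q G₂)) ^ i = 0 := by
      rw [hroot, mul_zero]
    rw [← h2, Finset.mul_sum]
    refine Finset.sum_congr rfl fun i hi => ?_
    have hi' : i ≤ n := Nat.lt_succ_iff.1 (Finset.mem_range.1 hi)
    have hexp : fr (Ideal.Quotient.mk Q (G₁ ^ i * G₂ ^ (n - i) * c i)) =
        (fr (Ideal.Quotient.mk Q G₁)) ^ i * (fr (Ideal.Quotient.mk Q G₂)) ^ (n - i) *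
          fr (p.coeff i) := by
      rw [← hc i]
      simp only [map_mul, map_pow]
    rw [hexp]
    exact aux _ _ _ i n hi' hg₂
  have hcomp : ∑ i ∈ Finset.range (n + 1), (G₁ ^ i * G₂ ^ (n - i)) *
      homogeneousComponent ((n - i) * m) (c i) ∈ Q := by
    have h1 := hhom _ hS (n * (k + m))
    rw [map_sum] at h1
    have h2 : ∀ i ∈ Finset.range (n + 1),
        homogeneousComponent (n * (k + m)) ((G₁ ^ i * G₂ ^ (n - i)) * c i) =
          (G₁ ^ i * G₂ ^ (n - i)) * homogeneousComponent ((n - i) * m) (c i) := by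
      intro i hi
      have hi' : i ≤ n := Nat.lt_succ_iff.1 (Finset.mem_range.1 hi)
      have h3 : (G₁ ^ i * G₂ ^ (n - i)).IsHomogeneous ((k + m) * i + k * (n - i)) :=
        (hG₁.pow i).mul (hG₂.pow (n - i))
      have h4 : n * (k + m) = ((k + m) * i + k * (n - i)) + (n - i) * m := by
        obtain ⟨l, hl⟩ := Nat.exists_eq_add_of_le hi'
        rw [hl, Nat.add_sub_cancel_left]
        ring
      rw [h4]
      exact hc_mul _ _ _ _ h3
    rw [Finset.sum_congr rfl h2] at h1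
    exact h1
  have hcompH : (∑ i ∈ Finset.range (n + 1), (G₁ ^ i * G₂ ^ (n - i)) *
      homogeneousComponent ((n - i) * m) (c i)).IsHomogeneous (n * (k + m)) := by
    refine IsHomogeneous.sum _ _ _ fun i hi => ?_
    have hi' : i ≤ n := Nat.lt_succ_iff.1 (Finset.mem_range.1 hi)
    have h3 : ((G₁ ^ i * G₂ ^ (n - i)) * homogeneousComponent ((n - i) * m) (c i)).IsHomogeneous
        (((k + m) * i + k * (n - i)) + (n - i) * m) :=
      ((hG₁.pow i).mul (hG₂.pow (n - i))).mul (homogeneousComponent_isHomogeneous _ _)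
    have h4 : n * (k + m) = ((k + m) * i + k * (n - i)) + (n - i) * m := by
      obtain ⟨l, hl⟩ := Nat.exists_eq_add_of_le hi'
      rw [hl, Nat.add_sub_cancel_left]
      ring
    rw [h4]
    exact h3
  have hval := hmem _ _ hcompH hcomp
  rw [eval₂_sum] at hval
  have hcoef : ∀ i < n, (eval₂ g ξ (homogeneousComponent ((n - i) * m) (c i)) : F) /
      ζ ^ ((n - i) * m) ∈ O := by
    intro i _
    rw [scale g ξ ζ _ (homogeneousComponent_isHomogeneous _ _)]
    exact eval₂_mem g O hO _ hξ _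
  refine mem_of_eq O n (fun i => (eval₂ g ξ (homogeneousComponent ((n - i) * m) (c i)) : F) /
    ζ ^ ((n - i) * m)) hcoef _ ?_
  rw [Finset.sum_range_succ] at hval
  have hlast : (eval₂ g ξ ((G₁ ^ n * G₂ ^ (n - n)) *
      homogeneousComponent ((n - n) * m) (c n)) : F) = (eval₂ g ξ G₁) ^ n := by
    rw [hc1 n rfl, Nat.sub_self, zero_mul, pow_zero, mul_one, homogeneousComponent_zero,
      coeff_zero_one, map_one, mul_one, eval₂_pow]
  rw [hlast] at hval
  have hfac : ((eval₂ g ξ G₂ : F) ^ n * ζ ^ (m * n)) *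
      (((eval₂ g ξ G₁ / eval₂ g ξ G₂ : F) / ζ ^ m) ^ n + ∑ i ∈ Finset.range n,
        (eval₂ g ξ (homogeneousComponent ((n - i) * m) (c i)) : F) / ζ ^ ((n - i) * m) *
          ((eval₂ g ξ G₁ / eval₂ g ξ G₂ : F) / ζ ^ m) ^ i) = 0 := by
    rw [← hval, mul_add, Finset.mul_sum, add_comm]
    congr 1
    · refine Finset.sum_congr rfl fun i hi => ?_
      have hi' : i ≤ n := (Finset.mem_range.1 hi).le
      rw [eval₂_mul, eval₂_mul, eval₂_pow, eval₂_pow]
      have h3 : (eval₂ g ξ G₂ : F) ^ n = (eval₂ g ξ G₂) ^ (n - i) * (eval₂ g ξ G₂) ^ i := by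
        rw [← pow_add, Nat.sub_add_cancel hi']
      have h4 : ζ ^ (m * n) = ζ ^ ((n - i) * m) * (ζ ^ m) ^ i := by
        rw [← pow_mul, ← pow_add]
        congr 1
        obtain ⟨l, hl⟩ := Nat.exists_eq_add_of_le hi'
        rw [hl, Nat.add_sub_cancel_left]
        ring
      rw [h3, h4, div_pow, div_pow]
      have h5 : (ζ ^ m) ^ i ≠ 0 := pow_ne_zero _ (pow_ne_zero _ hζ0)
      have h6 : ζ ^ ((n - i) * m) ≠ 0 := pow_ne_zero _ hζ0
      have h7 : (eval₂ g ξ G₂ : F) ^ i ≠ 0 := pow_ne_zero _ hγ₂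
      field_simp
    · rw [pow_mul ζ m n, div_pow, div_pow]
      have h5 : (ζ ^ m) ^ n ≠ 0 := pow_ne_zero _ (pow_ne_zero _ hζ0)
      have h7 : (eval₂ g ξ G₂ : F) ^ n ≠ 0 := pow_ne_zero _ hγ₂
      field_simp
  exact (mul_eq_zero.1 hfac).resolve_left
    (mul_ne_zero (pow_ne_zero _ hγ₂) (pow_ne_zero _ hζ0))

theorem exists_max {F : Type} [Field F] (W : ValuationSubring F) {n : ℕ} (ζ : Fin n → F)
    (i₀ : Fin n) (h0 : ζ i₀ ≠ 0) : ∃ i, ζ i ≠ 0 ∧ ∀ j, ζ j / ζ i ∈ W := by
  have : Nonempty (Fin n) := ⟨i₀⟩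
  obtain ⟨i, hi⟩ := Finite.exists_max (fun i => W.valuation (ζ i))
  have h1 : ζ i ≠ 0 := by
    intro h
    have h2 := hi i₀
    simp only [h, map_zero] at h2
    exact h0 ((Valuation.zero_iff _).1 (le_antisymm h2 zero_le'))
  refine ⟨i, h1, fun j => ?_⟩
  rw [← W.valuation_le_one_iff, map_div₀]
  exact div_le_one_of_le₀ (hi j) zero_le'

/-- elements whose inverse is not in the valuation ring are nonunits -/
theorem nonunit_of {F : Type} [Field F] (W : ValuationSubring F) {a : F} (h : a⁻¹ ∉ W) :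
    a ∈ W.nonunits := by
  rw [ValuationSubring.mem_nonunits_iff]
  rw [← W.valuation_le_one_iff, not_le, map_inv₀] at h
  have h0 : W.valuation a ≠ 0 := by
    intro h0
    rw [h0, inv_zero] at h
    exact absurd h (not_lt.2 zero_le')
  exact (one_lt_inv₀ (zero_lt_iff.2 h0)).1 h

theorem nonunit_mul {F : Type} [Field F] (W : ValuationSubring F) {a b : F}
    (ha : a ∈ W.nonunits) (hb : b ∈ W) : a * b ∈ W.nonunits := by
  rw [ValuationSubring.mem_nonunits_iff] at ha ⊢
  rw [map_mul]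
  exact mul_lt_one_of_lt_of_le ha ((W.valuation_le_one_iff _).2 hb)

/-- nonunits of a prime divisor -/
theorem nonunit_ord {K F : Type} [Field K] [Field F] [Algebra K F] {x y : F} (e : PP K x y)
    {f : F} (hf : f = 0 ∨ 0 < ord e.1 f) : f ∈ e.1.nonunits := by
  rcases hf with rfl | h
  · rw [ValuationSubring.mem_nonunits_iff, map_zero]
    exact zero_lt_one
  · have hf : f ≠ 0 := by
      rintro rfl
      rw [e.isOrd.zero] at h
      exact lt_irrefl _ h
    apply nonunit_of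
    rw [e.isOrd.mem _ (inv_ne_zero hf), e.isOrd.inv hf]
    omega

end TJB_

open TJB_ in
theorem tjb_proof (hHie : Stmt_Hie) : Stmt_Tjb := by
  intro p N _ J E Wc S Φ A _ k n G₀ G hG₀ hG₀Q hG hP
  obtain ⟨Jd, hQJ, hT, hJ⟩ := hP
  set g : S.M.K →+* Φ.F := (algebraMap S.Ka Φ.F).comp (algebraMap S.M.K S.Ka) with hg
  have hev : ∀ P : MvPolynomial (Fin (N + 1)) S.M.K,
      (aeval Φ.ξ (MvPolynomial.map (algebraMap S.M.K S.Ka) P) : Φ.F) = eval₂ g Φ.ξ P := by
    intro P
    rw [aeval_def, eval₂_map]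
  rw [hev, hev]
  have hmem : ∀ (P : MvPolynomial (Fin (N + 1)) S.M.K) (m : ℕ), P.IsHomogeneous m → P ∈ S.T.Q →
      eval₂ g Φ.ξ P = 0 := by
    intro P m hP hPQ
    rw [← hev]
    exact (Φ.deh.mem _ m (hP.map _)).1 (Ideal.mem_map_of_mem _ hPQ)
  have hγ : eval₂ g Φ.ξ G₀ ≠ 0 := by
    intro h0
    rw [← hev] at h0
    have h1 := (Φ.deh.mem _ k (hG₀.map _)).2 h0
    apply hG₀Q
    rw [← BCH_.comap_map (algebraMap S.M.K S.Ka) S.T.Q]
    exact h1
  set q : Φ.F := eval₂ g Φ.ξ G / eval₂ g Φ.ξ G₀ with hq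
  by_cases hq0 : q = 0
  · exact Or.inl hq0
  right
  intro e hne
  by_contra hlt
  push Not at hlt
  apply hne
  intro w hw c hc
  -- the maximal linear form
  have hz0 : Φ.ζ 0 = 1 := by
    rw [Φ.ζ_eq]
    exact Φ.deh.z0
  have hz_eq : ∀ i, SRF.z (Φ.ζ 1) (Φ.ζ 2) i = Φ.ζ i := by
    intro i
    fin_cases i
    · exact hz0.symm
    · rfl
    · rfl
  obtain ⟨i, hζ0, hmax⟩ := exists_max w.W Φ.ζ 0 (by rw [hz0]; exact one_ne_zero)
  have hb := Φ.bound w i hζ0 hmax
  set ζ := Φ.ζ i with hζ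
  refine ⟨i, by rw [hz_eq]; exact hζ0, ?_⟩
  rw [hz_eq]
  -- values of `Jd` are small
  have hsmall : ∀ (j : MvPolynomial (Fin (N + 1)) S.M.K) (l : ℕ), j.IsHomogeneous l → j ∈ Jd →
      eval₂ g Φ.ξ j / ζ ^ l ∈ w.W.nonunits := by
    intro j l hj hjJ
    have h1 : eval₂ g Φ.ξ j / ζ ^ l ∈ e.1.nonunits := by
      apply nonunit_ord e
      by_cases hj0 : eval₂ g Φ.ξ j = 0
      · left; rw [hj0, zero_div]
      right
      have h2 := int_mem S.T.Q S.T.hom g Φ.ξ hmem e.1 ζ hζ0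
        (fun c => e.2.const_mem _ _ _ (algebraMap S.M.K S.Ka c)) (fun j => hw (hb j)) (n + l) k
        (j * G) G₀ (by
          have := hj.mul hG
          rw [show l + (k + n) = k + (n + l) by ring] at this
          exact this) hG₀ hG₀Q hγ (hJ j hjJ)
      rw [eval₂_mul, mul_div_assoc] at h2
      change (eval₂ g Φ.ξ j * q) / ζ ^ (n + l) ∈ e.1 at h2
      have hζl : ∀ m, ζ ^ m ≠ 0 := fun m => pow_ne_zero _ hζ0
      rw [e.isOrd.mem _ (div_ne_zero (mul_ne_zero hj0 hq0) (hζl _)), div_eq_mul_inv,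
        e.isOrd.mul _ _ (mul_ne_zero hj0 hq0) (inv_ne_zero (hζl _)), e.isOrd.inv (hζl _),
        e.isOrd.pow hζ0, e.isOrd.mul _ _ hj0 hq0] at h2
      rw [div_eq_mul_inv, e.isOrd.mul _ _ hj0 (inv_ne_zero (hζl _)), e.isOrd.inv (hζl _),
        e.isOrd.pow hζ0]
      have h3 := H_ge e i
      rw [hz_eq] at h3
      have h4 : (n : ℤ) * (- ord e.1 ζ) ≤ n * H S.Ka (Φ.ζ 1) (Φ.ζ 2) e :=
        mul_le_mul_of_nonneg_left h3 (by positivity)
      push_cast at h2
      nlinarith
    exact (ValuationSubring.nonunits_le_nonunits.2 hw) h1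
  -- the coordinate
  obtain ⟨ϖ, hϖ0, hϖn, hint⟩ := hT.small c hc
  have hX : (C ((ϖ : S.M.K)⁻¹) * X c : MvPolynomial (Fin (N + 1)) S.M.K).IsHomogeneous 1 := by
    have := (isHomogeneous_C (Fin (N + 1)) ((ϖ : S.M.K)⁻¹)).mul (isHomogeneous_X S.M.K c)
    rwa [zero_add] at this
  obtain ⟨r, a, hr, ha, hE⟩ := hHie N (N + 1) S.M.V S.M.K S.M.V.subtype Jd hT.hom
    (fun j => (X j : MvPolynomial (Fin (N + 1)) S.M.V)) (fun j => isHomogeneous_X _ _) _ 1 hX (by
      have h2 : amap S.M.V.subtype Jd (fun j => (X j : MvPolynomial (Fin (N + 1)) S.M.V)) =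
          vmap S.M.V Jd := by
        refine MvPolynomial.ringHom_ext ?_ ?_
        · intro c
          simp [amap, vmap]
        · intro j
          simp [amap, vmap]
      rw [h2]
      exact hint)
  have haX : ∀ P : MvPolynomial (Fin (N + 1)) S.M.V,
      (aeval (fun j => (X j : MvPolynomial (Fin (N + 1)) S.M.V)) P) = P := by
    intro P
    rw [aeval_X_left_apply]
  simp only [haX] at hE
  have hhomE : ((C ((ϖ : S.M.K)⁻¹) * X c) ^ r + ∑ i ∈ Finset.Icc 1 r,
      MvPolynomial.map S.M.V.subtype (a i) * (C ((ϖ : S.M.K)⁻¹) * X c) ^ (r - i) :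
        MvPolynomial (Fin (N + 1)) S.M.K).IsHomogeneous r := by
    refine IsHomogeneous.add ?_ (IsHomogeneous.sum _ _ _ fun i hi => ?_)
    · have := hX.pow r
      rwa [one_mul] at this
    · rw [Finset.mem_Icc] at hi
      have h1 := ((ha i).map S.M.V.subtype).mul (hX.pow (r - i))
      have h3 : i * 1 + 1 * (r - i) = r := by omega
      rwa [h3] at h1
  have hδ := hsmall _ r hhomE hE
  have hVw : ∀ v : S.M.V, g (v : S.M.K) ∈ w.W := by
    intro v
    change algebraMap S.Ka Φ.F (algebraMap S.M.K S.Ka v) ∈ w.W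
    rw [w.mem_iff, ← ValuationSubring.mem_comap, S.comap]
    exact v.2
  set u : Φ.F := eval₂ g Φ.ξ (C ((ϖ : S.M.K)⁻¹) * X c) / ζ with hu
  have huW : u ∈ w.W := by
    refine mem_of_eq' w.W r hr (fun i => eval₂ (g.comp S.M.V.subtype) (fun l => Φ.ξ l / ζ) (a i))
      (fun i => eval₂_mem _ w.W hVw _ hb _) u _ (w.W.nonunits_le hδ) ?_
    rw [eval₂_add, eval₂_sum, add_div, Finset.sum_div]
    congr 1
    · rw [eval₂_pow, hu, div_pow]
    · refine Finset.sum_congr rfl fun i hi => ?_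
      rw [Finset.mem_Icc] at hi
      rw [← scale (g.comp S.M.V.subtype) Φ.ξ ζ _ (ha i), eval₂_mul, eval₂_map, eval₂_pow, hu,
        div_pow]
      have h3 : ζ ^ r = ζ ^ (i * 1) * ζ ^ (r - i) := by
        rw [← pow_add]; congr 1; omega
      rw [h3]
      have h4 : ζ ^ (i * 1) ≠ 0 := pow_ne_zero _ hζ0
      have h5 : ζ ^ (r - i) ≠ 0 := pow_ne_zero _ hζ0
      field_simp
  have hϖF : g (ϖ : S.M.K) ∈ w.W.nonunits := by
    apply nonunit_of
    rw [← map_inv₀]
    change algebraMap S.Ka Φ.F (algebraMap S.M.K S.Ka (ϖ : S.M.K)⁻¹) ∉ w.W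
    rw [w.mem_iff, ← ValuationSubring.mem_comap, S.comap]
    intro h
    apply hϖn
    refine IsUnit.of_mul_eq_one (⟨(ϖ : S.M.K)⁻¹, h⟩ : S.M.V) ?_
    apply Subtype.ext
    change (ϖ : S.M.K) * (ϖ : S.M.K)⁻¹ = 1
    exact mul_inv_cancel₀ (fun h1 => hϖ0 (Subtype.ext h1))
  have hfin : Φ.ξ c / ζ = g (ϖ : S.M.K) * u := by
    rw [hu, eval₂_mul, eval₂_C, eval₂_X, map_inv₀]
    have h1 : g (ϖ : S.M.K) ≠ 0 := (map_ne_zero g).2 (fun h1 => hϖ0 (Subtype.ext h1))
    field_simp
  rw [hfin]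
  exact nonunit_mul w.W hϖF huW

end Pool.Agent.TFR
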