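import Pool.Agent.TFR.StmtsB

/-! Module TLI: linear independence over the algebraic closure. -/

set_option autoImplicit false

noncomputable section

namespace Pool.Agent.TFR

open scoped Classical
open MvPolynomial Pool.Agent.LibDb3ab1 Pool.Agent.DC Pool.Agent.FRM

namespace TLI_

/-- The coefficientwise application of a linear functional. -/
theorem coefwise {K L : Type} [Field K] [Field L] [Algebra K L] {σ : Type}
    (P : Ideal (MvPolynomial σ K)) (lam : L →ₗ[K] K) :
    ∃ R : MvPolynomial σ L → MvPolynomial σ K, (∀ F m, coeff m (R F) = lam (coeff m F)) ∧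
      ∀ G ∈ P.map (MvPolynomial.map (algebraMap K L)), R G ∈ P := by
  let R : MvPolynomial σ L → MvPolynomial σ K :=
    fun F => ∑ m ∈ F.support, monomial m (lam (coeff m F))
  have hR : ∀ (F : MvPolynomial σ L) m, coeff m (R F) = lam (coeff m F) := by
    intro F m
    simp only [R, coeff_sum, coeff_monomial, Finset.sum_ite_eq']
    split_ifs with h
    · rfl
    · rw [notMem_support_iff.1 h, map_zero]
  have hRadd : ∀ F G, R (F + G) = R F + R G := by
    intro F G
    ext m
    rw [hR, coeff_add, coeff_add, hR, hR, map_add]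
  have hR0 : R 0 = 0 := by
    ext m
    rw [hR, coeff_zero, coeff_zero, map_zero]
  have hRmul : ∀ (G : MvPolynomial σ L) (F : MvPolynomial σ K),
      R (G * MvPolynomial.map (algebraMap K L) F) = R G * F := by
    intro G F
    ext m
    rw [hR, coeff_mul, coeff_mul, map_sum]
    refine Finset.sum_congr rfl fun x _ => ?_
    rw [hR, coeff_map, mul_comm, ← Algebra.smul_def, lam.map_smul, smul_eq_mul, mul_comm]
  refine ⟨R, hR, fun F hF => ?_⟩
  have key : ∀ G ∈ P.map (MvPolynomial.map (algebraMap K L)), ∀ a, R (a * G) ∈ P := by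
    intro G hG
    induction hG using Submodule.span_induction with
    | mem x hx =>
      obtain ⟨y, hy, rfl⟩ := hx
      intro a
      rw [hRmul]
      exact Ideal.mul_mem_left _ _ hy
    | zero => intro a; rw [mul_zero, hR0]; exact Ideal.zero_mem _
    | add x y _ _ hx hy =>
      intro a
      rw [mul_add, hRadd]
      exact Ideal.add_mem _ (hx a) (hy a)
    | smul b x _ hx =>
      intro a
      rw [smul_eq_mul, ← mul_assoc]
      exact hx _
  have := key _ hF 1
  rwa [one_mul] at this

end TLI_

theorem tli_proof : Stmt_Tli := by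
  intro N K L F _ _ _ _ _ Q z ξ hD m l G hG hlin
  rw [Fintype.linearIndependent_iff]
  intro a ha
  let P : MvPolynomial (Fin (N + 1)) L :=
    ∑ i, C (a i) * MvPolynomial.map (algebraMap K L) (G i)
  have hPh : P.IsHomogeneous l := by
    refine IsHomogeneous.sum _ _ _ fun i _ => ?_
    have h1 := (isHomogeneous_C (Fin (N + 1)) (a i)).mul ((hG i).map (algebraMap K L))
    rwa [zero_add] at h1
  have hPQ : P ∈ Q.map (MvPolynomial.map (algebraMap K L)) := by
    rw [hD.mem P l hPh]
    simp only [P, map_sum, map_mul, aeval_C]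
    rw [← ha]
    refine Finset.sum_congr rfl fun i _ => ?_
    rw [Algebra.smul_def]
  have key : ∀ (lam : L →ₗ[K] K) (i : Fin m), lam (a i) = 0 := by
    intro lam
    obtain ⟨R, hR1, hR2⟩ := TLI_.coefwise Q lam
    have h2 := hR2 P hPQ
    have h3 : R P = ∑ i, C (lam (a i)) * G i := by
      ext d
      rw [hR1]
      simp only [P, coeff_sum, coeff_C_mul, map_sum, coeff_map]
      refine Finset.sum_congr rfl fun i _ => ?_
      rw [mul_comm, ← Algebra.smul_def, lam.map_smul, smul_eq_mul, mul_comm]
    rw [h3] at h2
    apply Fintype.linearIndependent_iff.1 hlin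
    have h4 := Ideal.Quotient.eq_zero_iff_mem.2 h2
    rw [map_sum] at h4
    rw [← h4]
    refine Finset.sum_congr rfl fun i _ => ?_
    rw [← smul_eq_C_mul]
    rfl
  intro i
  exact (Module.forall_dual_apply_eq_zero_iff K (a i)).1 fun lam => key lam i

end Pool.Agent.TFR
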