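import Pool.Agent.TFR.Stmts

set_option autoImplicit false

noncomputable section

namespace Pool.Agent.TFR

open scoped Classical
open MvPolynomial Pool.Agent.LibDb3ab1 Pool.Agent.DC Pool.Agent.FRM

namespace VIN_

/-- elements which are not integral are excluded by a valuation ring -/
theorem exists_val {A L : Type} [CommRing A] [Field L] (g : A →+* L) (x : L)
    (hx : ¬ g.IsIntegralElem x) : ∃ W : ValuationSubring L, (∀ a, g a ∈ W) ∧ x ∉ W := by
  letI : Algebra A g.range := g.rangeRestrict.toAlgebra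
  letI : Algebra A L := g.toAlgebra
  haveI : IsScalarTower A g.range L := IsScalarTower.of_algebraMap_eq (fun a => rfl)
  haveI : Algebra.IsIntegral A g.range := by
    refine ⟨fun y => ?_⟩
    obtain ⟨y, a, rfl⟩ := y
    exact isIntegral_algebraMap (R := A) (A := g.range) (x := a)
  have hx' : x ∉ (integralClosure g.range L).toSubring := by
    intro h
    apply hx
    have h1 : IsIntegral g.range x := h
    exact isIntegral_trans (R := A) x h1
  obtain ⟨W, hW, hxW⟩ := Subring.exists_le_valuationSubring_of_isIntegrallyClosedIn hx'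
  refine ⟨W, fun a => ?_, hxW⟩
  apply hW
  have h2 : IsIntegral g.range ((⟨g a, a, rfl⟩ : g.range) : L) :=
    isIntegral_algebraMap (R := g.range) (A := L) (x := ⟨g a, a, rfl⟩)
  exact h2

section nonunits
variable {L : Type} [Field L] (W : ValuationSubring L)

theorem nu_add {x y : L} (hx : x ∈ W.nonunits) (hy : y ∈ W.nonunits) : x + y ∈ W.nonunits := by
  rw [ValuationSubring.mem_nonunits_iff] at *
  exact W.valuation.map_add_lt hx hy

theorem nu_mul {x y : L} (hx : x ∈ W) (hy : y ∈ W.nonunits) : x * y ∈ W.nonunits := by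
  rw [ValuationSubring.mem_nonunits_iff] at *
  rw [map_mul]
  rw [← ValuationSubring.valuation_le_one_iff] at hx
  exact (mul_le_of_le_one_left' hx).trans_lt hy

theorem nu_mul' {x y : L} (hx : x ∈ W.nonunits) (hy : y ∈ W) : x * y ∈ W.nonunits := by
  rw [mul_comm]; exact nu_mul W hy hx

theorem nu_neg {x : L} (hx : x ∈ W.nonunits) : -x ∈ W.nonunits := by
  rw [ValuationSubring.mem_nonunits_iff] at *
  rwa [Valuation.map_neg]

theorem nu_zero : (0 : L) ∈ W.nonunits := by
  rw [ValuationSubring.mem_nonunits_iff, map_zero]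
  exact zero_lt_one

theorem nu_one : (1 : L) ∉ W.nonunits := by
  rw [ValuationSubring.mem_nonunits_iff, map_one]
  exact lt_irrefl _

theorem nu_mem {x : L} (hx : x ∈ W.nonunits) : x ∈ W := by
  rw [ValuationSubring.mem_nonunits_iff] at hx
  rw [← ValuationSubring.valuation_le_one_iff]
  exact hx.le

theorem nu_inv {x : L} (hx : x ∉ W) : x⁻¹ ∈ W.nonunits := by
  rw [ValuationSubring.mem_nonunits_iff, map_inv₀]
  rw [← ValuationSubring.valuation_le_one_iff, not_le] at hx
  exact inv_lt_one_of_one_lt₀ hx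

end nonunits

/-- a valuation ring `V` of a subfield contained in the valuation ring `W₀`: composition -/
theorem compose {K L : Type} [Field K] [Field L] (j : K →+* L) (V : ValuationSubring K)
    (W₀ : ValuationSubring L) (h : ∀ v : V, j v ∈ W₀) :
    ∃ W : ValuationSubring L, (∀ v : V, j v ∈ W) ∧ (∀ v ∈ V.nonunits, j v ∈ W.nonunits) ∧
      ∀ x ∈ W₀.nonunits, x ∈ W.nonunits := by
  let A : Subring L :=
    { carrier := {x | ∃ v : V, ∃ m ∈ W₀.nonunits, x = j v + m}
      mul_mem' := by
        rintro x y ⟨v, m, hm, rfl⟩ ⟨v', m', hm', rfl⟩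
        refine ⟨v * v', j v * m' + m * (j v' + m'), ?_, ?_⟩
        · apply nu_add
          · exact nu_mul W₀ (h v) hm'
          · exact nu_mul' W₀ hm (add_mem (h v') (nu_mem W₀ hm'))
        · push_cast
          rw [map_mul]; ring
      one_mem' := ⟨1, 0, nu_zero W₀, by simp⟩
      add_mem' := by
        rintro x y ⟨v, m, hm, rfl⟩ ⟨v', m', hm', rfl⟩
        refine ⟨v + v', m + m', nu_add W₀ hm hm', ?_⟩
        push_cast
        rw [map_add]; ring
      zero_mem' := ⟨0, 0, nu_zero W₀, by simp⟩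
      neg_mem' := by
        rintro x ⟨v, m, hm, rfl⟩
        refine ⟨-v, -m, nu_neg W₀ hm, ?_⟩
        push_cast
        rw [map_neg]; ring }
  let I : Ideal A :=
    { carrier := {x | ∃ v ∈ V.nonunits, ∃ m ∈ W₀.nonunits, (x : L) = j v + m}
      add_mem' := by
        rintro x y ⟨v, hv, m, hm, hx⟩ ⟨v', hv', m', hm', hy⟩
        refine ⟨v + v', nu_add V hv hv', m + m', nu_add W₀ hm hm', ?_⟩
        push_cast
        rw [hx, hy, map_add]; ring
      zero_mem' := ⟨0, nu_zero V, 0, nu_zero W₀, by simp⟩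
      smul_mem' := by
        rintro ⟨c, v, m, hm, rfl⟩ x ⟨v', hv', m', hm', hx⟩
        refine ⟨v * v', nu_mul V v.2 hv', j v * m' + m * (j v' + m'), ?_, ?_⟩
        · apply nu_add
          · exact nu_mul W₀ (h v) hm'
          · exact nu_mul' W₀ hm (add_mem (h ⟨v', nu_mem V hv'⟩) (nu_mem W₀ hm'))
        · rw [smul_eq_mul]
          push_cast
          rw [hx, map_mul]; ring }
  have hI : I ≠ ⊤ := by
    intro htop
    have h1 : (1 : A) ∈ I := by rw [htop]; trivial
    obtain ⟨v, hv, m, hm, h2⟩ := h1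
    have h3 : m = j (1 - v) := by
      rw [map_sub, map_one]
      have h4 : (1 : L) = j v + m := h2
      rw [h4]; ring
    have h5 : (1 - v)⁻¹ ∈ V := by
      rw [← ValuationSubring.valuation_le_one_iff, map_inv₀]
      have h6 : V.valuation (1 - v) = 1 := by
        rw [Valuation.map_one_sub_of_lt]
        exact V.mem_nonunits_iff.mp hv
      rw [h6, inv_one]
    have h7 : (1 - v) ≠ 0 := by
      intro h0
      have h8 : v = 1 := by
        have := sub_eq_zero.mp h0
        exact this.symm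
      rw [h8] at hv
      exact nu_one V hv
    have h9 : (1 : L) ∈ W₀.nonunits := by
      have h10 : (1 : L) = j (1 - v) * j ((1 - v)⁻¹) := by
        rw [← map_mul, mul_inv_cancel₀ h7, map_one]
      rw [h10, ← h3]
      exact nu_mul' W₀ hm (h ⟨_, h5⟩)
    exact nu_one W₀ h9
  obtain ⟨W, hW1, hW2⟩ := Ideal.image_subset_nonunits_valuationSubring I hI
  refine ⟨W, fun v => hW1 ⟨v, 0, nu_zero W₀, by simp⟩, fun v hv => ?_, fun x hx => ?_⟩
  · exact hW2 ⟨⟨j v, ⟨v, nu_mem V hv⟩, 0, nu_zero W₀, by simp⟩, ⟨v, hv, 0, nu_zero W₀, by simp⟩, rfl⟩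
  · exact hW2 ⟨⟨x, 0, x, hx, by simp⟩, ⟨0, nu_zero V, x, hx, by simp⟩, rfl⟩

/-- homogeneous polynomials at proportional points -/
theorem scale {σ K L : Type} [CommRing K] [CommRing L] (j : K →+* L) (t : L) (x y : σ → L)
    (hxy : ∀ i, x i = t * y i) (F : MvPolynomial σ K) (m : ℕ) (hF : F.IsHomogeneous m) :
    eval₂ j x F = t ^ m * eval₂ j y F := by
  rw [eval₂_eq, eval₂_eq, Finset.mul_sum]
  apply Finset.sum_congr rfl
  intro d hd
  have h1 : ∏ i ∈ d.support, x i ^ d i = t ^ m * ∏ i ∈ d.support, y i ^ d i := by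
    have h2 : ∀ i ∈ d.support, x i ^ d i = t ^ d i * y i ^ d i := by
      intro i _
      rw [hxy i, mul_pow]
    rw [Finset.prod_congr rfl h2, Finset.prod_mul_distrib, Finset.prod_pow_eq_pow_sum]
    congr 2
    have h3 := hF (mem_support_iff.mp hd)
    rw [← h3]
    simp [Finsupp.weight_apply, Finsupp.sum]
  rw [h1]; ring

/-- elements with a monic equation over a valuation ring -/
theorem mem_of_eq {L : Type} [Field L] (W : ValuationSubring L) (b : L) (n : ℕ)
    (a : ℕ → L) (ha : ∀ i, a i ∈ W)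
    (h : b ^ n + ∑ i ∈ Finset.Icc 1 n, a i * b ^ (n - i) = 0) : b ∈ W := by
  by_contra hb
  rw [← ValuationSubring.valuation_le_one_iff, not_le] at hb
  have h1 : W.valuation (∑ i ∈ Finset.Icc 1 n, a i * b ^ (n - i)) < W.valuation (b ^ n) := by
    apply Valuation.map_sum_lt
    · rw [map_pow]
      exact pow_ne_zero _ (ne_of_gt (lt_trans zero_lt_one hb))
    · intro i hi
      rw [Finset.mem_Icc] at hi
      rw [map_mul, map_pow, map_pow]
      refine lt_of_le_of_lt (mul_le_of_le_one_left' ?_) (pow_lt_pow_right₀ hb (by omega))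
      exact (ValuationSubring.valuation_le_one_iff _ _).mpr (ha i)
  have h2 : b ^ n = -(∑ i ∈ Finset.Icc 1 n, a i * b ^ (n - i)) := eq_neg_of_add_eq_zero_left h
  rw [h2, Valuation.map_neg] at h1
  exact lt_irrefl _ h1

end VIN_

open VIN_ in
theorem vin_proof (hHie : Stmt_Hie) : Stmt_Vin := by
  intro N r K _ V Q hQ hQh S z hz hSh hSi hpow i
  by_contra hni
  haveI : IsDomain (MvPolynomial (Fin (N + 1)) K ⧸ Q) := (Ideal.Quotient.isDomain_iff_prime Q).mpr hQ
  obtain ⟨L, iL, iA, hinj⟩ : ∃ (L : Type) (_ : Field L)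
      (_ : Algebra (MvPolynomial (Fin (N + 1)) K ⧸ Q) L),
      Function.Injective (algebraMap (MvPolynomial (Fin (N + 1)) K ⧸ Q) L) :=
    ⟨FractionRing (MvPolynomial (Fin (N + 1)) K ⧸ Q), inferInstance, inferInstance,
      IsFractionRing.injective _ _⟩
  let q : MvPolynomial (Fin (N + 1)) K →+* L :=
    (algebraMap (MvPolynomial (Fin (N + 1)) K ⧸ Q) L).comp (Ideal.Quotient.mk Q)
  have hq : ∀ F, F ∈ Q → q F = 0 := by
    intro F hF
    change algebraMap (MvPolynomial (Fin (N + 1)) K ⧸ Q) L (Ideal.Quotient.mk Q F) = 0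
    rw [Ideal.Quotient.eq_zero_iff_mem.mpr hF, map_zero]
  let g : MvPolynomial (Fin r) V →+* L :=
    (algebraMap (MvPolynomial (Fin (N + 1)) K ⧸ Q) L).comp (zmap V Q z)
  have hni' : ¬ g.IsIntegralElem (q (X i)) := by
    rintro ⟨f, hf, hf0⟩
    apply hni
    refine ⟨f, hf, ?_⟩
    apply hinj
    rw [map_zero, Polynomial.hom_eval₂]
    exact hf0
  obtain ⟨W₀, hW₀, hxi⟩ := exists_val g (q (X i)) hni'
  let j : K →+* L := q.comp C
  have hgC : ∀ v : V, g (C v) = j v := by
    intro v
    change q (MvPolynomial.map V.subtype (aeval z (C v))) = q (C (v : K))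
    rw [aeval_C]
    congr 1
    change MvPolynomial.map V.subtype (C v) = C (v : K)
    rw [map_C]; rfl
  have hgX : ∀ k, g (X k) = q (MvPolynomial.map V.subtype (z k)) := by
    intro k
    change q (MvPolynomial.map V.subtype (aeval z (X k))) = _
    rw [aeval_X]
  obtain ⟨W, hW1, hW2, hW3⟩ := compose j V W₀ (fun v => by rw [← hgC]; exact hW₀ _)
  obtain ⟨l, hl⟩ := Finite.exists_max (fun l : Fin (N + 1) => W.valuation (q (X l)))
  have hxi0 : q (X i) ≠ 0 := by
    intro h0
    rw [h0] at hxi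
    exact hxi W₀.zero_mem
  have hvi : 0 < W.valuation (q (X i)) := by
    rw [zero_lt_iff]
    exact (Valuation.ne_zero_iff _).mpr hxi0
  have hvl : 0 < W.valuation (q (X l)) := lt_of_lt_of_le hvi (hl i)
  have hl0 : q (X l) ≠ 0 := (Valuation.ne_zero_iff _).mp (ne_of_gt hvl)
  -- `x l` is not in `W₀`
  have hlW₀ : q (X l) ∉ W₀ := by
    intro h
    have h1 := hW3 _ (nu_mul W₀ h (nu_inv W₀ hxi))
    rw [ValuationSubring.mem_nonunits_iff, map_mul, map_inv₀] at h1
    have h2 := hl i
    have h3 : W.valuation (q (X i)) * (W.valuation (q (X i)))⁻¹ ≤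
        W.valuation (q (X l)) * (W.valuation (q (X i)))⁻¹ := mul_le_mul_left h2 _
    rw [mul_inv_cancel₀ (ne_of_gt hvi)] at h3
    exact absurd h1 (not_lt.mpr h3)
  have hlinv : (q (X l))⁻¹ ∈ W₀.nonunits := nu_inv W₀ hlW₀
  let y : Fin (N + 1) → L := fun m => q (X m) / q (X l)
  have hxy : ∀ m, q (X m) = q (X l) * y m := fun m => (mul_div_cancel₀ _ hl0).symm
  have hy : ∀ m, y m ∈ W := by
    intro m
    rw [← ValuationSubring.valuation_le_one_iff, map_div₀]
    exact div_le_one_of_le₀ (hl m) zero_le'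
  have hyl : y l = 1 := div_self hl0
  have hqe : ∀ F, q F = eval₂ j (fun m => q (X m)) F := by
    intro F
    have h1 : q = eval₂Hom j (fun m => q (X m)) := by
      apply MvPolynomial.ringHom_ext
      · intro c; rw [eval₂Hom_C]; rfl
      · intro m; rw [eval₂Hom_X']
    conv_lhs => rw [h1]
    rfl
  have hsc : ∀ (F : MvPolynomial (Fin (N + 1)) K) (m : ℕ), F.IsHomogeneous m →
      q F = q (X l) ^ m * eval₂ j y F := by
    intro F m hF
    rw [hqe F]
    exact scale j (q (X l)) _ y hxy F m hF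
  -- evaluation at `y` over `V`
  have hevW : ∀ G : MvPolynomial (Fin (N + 1)) V, eval₂ j y (MvPolynomial.map V.subtype G) ∈ W := by
    intro G
    rw [eval₂_map]
    apply eval₂_mem
    · intro d _; exact hW1 _
    · intro m; exact hy m
  let ev : MvPolynomial (Fin (N + 1)) V →+* W :=
    RingHom.codRestrict ((eval₂Hom j y).comp (MvPolynomial.map V.subtype)) W hevW
  have hev : ∀ G, ((ev G : W) : L) = eval₂ j y (MvPolynomial.map V.subtype G) := fun G => rfl
  let I : Ideal (MvPolynomial (Fin (N + 1)) V) := (IsLocalRing.maximalIdeal W).comap ev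
  have hI : ∀ G, G ∈ I ↔ eval₂ j y (MvPolynomial.map V.subtype G) ∈ W.nonunits := by
    intro G
    rw [Ideal.mem_comap, ← hev, ValuationSubring.coe_mem_nonunits_iff]
  have hzI : ∀ k, z k ∈ I := by
    intro k
    rw [hI]
    have h1 := hsc (MvPolynomial.map V.subtype (z k)) 1 ((hz k).map _)
    rw [pow_one] at h1
    have h2 : eval₂ j y (MvPolynomial.map V.subtype (z k)) =
        q (MvPolynomial.map V.subtype (z k)) * (q (X l))⁻¹ := by
      rw [h1, mul_comm (q (X l)), mul_assoc, mul_inv_cancel₀ hl0, mul_one]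
    rw [h2]
    apply hW3
    apply nu_mul W₀ _ hlinv
    rw [← hgX]; exact hW₀ _
  have hSI : ∀ G ∈ S, G ∈ I := by
    intro G hG
    obtain ⟨m, hm⟩ := hSh G hG
    obtain ⟨ϖ, hϖ0, hϖu, hint⟩ := hSi G hG
    have hmG : (MvPolynomial.map V.subtype G).IsHomogeneous m := hm.map _
    have hb : (C ((ϖ : K)⁻¹) * MvPolynomial.map V.subtype G).IsHomogeneous m := by
      have := (isHomogeneous_C (Fin (N + 1)) ((ϖ : K)⁻¹)).mul hmG
      rwa [zero_add] at this
    have hamap : amap V.subtype Q (X : Fin (N + 1) → MvPolynomial (Fin (N + 1)) V) = vmap V Q := by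
      apply MvPolynomial.ringHom_ext
      · intro c
        change Ideal.Quotient.mk Q (MvPolynomial.map V.subtype (aeval X (C c))) = _
        rw [aeval_X_left_apply]; rfl
      · intro c
        change Ideal.Quotient.mk Q (MvPolynomial.map V.subtype (aeval X (X c))) = _
        rw [aeval_X_left_apply]; rfl
    obtain ⟨n, a, hn, ha, hmem⟩ := hHie N (N + 1) V K V.subtype Q hQh X
      (fun c => isHomogeneous_X _ _) (C ((ϖ : K)⁻¹) * MvPolynomial.map V.subtype G) m hb
      (by rw [hamap]; exact hint)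
    simp only [aeval_X_left_apply] at hmem
    generalize hbdef : C ((ϖ : K)⁻¹) * MvPolynomial.map V.subtype G = b at hmem hb
    have hhom : (b ^ n + ∑ c ∈ Finset.Icc 1 n, MvPolynomial.map V.subtype (a c) *
        b ^ (n - c)).IsHomogeneous (m * n) := by
      apply IsHomogeneous.add
      · exact hb.pow n
      · apply IsHomogeneous.sum
        intro c hc
        rw [Finset.mem_Icc] at hc
        have h1 := ((ha c).map V.subtype).mul (hb.pow (n - c))
        have h2 : c * m + m * (n - c) = m * n := by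
          rw [mul_comm c m, ← mul_add]
          congr 1; omega
        rwa [h2] at h1
    have h3 := hsc _ _ hhom
    rw [hq _ hmem] at h3
    have h4 : eval₂ j y (b ^ n + ∑ c ∈ Finset.Icc 1 n, MvPolynomial.map V.subtype (a c) *
        b ^ (n - c)) = 0 :=
      (mul_eq_zero.mp h3.symm).resolve_left (pow_ne_zero _ hl0)
    have h5 : (eval₂Hom j y) (b ^ n + ∑ c ∈ Finset.Icc 1 n, MvPolynomial.map V.subtype (a c) *
        b ^ (n - c)) = 0 := h4
    rw [map_add, map_pow, map_sum] at h5
    simp only [map_mul, map_pow] at h5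
    have h6 : eval₂ j y b ∈ W := by
      refine mem_of_eq W _ n (fun c => eval₂ j y (MvPolynomial.map V.subtype (a c)))
        (fun c => hevW _) h5
    rw [hI]
    have hϖK : (ϖ : K) ≠ 0 := fun h => hϖ0 (Subtype.ext h)
    have h7 : eval₂ j y (MvPolynomial.map V.subtype G) = j ϖ * eval₂ j y b := by
      rw [← hbdef]
      rw [eval₂_mul, eval₂_C, ← mul_assoc, ← map_mul, mul_inv_cancel₀ hϖK, map_one, one_mul]
    rw [h7]
    refine nu_mul' W (hW2 _ ?_) h6
    rw [ValuationSubring.coe_mem_nonunits_iff]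
    exact (IsLocalRing.mem_maximalIdeal _).mpr hϖu
  obtain ⟨m, hm⟩ := hpow l
  have hle : Ideal.span S ⊔ Ideal.span (Set.range z) ≤ I := by
    rw [sup_le_iff, Ideal.span_le, Ideal.span_le]
    refine ⟨fun G hG => hSI G hG, ?_⟩
    rintro _ ⟨k, rfl⟩
    exact hzI k
  have h1 := hle hm
  rw [hI] at h1
  rw [map_pow, map_X, eval₂_pow, eval₂_X, hyl, one_pow] at h1
  exact nu_one W h1

end Pool.Agent.TFR
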