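import Pool.Agent.FRM.All
import Pool.Agent.XV.All
import Pool.Agent.TFR.Count
import Pool.Agent.TFR.DEH
import Pool.Agent.TFR.DFP
import Pool.Agent.TFR.DIO
import Pool.Agent.TFR.DLH
import Pool.Agent.TFR.DLX
import Pool.Agent.TFR.DSF
import Pool.Agent.TFR.DZN
import Pool.Agent.TFR.FDC
import Pool.Agent.TFR.FDV
import Pool.Agent.TFR.FFA
import Pool.Agent.TFR.HIE
import Pool.Agent.TFR.SPD
import Pool.Agent.TFR.TDA
import Pool.Agent.TFR.TDB
import Pool.Agent.TFR.TFM
import Pool.Agent.TFR.TGC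
import Pool.Agent.TFR.TJB
import Pool.Agent.TFR.TLI
import Pool.Agent.TFR.VIN

/-!
# The exact surface: all modules together
-/

set_option autoImplicit false

noncomputable section

namespace Pool.Agent.TFR

theorem linz : FRM.Stmt_Linz :=
  FRM.linz_proof FRM.lza_proof FRM.lzb_proof FRM.lzc_proof FRM.lzd_proof FRM.lze_proof

theorem hie : Stmt_Hie := hie_proof
theorem fdv : Stmt_Fdv := fdv_proof
theorem fdc : Stmt_Fdc := fdc_proof
theorem dzn : Stmt_Dzn := dzn_proof
theorem dlx : Stmt_Dlx := dlx_proof hie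
theorem tgc : Stmt_Tgc := tgc_proof FRM.minp_proof FRM.gps FRM.bch FRM.cmb_proof fdv
theorem tfm : Stmt_Tfm := tfm_proof linz FRM.hla fdv tgc (vin_proof hie) spd_proof dfp_proof
theorem ffa : Stmt_Ffa :=
  ffa_proof deh_proof dzn (dsf_proof hie dzn) dlx (dlh_proof dzn dlx) (dio_proof hie)

/-- **The counting part**, from its two algebraic parts. -/
theorem count_of (hExact : Stmt_Exact) (hFull : Stmt_FullV) : DIS.Stmt_Count :=
  count XV.spx fdv fdc tfm ffa (tjb_proof hie) tli_proof tda_proof (tdb_proof dzn) hExact hFull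

end Pool.Agent.TFR
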