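import Pool.Agent.TFR.Stmts
import Pool.Agent.FRM.Main
import Pool.Agent.DIS.Interface

/-!
# From the exact surfaces of TFR to those of the interface
-/

set_option autoImplicit false

noncomputable section

namespace Pool.Agent.TFR

open scoped Classical
open MvPolynomial Pool.Agent.LibDb3ab1 Pool.Agent.DC Pool.Agent.FRM

namespace Dis_

theorem weight_one {σ : Type} (m : σ →₀ ℕ) : Finsupp.weight (1 : σ → ℕ) m = m.degree := by
  rw [Finsupp.degree_eq_weight_one]
  rfl

/-- a homogeneous polynomial of degree one is a linear form -/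
theorem linear {σ : Type} [Fintype σ] {R : Type} [CommRing R] {g : MvPolynomial σ R}
    (h : g.IsHomogeneous 1) : g = ∑ i, C (coeff (Finsupp.single i 1) g) * X i := by
  ext m
  rw [coeff_sum]
  by_cases hm : ∃ i, Finsupp.single i 1 = m
  · obtain ⟨i, rfl⟩ := hm
    rw [Finset.sum_eq_single i]
    · rw [coeff_C_mul, coeff_X, if_pos rfl, mul_one]
    · intro j _ hj
      rw [coeff_C_mul, coeff_X, if_neg, mul_zero]
      intro h1
      exact hj (Finsupp.single_left_injective one_ne_zero h1)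
    · intro h1
      exact absurd (Finset.mem_univ i) h1
  · have h1 : coeff m g = 0 := by
      by_contra h0
      have h2 := h h0
      apply hm
      rw [weight_one] at h2
      have h3 : m ∈ {d : σ →₀ ℕ | d.degree = 1} := h2
      rw [← Finsupp.range_single_one] at h3
      exact h3
    rw [h1, Finset.sum_eq_zero]
    intro i _
    rw [coeff_C_mul, coeff_X, if_neg, mul_zero]
    intro h2
    exact hm ⟨i, h2⟩

theorem exists_pow {p : ℕ} [Fact p.Prime] (F : Type) [Field F] [Algebra (ZMod p) F]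
    [Algebra.IsAlgebraic (ZMod p) F] (f : F) : ∃ m : ℕ, 0 < m ∧ f ^ p ^ m = f := by
  have h1 : IsIntegral (ZMod p) f := Algebra.IsIntegral.isIntegral f
  have h2 : FiniteDimensional (ZMod p) (IntermediateField.adjoin (ZMod p) {f}) :=
    IntermediateField.adjoin.finiteDimensional h1
  have h3 : Finite (IntermediateField.adjoin (ZMod p) {f}) := Module.finite_of_finite (ZMod p)
  have := Fintype.ofFinite (IntermediateField.adjoin (ZMod p) {f})
  refine ⟨Module.finrank (ZMod p) (IntermediateField.adjoin (ZMod p) {f}), Module.finrank_pos, ?_⟩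
  have h4 := FiniteField.pow_card (⟨f, IntermediateField.mem_adjoin_simple_self _ f⟩ :
    IntermediateField.adjoin (ZMod p) {f})
  rw [Module.card_eq_pow_finrank (K := ZMod p), ZMod.card] at h4
  exact congrArg Subtype.val h4

theorem exists_max {F : Type} [Field F] (W : ValuationSubring F) {n : ℕ} (ζ : Fin n → F) (i₀ : Fin n)
    (h0 : ζ i₀ ≠ 0) : ∃ i, ζ i ≠ 0 ∧ ∀ j, ζ j / ζ i ∈ W := by
  have : Nonempty (Fin n) := ⟨i₀⟩
  obtain ⟨i, hi⟩ := Finite.exists_max (fun i => W.valuation (ζ i))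
  have h1 : ζ i ≠ 0 := by
    intro h
    have h2 := hi i₀
    simp only [h, map_zero] at h2
    exact h0 ((Valuation.zero_iff _).1 (le_antisymm h2 zero_le'))
  refine ⟨i, h1, fun j => ?_⟩
  rw [← W.valuation_le_one_iff, map_div₀]
  exact div_le_one_of_le₀ (hi j) zero_le'

/-- homogeneity -/
theorem aeval_div {σ : Type} {R F : Type} [CommRing R] [Field F] [Algebra R F]
    {g : MvPolynomial σ R} {m : ℕ} (h : g.IsHomogeneous m) (ξ : σ → F) (c : F) :
    aeval (fun l => ξ l / c) g = aeval ξ g / c ^ m := by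
  rw [aeval_def, aeval_def, eval₂_eq, eval₂_eq, Finset.sum_div]
  refine Finset.sum_congr rfl fun d hd => ?_
  have h1 := h (mem_support_iff.1 hd)
  rw [weight_one, Finsupp.degree_apply] at h1
  rw [mul_div_assoc]
  congr 1
  rw [← h1, ← Finset.prod_pow_eq_pow_sum, ← Finset.prod_div_distrib]
  refine Finset.prod_congr rfl fun i _ => ?_
  rw [div_pow]

theorem nonunit {K L : Type} [Field K] [Field L] {V : ValuationSubring K} {O : ValuationSubring L}
    {μ : K →+* L} {ι : V →+* O} (hι : ∀ x : V, ((ι x : O) : L) = μ x) (hc : O.comap μ = V) {t : V}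
    (h0 : t ≠ 0) (ht : ¬IsUnit t) : ((ι t : O) : L) ≠ 0 ∧ ((ι t : O) : L) ∈ O.nonunits := by
  have ht0 : (t : K) ≠ 0 := fun h1 => h0 (Subtype.ext h1)
  refine ⟨?_, ?_⟩
  · rw [hι]
    exact (map_ne_zero _).2 ht0
  · rw [ValuationSubring.mem_nonunits_iff_exists_mem_maximalIdeal]
    refine ⟨(ι t).2, ?_⟩
    rw [IsLocalRing.mem_maximalIdeal, mem_nonunits_iff]
    intro h
    apply ht
    obtain ⟨u, hu⟩ := h.exists_right_inv
    have hu' : ((ι t : O) : L) * (u : L) = 1 := congrArg Subtype.val hu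
    rw [hι] at hu'
    have h2 : (t : K)⁻¹ ∈ O.comap μ := by
      rw [ValuationSubring.mem_comap, map_inv₀, inv_eq_of_mul_eq_one_right hu']
      exact u.2
    rw [hc] at h2
    refine IsUnit.of_mul_eq_one (⟨(t : K)⁻¹, h2⟩ : V) ?_
    apply Subtype.ext
    change (t : K) * (t : K)⁻¹ = 1
    exact mul_inv_cancel₀ ht0

end Dis_

open Dis_

section

variable {p : ℕ} [Fact p.Prime] {J : Type} {E : Eqs p XV.N J}
  {S : ExactSurf E 2 {c | 1 ≤ (XV.pt c).w}} (Φ : FF S)

theorem FF.ζ_zero : Φ.ζ 0 = 1 := by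
  rw [Φ.ζ_eq]
  exact Φ.deh.z0

theorem FF.z_eq (i : Fin 3) : SRF.z (Φ.ζ 1) (Φ.ζ 2) i = Φ.ζ i := by
  fin_cases i
  · exact Φ.ζ_zero.symm
  · rfl
  · rfl

theorem FF.ζ_sum (i : Fin 3) : ∃ l : Fin (XV.N + 1) → S.O, Φ.ζ i = ∑ j, (l j : S.Ka) • Φ.ξ j := by
  have h1 : (S.zO i).IsHomogeneous 1 := (S.z_hom i).map _
  refine ⟨fun j => coeff (Finsupp.single j 1) (S.zO i), ?_⟩
  rw [Φ.ζ_eq, ExactSurf.za]
  conv_lhs => rw [linear h1]
  rw [map_sum, map_sum]
  refine Finset.sum_congr rfl fun j _ => ?_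
  rw [map_mul, map_C, map_X, map_mul, aeval_C, aeval_X, Algebra.smul_def]
  rfl

/-- **The exact surface of the interface.** -/
def toDis (hd : DIS.Dvrs S.O) : DIS.ExactSurf E where
  K := S.Ka
  char := charP_of_injective_algebraMap (algebraMap S.M.K S.Ka).injective p
  O := S.O
  arch := S.arch
  dvr := hd
  algres := by
    intro a
    obtain ⟨f, hf⟩ := S.bij.2 (IsLocalRing.residue S.O a)
    have := S.M.algebraic
    obtain ⟨m, hm, hfm⟩ := exists_pow (p := p) S.M.F f
    refine ⟨m, hm, ?_⟩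
    rw [← IsLocalRing.residue_eq_zero_iff, map_sub, map_pow, ← hf, ← map_pow, hfm, sub_self]
  t := (S.ι S.M.t : S.O)
  t_ne := (nonunit S.ι_coe S.comap S.M.close.t_ne S.M.close.t_nonunit).1
  t_mem := (nonunit S.ι_coe S.comap S.M.close.t_ne S.M.close.t_nonunit).2
  F := Φ.F
  x := Φ.ζ 1
  y := Φ.ζ 2
  surf := Φ.surf
  X := Φ.ξ
  coord := by
    intro l W
    obtain ⟨i, h1, h2⟩ := exists_max W.W Φ.ζ 0 (by rw [Φ.ζ_zero]; exact one_ne_zero)
    refine ⟨i, ?_⟩
    rw [Φ.z_eq, pow_one]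
    exact Φ.bound W i h1 h2 l
  lin0 := by
    rw [← Φ.ζ_zero]
    exact Φ.ζ_sum 0
  linx := Φ.ζ_sum 1
  liny := Φ.ζ_sum 2
  close := by
    intro j W
    obtain ⟨i, h1, h2⟩ := exists_max W.W Φ.ζ 0 (by rw [Φ.ζ_zero]; exact one_ne_zero)
    refine ⟨i, ?_⟩
    rw [Φ.z_eq]
    have h3 := Φ.close W i h1 h2 j
    rw [aeval_div (E.hom j), aeval_div (E.hom₁ j), div_pow, ← pow_mul, mul_comm (E.e j) p,
      mul_div_assoc', ← add_div, ← mul_div_assoc] at h3
    convert h3 using 3
    · rw [map_pow, map_inv₀]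
    · rw [map_pow]
  tube := by
    intro c hc
    have h0 := nonunit S.ι_coe S.comap S.T.ϖ_ne S.T.ϖ_nonunit
    refine ⟨_, h0.2, h0.1, fun W => ?_⟩
    obtain ⟨i, h1, h2⟩ := exists_max W.W Φ.ζ 0 (by rw [Φ.ζ_zero]; exact one_ne_zero)
    refine ⟨i, ?_⟩
    rw [Φ.z_eq, pow_one, Algebra.smul_def, map_inv₀, mul_div_assoc]
    exact Φ.exact W i h1 h2 c hc

end

end Pool.Agent.TFR
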