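import Pool.Agent.TFR.StmtsB
import Pool.Agent.TFR.Dis
import Pool.Agent.FRM.BCH

/-!
# Assembly: full counts over the algebraic closure
-/

set_option autoImplicit false

noncomputable section

namespace Pool.Agent.TFR

open scoped Classical
open MvPolynomial Pool.Agent.LibDb3ab1 Pool.Agent.DC Pool.Agent.FRM

/-- the integrality of the coordinates over the algebraic closure -/
theorem int_a {p N : ℕ} [Fact p.Prime] {J : Type} {E : Eqs p N J} {d : ℕ} {W : Set (Fin (N + 1))}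
    (S : ExactSurf E d W) (i : Fin (N + 1)) :
    (kmap S.Qa S.za).IsIntegralElem (Ideal.Quotient.mk S.Qa (X i)) := by
  obtain ⟨f, hf, hf0⟩ := S.z_int i
  -- the map of the quotients
  have hle : S.T.Q ≤ S.Qa.comap (MvPolynomial.map (algebraMap S.M.K S.Ka)) :=
    Ideal.le_comap_map
  let q : MvPolynomial (Fin (N + 1)) S.M.K ⧸ S.T.Q →+* MvPolynomial (Fin (N + 1)) S.Ka ⧸ S.Qa :=
    Ideal.quotientMap S.Qa (MvPolynomial.map (algebraMap S.M.K S.Ka)) hle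
  have hc : (algebraMap S.M.K S.Ka).comp S.M.V.subtype = S.O.subtype.comp S.ι :=
    RingHom.ext fun x => (S.ι_coe x).symm
  have hqmk : ∀ F, q (Ideal.Quotient.mk _ F) =
      Ideal.Quotient.mk _ (MvPolynomial.map (algebraMap S.M.K S.Ka) F) := fun F => rfl
  have h : q.comp (zmap S.M.V S.T.Q fun i => MvPolynomial.map S.M.c (S.z i)) =
      (kmap S.Qa S.za).comp (MvPolynomial.map (S.O.subtype.comp S.ι)) := by
    refine MvPolynomial.ringHom_ext (fun a => ?_) fun i => ?_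
    · simp only [zmap, vmap, kmap, RingHom.comp_apply, hqmk, MvPolynomial.map_C,
        AlgHom.toRingHom_eq_coe, RingHom.coe_coe, MvPolynomial.aeval_C,
        MvPolynomial.algebraMap_eq]
      congr 2
      exact RingHom.congr_fun hc a
    · simp only [zmap, vmap, kmap, RingHom.comp_apply, hqmk, MvPolynomial.map_X,
        AlgHom.toRingHom_eq_coe, RingHom.coe_coe, MvPolynomial.aeval_X, MvPolynomial.map_map,
        ExactSurf.za, ExactSurf.zO]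
      have h1 : (algebraMap S.M.K S.Ka).comp (S.M.V.subtype.comp S.M.c) =
          S.O.subtype.comp (S.ι.comp S.M.c) := by
        rw [← RingHom.comp_assoc, hc, RingHom.comp_assoc]
      rw [h1]
  refine ⟨f.map (MvPolynomial.map (S.O.subtype.comp S.ι)), hf.map _, ?_⟩
  have h1 : q (Ideal.Quotient.mk _ (X i)) = Ideal.Quotient.mk _ (X i) := by
    rw [hqmk, MvPolynomial.map_X]
  rw [Polynomial.eval₂_map, ← h, ← h1, ← Polynomial.hom_eval₂, hf0, map_zero]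

/-- **Full counts over the algebraic closure.** -/
theorem full_of_fullV (hTjb : Stmt_Tjb) (hTli : Stmt_Tli) (hTda : Stmt_Tda) (hTdb : Stmt_Tdb)
    {p : ℕ} [Fact p.Prime] {J : Type} {E : Eqs p XV.N J}
    {S : ExactSurf E 2 {c | 1 ≤ (XV.pt c).w}} (Φ : FF S) [S.T.Q.IsPrime]
    (hd : DIS.Dvrs S.O) (h : FullV S.M.V S.T.Q) : (toDis Φ hd).Full := by
  obtain ⟨δ, hδ, h1⟩ := h
  -- the degree
  have hdeg : DIS.deg S.Ka (Φ.ζ 1) (Φ.ζ 2) = δ := by
    have hsurf : SRF.IsSurf S.Ka (aeval Φ.ξ (S.za 1) : Φ.F) (aeval Φ.ξ (S.za 2)) := by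
      rw [← Φ.ζ_eq, ← Φ.ζ_eq]
      exact Φ.surf
    have h2 := hTdb XV.N S.Ka S.Qa (S.geom _ _) (hom_map _ _ S.T.hom) (by
      rw [ExactSurf.Qa, dimf_proof S.M.K S.Ka _ (XV.N + 1) S.T.Q]
      exact S.T.dim) S.za (fun i => ((S.z_hom i).map _).map _) (int_a S) Φ.F Φ.ξ Φ.deh hsurf
    rw [← Φ.ζ_eq, ← Φ.ζ_eq] at h2
    obtain ⟨B₁, hB₁⟩ := hδ
    obtain ⟨B₂, hB₂⟩ := h2
    by_contra hne
    set D := DIS.deg S.Ka (Φ.ζ 1) (Φ.ζ 2)
    have h3 : ∀ n : ℕ, |(D : ℝ) - δ| * n ^ 2 / 2 ≤ (B₁ + B₂) * ((n : ℝ) + 1) := by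
      intro n
      have h4 := hB₁ n
      have h5 := hB₂ n
      have h6 : hilb S.Qa n = hilb S.T.Q n := hTda XV.N S.M.K S.Ka _ S.T.Q n
      rw [h6] at h5
      have h7 : |(D : ℝ) - δ| * n ^ 2 / 2 = |((D : ℝ) - δ) * n ^ 2 / 2| := by
        rw [abs_div, abs_mul, abs_of_nonneg (by positivity : (0 : ℝ) ≤ (n : ℝ) ^ 2),
          abs_of_nonneg (by norm_num : (0 : ℝ) ≤ 2)]
      rw [h7]
      have h8 : ((D : ℝ) - δ) * n ^ 2 / 2 = ((hilb S.T.Q n : ℝ) - δ * n ^ 2 / 2) -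
          ((hilb S.T.Q n : ℝ) - D * n ^ 2 / 2) := by ring
      rw [h8]
      calc _ ≤ _ := abs_sub _ _
        _ ≤ B₁ * ((n : ℝ) + 1) + B₂ * ((n : ℝ) + 1) := add_le_add h4 h5
        _ = _ := by ring
    have h4 : (1 : ℝ) ≤ |(D : ℝ) - δ| := by
      have h5 : ((D : ℤ) - δ) ≠ 0 := by
        intro h0
        apply hne
        omega
      have h6 := Int.one_le_abs h5
      exact_mod_cast h6
    have h5 : ∀ n : ℕ, (n : ℝ) ^ 2 / 2 ≤ (B₁ + B₂) * ((n : ℝ) + 1) := by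
      intro n
      refine le_trans ?_ (h3 n)
      have h6 : (0 : ℝ) ≤ (n : ℝ) ^ 2 := by positivity
      nlinarith
    obtain ⟨n, hn⟩ := exists_nat_gt (4 * |B₁ + B₂| + 1)
    have h6 := h5 n
    have h7 : (B₁ + B₂) * ((n : ℝ) + 1) ≤ |B₁ + B₂| * ((n : ℝ) + 1) :=
      mul_le_mul_of_nonneg_right (le_abs_self _) (by positivity)
    have h8 : 0 ≤ |B₁ + B₂| := abs_nonneg _
    have h9 : (1 : ℝ) < n := by linarith
    nlinarith
  intro s ε hε
  obtain ⟨n₀, hn₀⟩ := h1 s ε hε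
  refine ⟨n₀, fun n hn => ?_⟩
  obtain ⟨k, m, G₀, G, hG₀, hG₀Q, hG, hli, hpol, hm⟩ := hn₀ n hn
  have hG0' : (aeval Φ.ξ (MvPolynomial.map (algebraMap S.M.K S.Ka) G₀) : Φ.F) ≠ 0 := by
    intro h0
    rw [← Φ.deh.mem _ k (hG₀.map _)] at h0
    apply hG₀Q
    have h2 : G₀ ∈ S.Qa.comap (MvPolynomial.map (algebraMap S.M.K S.Ka)) := h0
    rw [ExactSurf.Qa, BCH_.comap_map] at h2
    exact h2
  have hli' := hTli XV.N S.M.K S.Ka Φ.F S.T.Q S.za Φ.ξ Φ.deh m (k + n) G hG hli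
  let v : Fin m → Φ.F := fun i => aeval Φ.ξ (MvPolynomial.map (algebraMap S.M.K S.Ka) (G i)) /
    aeval Φ.ξ (MvPolynomial.map (algebraMap S.M.K S.Ka) G₀)
  have hv : LinearIndependent S.Ka v := by
    let u : Φ.F →ₗ[S.Ka] Φ.F := LinearMap.mulLeft S.Ka
      (aeval Φ.ξ (MvPolynomial.map (algebraMap S.M.K S.Ka) G₀) : Φ.F)⁻¹
    have hu : Function.Injective u := by
      intro a b hab
      exact mul_left_cancel₀ (inv_ne_zero hG0') hab
    have h2 := hli'.map' u (LinearMap.ker_eq_bot.2 hu)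
    have h3 : v = u ∘ fun i =>
        (aeval Φ.ξ (MvPolynomial.map (algebraMap S.M.K S.Ka) (G i)) : Φ.F) := by
      funext i
      exact div_eq_inv_mul _ _
    rw [h3]
    exact h2
  have key : ∃ W : Submodule S.Ka Φ.F, W ≤ DIS.PolesOn S.Ka (Φ.ζ 1) (Φ.ζ 2)
      (fun e => DIS.InTube S.O (Φ.ζ 1) (Φ.ζ 2) Φ.ξ {c | 1 ≤ (XV.pt c).e s} e.1) n ∧
      ((3 / 5 : ℝ) * DIS.deg S.Ka (Φ.ζ 1) (Φ.ζ 2) - ε) * n ^ 2 ≤ Module.finrank S.Ka W := by
    refine ⟨Submodule.span S.Ka (Set.range v), ?_, ?_⟩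
    · rw [Submodule.span_le]
      rintro _ ⟨i, rfl⟩
      exact hTjb p XV.N J E _ S Φ {c | 1 ≤ (XV.pt c).e s} k n G₀ (G i) hG₀ hG₀Q (hG i) (hpol i)
    · rw [finrank_span_eq_card hv, Fintype.card_fin, hdeg]
      exact hm
  exact key

end Pool.Agent.TFR
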