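import Pool.Agent.FRM.StmtsB
import Pool.Agent.SRF.Defs
import Pool.Agent.EN2.Defs

/-!
# The exact surface: geometrically prime over a complete discrete valuation ring, passage to the
algebraic closure, and to function fields over the plane
-/

set_option autoImplicit false

noncomputable section

namespace Pool.Agent.TFR

open scoped Classical
open MvPolynomial Pool.Agent.LibDb3ab1 Pool.Agent.DC Pool.Agent.FRM

attribute [instance] CompleteModel.field CompleteModel.char CompleteModel.fieldF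
  CompleteModel.closedF CompleteModel.algF

/-- An exact surface in a complete close model: a homogeneous prime ideal of dimension `d + 1` such
that the coordinates `x_c`, `c ∈ W`, are divisible by the nonunit `ϖ` in the integral closure. -/
structure ExactPrime {p N : ℕ} [Fact p.Prime] {J : Type} {E : Eqs p N J} {d : ℕ}
    (M : CompleteModel E (d + 1)) (W : Set (Fin (N + 1))) where
  /-- a nonunit, for example a uniformiser -/
  ϖ : M.V
  ϖ_ne : ϖ ≠ 0
  ϖ_nonunit : ¬IsUnit ϖ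
  /-- the ideal -/
  Q : Ideal (MvPolynomial (Fin (N + 1)) M.K)
  prime : Q.IsPrime
  hom : Homog Q
  le : M.P ≤ Q
  dim : ringKrullDim (MvPolynomial (Fin (N + 1)) M.K ⧸ Q) = (d + 1 : ℕ)
  exact : ∀ c ∈ W, (vmap M.V Q).IsIntegralElem
    (Ideal.Quotient.mk Q (C ((ϖ : M.K)⁻¹) * X c))

/-- **The exact surface**, over a complete discrete valuation ring `V` and over the valuation ring
`O` of the algebraic closure `Ka` of its field of fractions; `Q` remains prime. -/
structure ExactSurf {p N : ℕ} [Fact p.Prime] {J : Type} (E : Eqs p N J) (d : ℕ)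
    (W : Set (Fin (N + 1))) where
  /-- the complete close model -/
  M : CompleteModel E (d + 1)
  /-- the exact prime -/
  T : ExactPrime M W
  geom : ∀ (K' : Type) [Field K'] (μ : M.K →+* K'), (T.Q.map (MvPolynomial.map μ)).IsPrime
  /-- the algebraic closure -/
  Ka : Type
  [fieldKa : Field Ka]
  [closed : IsAlgClosed Ka]
  [alg : Algebra M.K Ka]
  [algebraic : Algebra.IsAlgebraic M.K Ka]
  /-- its valuation ring -/
  O : ValuationSubring Ka
  comap : O.comap (algebraMap M.K Ka) = M.V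
  arch : EN2.Arch O
  /-- the inclusion of `V` -/
  ι : M.V →+* O
  ι_coe : ∀ x : M.V, ((ι x : O) : Ka) = algebraMap M.K Ka x
  bij : Function.Bijective ((IsLocalRing.residue O).comp (ι.comp M.c))
  /-- the linear forms, with coefficients in the coefficient field -/
  z : Fin (d + 1) → MvPolynomial (Fin (N + 1)) M.F
  z_hom : ∀ i, (z i).IsHomogeneous 1
  z_int : ∀ i, (zmap M.V T.Q fun i => MvPolynomial.map M.c (z i)).IsIntegralElem
    (Ideal.Quotient.mk T.Q (X i))
  z_sep : Sepz T.Q fun i => MvPolynomial.map (M.V.subtype.comp M.c) (z i)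
  /-- the linear forms have no common zero on the special fibre -/
  param : ∀ i : Fin (N + 1), ∃ m : ℕ, X i ^ m ∈
    Ideal.span (Set.range fun j => red M.F (E.g j)) ⊔ Ideal.span ((fun i => X i) '' W) ⊔
      Ideal.span (Set.range z)

attribute [instance] ExactSurf.fieldKa ExactSurf.closed ExactSurf.alg ExactSurf.algebraic

namespace ExactSurf

variable {p N : ℕ} [Fact p.Prime] {J : Type} {E : Eqs p N J} {d : ℕ} {W : Set (Fin (N + 1))}
  (S : ExactSurf E d W)

/-- the prime ideal over the algebraic closure -/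
def Qa : Ideal (MvPolynomial (Fin (N + 1)) S.Ka) :=
  S.T.Q.map (MvPolynomial.map (algebraMap S.M.K S.Ka))

/-- the linear forms over `O` -/
def zO (i : Fin (d + 1)) : MvPolynomial (Fin (N + 1)) S.O :=
  MvPolynomial.map (S.ι.comp S.M.c) (S.z i)

/-- the linear forms over the algebraic closure -/
def za (i : Fin (d + 1)) : MvPolynomial (Fin (N + 1)) S.Ka :=
  MvPolynomial.map S.O.subtype (S.zO i)

end ExactSurf

section valuation

/-- FDV: valuation rings of algebraic extensions above a discrete valuation ring whose residue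
field is algebraically closed. -/
def Stmt_Fdv : Prop :=
  ∀ (K L : Type) [Field K] [Field L] (μ : K →+* L) (V : ValuationSubring K)
    (O : ValuationSubring L), IsDiscreteValuationRing V → O.comap μ = V → μ.IsIntegral →
    ∀ (F : Type) [Field F] [IsAlgClosed F] (c : F →+* V),
    Function.Bijective ((IsLocalRing.residue V).comp c) →
    (∃ μV : V →+* O, (∀ x : V, ((μV x : O) : L) = μ x) ∧
      Function.Bijective ((IsLocalRing.residue O).comp (μV.comp c))) ∧
    EN2.Arch O ∧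
    (∀ x : L, x ≠ 0 → ∃ n : ℕ, 0 < n ∧ ∃ a : K, a ≠ 0 ∧ x ^ n / μ a ∈ O ∧ μ a / x ^ n ∈ O) ∧
    (μ.Finite → IsDiscreteValuationRing O)

/-- TGC: exact primes can be taken geometrically prime (uses MinP, Gps, Bch, Cmb of FRM, Fdv). -/
def Stmt_Tgc : Prop :=
  ∀ (p N d : ℕ) [Fact p.Prime] (J : Type) [Finite J] (E : Eqs p N J) (W : Set (Fin (N + 1)))
    (M : CompleteModel E (d + 1)), Nonempty (ExactPrime M W) →
    ∃ (M' : CompleteModel E (d + 1)) (T' : ExactPrime M' W), ∀ (K' : Type) [Field K']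
      (μ : M'.K →+* K'), (T'.Q.map (MvPolynomial.map μ)).IsPrime

/-- The homomorphism `A[z_1, …, z_r] → K[x_0, …, x_N] / Q` (`zmap` for `A = V`, `kmap` for
`A = K`). -/
def amap {N r : ℕ} {A K : Type} [CommRing A] [Field K] (ρ : A →+* K)
    (Q : Ideal (MvPolynomial (Fin (N + 1)) K)) (z : Fin r → MvPolynomial (Fin (N + 1)) A) :
    MvPolynomial (Fin r) A →+* MvPolynomial (Fin (N + 1)) K ⧸ Q :=
  ((Ideal.Quotient.mk Q).comp (MvPolynomial.map ρ)).comp (MvPolynomial.aeval z).toRingHom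

/-- HIE: homogeneous integral equations over rings of polynomials in linear forms `z`. -/
def Stmt_Hie : Prop :=
  ∀ (N r : ℕ) (A K : Type) [CommRing A] [Field K] (ρ : A →+* K)
    (Q : Ideal (MvPolynomial (Fin (N + 1)) K)), Homog Q →
    ∀ z : Fin r → MvPolynomial (Fin (N + 1)) A, (∀ i, (z i).IsHomogeneous 1) →
    ∀ (b : MvPolynomial (Fin (N + 1)) K) (m : ℕ), b.IsHomogeneous m →
    (amap ρ Q z).IsIntegralElem (Ideal.Quotient.mk Q b) →
    ∃ (n : ℕ) (a : ℕ → MvPolynomial (Fin r) A), 0 < n ∧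
      (∀ i, (a i).IsHomogeneous (i * m)) ∧
      b ^ n + ∑ i ∈ Finset.Icc 1 n, MvPolynomial.map ρ (aeval z (a i)) * b ^ (n - i) ∈ Q

/-- VIN: linear forms without common zero on the special fibre are parameters (uses Hie). -/
def Stmt_Vin : Prop :=
  ∀ (N r : ℕ) (K : Type) [Field K] (V : ValuationSubring K)
    (Q : Ideal (MvPolynomial (Fin (N + 1)) K)), Q.IsPrime → Homog Q →
    ∀ (S : Set (MvPolynomial (Fin (N + 1)) V)) (z : Fin r → MvPolynomial (Fin (N + 1)) V),
    (∀ i, (z i).IsHomogeneous 1) → (∀ G ∈ S, ∃ m, G.IsHomogeneous m) →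
    (∀ G ∈ S, ∃ ϖ : V, ϖ ≠ 0 ∧ ¬IsUnit ϖ ∧ (vmap V Q).IsIntegralElem
      (Ideal.Quotient.mk Q (C ((ϖ : K)⁻¹) * MvPolynomial.map V.subtype G))) →
    (∀ i, ∃ m : ℕ, X i ^ m ∈ Ideal.span S ⊔ Ideal.span (Set.range z)) →
    ∀ i, (zmap V Q z).IsIntegralElem (Ideal.Quotient.mk Q (X i))

/-- SPD: descent of separability. -/
def Stmt_Spd : Prop :=
  ∀ (N r : ℕ) (K L : Type) [Field K] [Field L] (μ : K →+* L)
    (Q : Ideal (MvPolynomial (Fin (N + 1)) K)) (z : Fin r → MvPolynomial (Fin (N + 1)) K),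
    Sepz (Q.map (MvPolynomial.map μ)) (fun i => MvPolynomial.map μ (z i)) → Sepz Q z

/-- DFP: the dimension over extensions of the prime field. -/
def Stmt_Dfp : Prop :=
  ∀ (p N : ℕ) [Fact p.Prime] (J : Type) (g : J → MvPolynomial (Fin (N + 1)) ℤ)
    (W : Set (Fin (N + 1))) (F : Type) [Field F] [CharP F p],
    ringKrullDim (MvPolynomial (Fin (N + 1)) F ⧸
      (Ideal.span (Set.range fun j => red F (g j)) ⊔ Ideal.span ((fun i => X i) '' W) :
        Ideal (MvPolynomial (Fin (N + 1)) F))) =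
    ringKrullDim (MvPolynomial (Fin (N + 1)) (ZMod p) ⧸
      (Ideal.span (Set.range fun j => red (ZMod p) (g j)) ⊔ Ideal.span ((fun i => X i) '' W) :
        Ideal (MvPolynomial (Fin (N + 1)) (ZMod p))))

/-- TFM: exact surfaces from exact primes (uses Linz, Hla of FRM, Fdv, Tgc, Vin, Spd, Dfp). The
dimension of the cone over the special fibre is at most `d + 1`. -/
def Stmt_Tfm : Prop :=
  ∀ (p N d : ℕ) [Fact p.Prime] (J : Type) [Finite J] (E : Eqs p N J) (W : Set (Fin (N + 1))),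
    ringKrullDim (MvPolynomial (Fin (N + 1)) (ZMod p) ⧸
      (Ideal.span (Set.range fun j => red (ZMod p) (E.g j)) ⊔ Ideal.span ((fun i => X i) '' W) :
        Ideal (MvPolynomial (Fin (N + 1)) (ZMod p)))) ≤ (d + 1 : ℕ) →
    ∀ M : CompleteModel E (d + 1), Nonempty (ExactPrime M W) → Nonempty (ExactSurf E d W)

end valuation

section bridge

open Pool.Agent.SRF

/-- A model of the homogeneous prime ideal `Q` (of dimension three) by a field `F` with elements
`ξ i` (the quotients `x_i / z_0`). -/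
structure Deh {N : ℕ} {K : Type} [Field K] (Q : Ideal (MvPolynomial (Fin (N + 1)) K))
    (z : Fin 3 → MvPolynomial (Fin (N + 1)) K) (F : Type) [Field F] [Algebra K F]
    (ξ : Fin (N + 1) → F) : Prop where
  mem : ∀ (G : MvPolynomial (Fin (N + 1)) K) (m : ℕ), G.IsHomogeneous m →
    (G ∈ Q ↔ aeval ξ G = 0)
  z0 : aeval ξ (z 0) = 1
  gen : IntermediateField.adjoin K (Set.range ξ) = ⊤

/-- DEH: the field of fractions of degree zero. -/
def Stmt_Deh : Prop :=
  ∀ (N : ℕ) (K : Type) [Field K] (Q : Ideal (MvPolynomial (Fin (N + 1)) K)), Q.IsPrime →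
    Homog Q → ∀ z : Fin 3 → MvPolynomial (Fin (N + 1)) K, (∀ i, (z i).IsHomogeneous 1) →
    z 0 ∉ Q → ∃ (F : Type) (_ : Field F) (_ : Algebra K F) (ξ : Fin (N + 1) → F), Deh Q z F ξ

/-- DZN: the linear forms are algebraically independent modulo `Q`. -/
def Stmt_Dzn : Prop :=
  ∀ (N d : ℕ) (K : Type) [Field K] (Q : Ideal (MvPolynomial (Fin (N + 1)) K)), Q.IsPrime →
    Homog Q → ringKrullDim (MvPolynomial (Fin (N + 1)) K ⧸ Q) = (d + 1 : ℕ) →
    ∀ z : Fin (d + 1) → MvPolynomial (Fin (N + 1)) K, (∀ i, (z i).IsHomogeneous 1) →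
    (∀ i, (kmap Q z).IsIntegralElem (Ideal.Quotient.mk Q (X i))) →
    Function.Injective (kmap Q z)

/-- DSF: the field is a surface in the sense of SRF (uses Hie, Dzn). -/
def Stmt_Dsf : Prop :=
  ∀ (N : ℕ) (K : Type) [Field K] (Q : Ideal (MvPolynomial (Fin (N + 1)) K)), Q.IsPrime →
    Homog Q → ringKrullDim (MvPolynomial (Fin (N + 1)) K ⧸ Q) = (2 + 1 : ℕ) →
    ∀ z : Fin 3 → MvPolynomial (Fin (N + 1)) K, (∀ i, (z i).IsHomogeneous 1) →
    (∀ i, (kmap Q z).IsIntegralElem (Ideal.Quotient.mk Q (X i))) → Sepz Q z →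
    ∀ (F : Type) [Field F] [Algebra K F] (ξ : Fin (N + 1) → F), Deh Q z F ξ →
      IsSurf K (aeval ξ (z 1) : F) (aeval ξ (z 2))

/-- DLX: the quotients `x_j / z_i` belong to the charts (uses Hie). -/
def Stmt_Dlx : Prop :=
  ∀ (N : ℕ) (K : Type) [Field K] (Q : Ideal (MvPolynomial (Fin (N + 1)) K)), Q.IsPrime →
    Homog Q → ∀ z : Fin 3 → MvPolynomial (Fin (N + 1)) K, (∀ i, (z i).IsHomogeneous 1) →
    (∀ i, (kmap Q z).IsIntegralElem (Ideal.Quotient.mk Q (X i))) →
    ∀ (F : Type) [Field F] [Algebra K F] (ξ : Fin (N + 1) → F), Deh Q z F ξ →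
      ∀ (j : Fin (N + 1)) (i : Fin 3), (aeval ξ (z i) : F) ≠ 0 →
        (ξ j / aeval ξ (z i) : F) ∈ chart K (aeval ξ (z 1) : F) (aeval ξ (z 2)) i

/-- DLH: quotients `G₁ / G₂` of homogeneous elements of degree difference `m` which are integral
over `K[x]` are sections of `m H` (uses Dzn, Dlx). -/
def Stmt_Dlh : Prop :=
  ∀ (N : ℕ) (K : Type) [Field K] (Q : Ideal (MvPolynomial (Fin (N + 1)) K)) [Q.IsPrime],
    Homog Q → ringKrullDim (MvPolynomial (Fin (N + 1)) K ⧸ Q) = (2 + 1 : ℕ) →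
    ∀ z : Fin 3 → MvPolynomial (Fin (N + 1)) K, (∀ i, (z i).IsHomogeneous 1) →
    (∀ i, (kmap Q z).IsIntegralElem (Ideal.Quotient.mk Q (X i))) →
    ∀ (F : Type) [Field F] [Algebra K F] (ξ : Fin (N + 1) → F), Deh Q z F ξ →
      ∀ (m k : ℕ) (G₁ G₂ : MvPolynomial (Fin (N + 1)) K), G₁.IsHomogeneous (k + m) →
        G₂.IsHomogeneous k → G₂ ∉ Q →
        IsIntegral (MvPolynomial (Fin (N + 1)) K ⧸ Q)
          (algebraMap (MvPolynomial (Fin (N + 1)) K ⧸ Q)
            (FractionRing (MvPolynomial (Fin (N + 1)) K ⧸ Q)) (Ideal.Quotient.mk Q G₁) /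
          algebraMap (MvPolynomial (Fin (N + 1)) K ⧸ Q)
            (FractionRing (MvPolynomial (Fin (N + 1)) K ⧸ Q)) (Ideal.Quotient.mk Q G₂)) →
        (aeval ξ G₁ / aeval ξ G₂ : F) ∈ L K (aeval ξ (z 1)) (aeval ξ (z 2))
          fun e => m * H K (aeval ξ (z 1) : F) (aeval ξ (z 2)) e

/-- DIO: homogeneous elements of degree `m` which are integral over `O[x]` are bounded by the
`m`-th power of the maximum of the `|z_i|` at all valuation rings above `O` (uses Hie). -/
def Stmt_Dio : Prop :=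
  ∀ (N : ℕ) (K : Type) [Field K] (O : ValuationSubring K)
    (Q : Ideal (MvPolynomial (Fin (N + 1)) K)), Q.IsPrime → Homog Q →
    ∀ z : Fin 3 → MvPolynomial (Fin (N + 1)) O, (∀ i, (z i).IsHomogeneous 1) →
    (∀ i, (zmap O Q z).IsIntegralElem (Ideal.Quotient.mk Q (X i))) →
    ∀ (F : Type) [Field F] [Algebra K F] (ξ : Fin (N + 1) → F),
      Deh Q (fun i => MvPolynomial.map O.subtype (z i)) F ξ →
      ∀ (m : ℕ) (b : MvPolynomial (Fin (N + 1)) K), b.IsHomogeneous m →
        (vmap O Q).IsIntegralElem (Ideal.Quotient.mk Q b) →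
        ∀ W : EN2.Pl O F, ∀ i : Fin 3,
          (∀ j : Fin 3, (aeval ξ (MvPolynomial.map O.subtype (z j)) : F) /
            aeval ξ (MvPolynomial.map O.subtype (z i)) ∈ W.W) →
          (aeval ξ (MvPolynomial.map O.subtype (z i)) : F) ≠ 0 →
          (aeval ξ b : F) / aeval ξ (MvPolynomial.map O.subtype (z i)) ^ m ∈ W.W

/-- **The function field** of an exact surface over the algebraically closed field `Ka`, as a
surface over the plane, with the bounds at all places above `O`. -/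
structure FF {p N : ℕ} [Fact p.Prime] {J : Type} {E : Eqs p N J} {W : Set (Fin (N + 1))}
    (S : ExactSurf E 2 W) where
  /-- the function field -/
  F : Type
  [field : Field F]
  [alg : Algebra S.Ka F]
  /-- the coordinates, divided by the first linear form -/
  ξ : Fin (N + 1) → F
  /-- the linear forms -/
  ζ : Fin 3 → F
  ζ_eq : ∀ i, ζ i = aeval ξ (S.za i)
  deh : Deh S.Qa S.za F ξ
  surf : IsSurf S.Ka (ζ 1) (ζ 2)
  chart : ∀ j i, ζ i ≠ 0 → ξ j / ζ i ∈ SRF.chart S.Ka (ζ 1) (ζ 2) i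
  sec : ∀ j, ξ j ∈ L S.Ka (ζ 1) (ζ 2) fun e => H S.Ka (ζ 1) (ζ 2) e
  /-- the coordinates are bounded by the linear forms -/
  bound : ∀ (w : EN2.Pl S.O F) (i : Fin 3), ζ i ≠ 0 → (∀ j, ζ j / ζ i ∈ w.W) →
    ∀ l, ξ l / ζ i ∈ w.W
  /-- closeness -/
  close : ∀ (w : EN2.Pl S.O F) (i : Fin 3), ζ i ≠ 0 → (∀ j, ζ j / ζ i ∈ w.W) → ∀ j,
    ((algebraMap S.Ka F (S.ι S.M.t : S.O))⁻¹) ^ (p + 1) *
      ((aeval (fun l => ξ l / ζ i) (E.g j)) ^ p + (algebraMap S.Ka F (S.ι S.M.t : S.O)) ^ p *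
        aeval (fun l => ξ l / ζ i) (E.g₁ j)) ∈ w.W
  /-- exactness -/
  exact : ∀ (w : EN2.Pl S.O F) (i : Fin 3), ζ i ≠ 0 → (∀ j, ζ j / ζ i ∈ w.W) → ∀ c ∈ W,
    (algebraMap S.Ka F (S.ι S.T.ϖ : S.O))⁻¹ * (ξ c / ζ i) ∈ w.W

attribute [instance] FF.field FF.alg

/-- FFA: the function field of an exact surface (uses Deh, Dzn, Dsf, Dlx, Dlh, Dio). -/
def Stmt_Ffa : Prop :=
  ∀ (p N : ℕ) [Fact p.Prime] (J : Type) (E : Eqs p N J) (W : Set (Fin (N + 1)))
    (S : ExactSurf E 2 W), Nonempty (FF S)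

end bridge

end Pool.Agent.TFR
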