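import Pool.Agent.TFR.Stmts
import Pool.Agent.FRM.CMA
import Pool.Agent.FRM.BCH

set_option autoImplicit false
set_option linter.style.haveILetI false

noncomputable section

namespace Pool.Agent.TFR

open scoped Classical
open MvPolynomial Pool.Agent.LibDb3ab1 Pool.Agent.DC Pool.Agent.FRM

namespace TGC_

theorem hc_map {A B : Type} [CommRing A] [CommRing B] (f : A →+* B) {σ : Type}
    (F : MvPolynomial σ A) (m : ℕ) :
    homogeneousComponent m (MvPolynomial.map f F) = MvPolynomial.map f (homogeneousComponent m F) := by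
  ext d
  rw [coeff_homogeneousComponent, coeff_map, coeff_map, coeff_homogeneousComponent]
  split_ifs <;> simp

/-- ideals over an algebraic extension are defined over a finite extension -/
theorem descend {K Ka : Type} [Field K] [Field Ka] [Algebra K Ka] [Algebra.IsAlgebraic K Ka]
    {n : ℕ} (Qa : Ideal (MvPolynomial (Fin n) Ka)) :
    ∃ L : IntermediateField K Ka, FiniteDimensional K L ∧
      (Qa.comap (MvPolynomial.map (σ := Fin n) (algebraMap L Ka))).map
        (MvPolynomial.map (algebraMap L Ka)) = Qa := by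
  obtain ⟨G, hG⟩ := (inferInstance : IsNoetherianRing (MvPolynomial (Fin n) Ka)).noetherian Qa
  set S : Set Ka := ⋃ g ∈ G, (g.coeffs : Set Ka) with hS
  have hfin : S.Finite := by
    apply Set.Finite.biUnion G.finite_toSet
    intro g _
    exact g.coeffs.finite_toSet
  haveI : Finite S := hfin
  refine ⟨IntermediateField.adjoin K S, IntermediateField.finiteDimensional_adjoin
    (fun b _ => Algebra.IsIntegral.isIntegral b), ?_⟩
  apply le_antisymm
  · exact Ideal.map_comap_le
  · conv_lhs => rw [← hG]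
    rw [Ideal.submodule_span_eq, Ideal.span_le]
    intro g hg
    have h1 : (g.coeffs : Set Ka) ⊆ ((algebraMap (IntermediateField.adjoin K S) Ka).range : Set Ka) := by
      intro b hb
      have hbS : b ∈ S := by
        rw [hS]
        exact Set.mem_biUnion hg hb
      exact ⟨⟨b, IntermediateField.subset_adjoin K S hbS⟩, rfl⟩
    obtain ⟨g', hg'⟩ := mem_range_map_iff_coeffs_subset.mpr h1
    have h2 : g' ∈ Qa.comap (MvPolynomial.map (σ := Fin n)
        (algebraMap (IntermediateField.adjoin K S) Ka)) := by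
      rw [Ideal.mem_comap, hg', ← hG]
      exact Ideal.subset_span hg
    rw [← hg']
    exact Ideal.mem_map_of_mem _ h2

theorem homog_comap {A B : Type} [CommRing A] [CommRing B] (f : A →+* B) {σ : Type}
    (Q : Ideal (MvPolynomial σ B)) (hQ : Homog Q) : Homog (Q.comap (MvPolynomial.map f)) := by
  intro F hF m
  rw [Ideal.mem_comap, ← hc_map]
  exact hQ _ hF m

/-- extension of ideals along a composition -/
theorem map_map' {A B C' : Type} [CommRing A] [CommRing B] [CommRing C'] (f : A →+* B) (g : B →+* C')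
    {σ : Type} (Q : Ideal (MvPolynomial σ A)) :
    (Q.map (MvPolynomial.map f)).map (MvPolynomial.map g) = Q.map (MvPolynomial.map (g.comp f)) := by
  rw [Ideal.map_map]
  congr 1
  ext x
  · simp
  · simp

end TGC_

open TGC_ in
theorem tgc_proof (hMinP : Stmt_MinP) (hGps : Stmt_Gps) (hBch : Stmt_Bch) (hCmb : Stmt_Cmb)
    (hFdv : Stmt_Fdv) : Stmt_Tgc := by
  intro p N d _ J _ E W M hT
  obtain ⟨T⟩ := hT
  obtain ⟨O, hO⟩ := CMA_.ext_val (algebraMap M.K (AlgebraicClosure M.K)) M.V
  set I : Ideal (MvPolynomial (Fin (N + 1)) (AlgebraicClosure M.K)) :=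
    T.Q.map (MvPolynomial.map (algebraMap M.K (AlgebraicClosure M.K))) with hI
  have hIhom : Homog I := hom_map (algebraMap M.K (AlgebraicClosure M.K)) T.Q T.hom
  have hIdim : ringKrullDim (MvPolynomial (Fin (N + 1)) (AlgebraicClosure M.K) ⧸ I) =
      (d + 1 : ℕ) := by
    rw [hI, dimf_proof M.K (AlgebraicClosure M.K) (algebraMap M.K (AlgebraicClosure M.K)) (N + 1) T.Q]
    exact T.dim
  obtain ⟨Qa, hIQ, hQaP, hQah, hQad⟩ := hMinP (AlgebraicClosure M.K) N d I hIhom hIdim
  obtain ⟨L, hLfin, hLmap⟩ := descend (K := M.K) Qa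
  set Q' : Ideal (MvPolynomial (Fin (N + 1)) L) :=
    Qa.comap (MvPolynomial.map (algebraMap L (AlgebraicClosure M.K))) with hQ'
  have hQ'p : Q'.IsPrime := Ideal.comap_isPrime _ _
  have hQ'h : Homog Q' := homog_comap _ Qa hQah
  let Wv : ValuationSubring L := O.comap (algebraMap L (AlgebraicClosure M.K))
  have hWv : Wv.comap (algebraMap M.K L) = M.V := by rw [← hO]; rfl
  have hint : (algebraMap M.K L).IsIntegral := fun x => Algebra.IsIntegral.isIntegral x
  obtain ⟨⟨μV, hμV, hbij⟩, -, -, hdvr⟩ := hFdv M.K L (algebraMap M.K L) M.V Wv M.dvr hWv hint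
    M.F M.c M.bij
  have hdvr' : IsDiscreteValuationRing Wv := by
    apply hdvr
    exact RingHom.finite_algebraMap.mpr inferInstance
  obtain ⟨K₂, _, V₂, μ₂, c₂, h5, h6, h7, h8, h9⟩ := hCmb L Wv hdvr' M.F (μV.comp M.c) hbij
  -- geometric primality
  have hgeomL : ∀ (K' : Type) [Field K'] (μ : L →+* K'), (Q'.map (MvPolynomial.map μ)).IsPrime := by
    intro K' _ μ
    apply hGps L (N + 1) Q'
    let φ : AlgebraicClosure L →ₐ[L] AlgebraicClosure M.K := IsAlgClosed.lift
    have e1 : (Q'.map (MvPolynomial.map (σ := Fin (N + 1)) (algebraMap L (AlgebraicClosure L)))).map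
        (MvPolynomial.map φ.toRingHom) = Qa := by
      rw [map_map']
      have e2 : φ.toRingHom.comp (algebraMap L (AlgebraicClosure L)) =
          algebraMap L (AlgebraicClosure M.K) := RingHom.ext fun x => φ.commutes x
      rw [e2]
      exact hLmap
    rw [← BCH_.comap_map φ.toRingHom (Q'.map (MvPolynomial.map (algebraMap L (AlgebraicClosure L)))),
      e1]
    exact Ideal.comap_isPrime _ _
  have hcomap : V₂.comap (μ₂.comp (algebraMap M.K L)) = M.V := by
    rw [← hWv, ← h5]; rfl
  have hmem : ∀ x : M.V, (μ₂.comp (algebraMap M.K L)) x ∈ V₂ := by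
    intro x
    have h10 : (x : M.K) ∈ V₂.comap (μ₂.comp (algebraMap M.K L)) := by rw [hcomap]; exact x.2
    exact h10
  let νV : M.V →+* V₂ :=
    ((μ₂.comp (algebraMap M.K L)).comp M.V.subtype).codRestrict V₂.toSubring hmem
  have hchar : CharP K₂ p := charP_of_injective_ringHom (μ₂.comp (algebraMap M.K L)).injective p
  let M' : CompleteModel E (d + 1) := {
    K := K₂
    char := hchar
    V := V₂
    dvr := h6
    complete := h7
    F := M.F
    algebraic := M.algebraic
    c := c₂
    bij := h8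
    t := νV M.t
    P := M.P.map (MvPolynomial.map (μ₂.comp (algebraMap M.K L)))
    z := fun i => MvPolynomial.map νV (M.z i)
    close := hBch p N (d + 1) J E M.K M.V M.t M.P M.z M.close K₂ V₂ (μ₂.comp (algebraMap M.K L)) νV
      (fun _ => rfl) hcomap (M.geom K₂ _)
    geom := fun K' _ ν => by
      rw [map_map']
      exact M.geom K' _ }
  have hleL : T.Q.map (MvPolynomial.map (algebraMap M.K L)) ≤ Q' := by
    rw [hQ', Ideal.map_le_iff_le_comap, Ideal.comap_comap, ← Ideal.map_le_iff_le_comap]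
    refine le_trans (le_of_eq ?_) hIQ
    rw [hI]
    congr 1
    ext x
    · simp
    · simp
  have hle₂ : T.Q.map (MvPolynomial.map (μ₂.comp (algebraMap M.K L))) ≤
      Q'.map (MvPolynomial.map μ₂) := by
    rw [← map_map']
    exact Ideal.map_mono hleL
  have hνinj : Function.Injective νV := by
    intro x y hxy
    apply Subtype.ext
    apply (μ₂.comp (algebraMap M.K L)).injective
    exact congrArg (fun w : V₂ => (w : K₂)) hxy
  let T' : ExactPrime M' W := {
    ϖ := νV T.ϖ
    ϖ_ne := by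
      intro h0
      exact T.ϖ_ne (hνinj (by rw [h0, map_zero]))
    ϖ_nonunit := by
      intro h0
      apply T.ϖ_nonunit
      have ht0 : (T.ϖ : M.K) ≠ 0 := fun h1 => T.ϖ_ne (Subtype.ext h1)
      have h0' : IsUnit (νV T.ϖ : V₂) := h0
      obtain ⟨u, hu⟩ := h0'
      have h2' : (T.ϖ : M.K)⁻¹ ∈ V₂.comap (μ₂.comp (algebraMap M.K L)) := by
        rw [ValuationSubring.mem_comap, map_inv₀]
        have h3 : (((u⁻¹ : V₂ˣ) : V₂) : K₂) = (((u : V₂) : K₂))⁻¹ := by
          apply eq_inv_of_mul_eq_one_left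
          exact congrArg (fun x : V₂ => (x : K₂)) u.inv_mul
        have h4 : ((u : V₂) : K₂) = (μ₂.comp (algebraMap M.K L)) (T.ϖ : M.K) :=
          congrArg (fun x : V₂ => (x : K₂)) hu
        rw [← h4, ← h3]
        exact ((u⁻¹ : V₂ˣ) : V₂).2
      have h2 : (T.ϖ : M.K)⁻¹ ∈ M.V := by
        rw [hcomap] at h2'
        exact h2'
      refine IsUnit.of_mul_eq_one (⟨(T.ϖ : M.K)⁻¹, h2⟩ : M.V) ?_
      apply Subtype.ext
      change (T.ϖ : M.K) * (T.ϖ : M.K)⁻¹ = 1
      exact mul_inv_cancel₀ ht0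
    Q := Q'.map (MvPolynomial.map μ₂)
    prime := hgeomL K₂ μ₂
    hom := hom_map μ₂ Q' hQ'h
    le := le_trans (Ideal.map_mono T.le) hle₂
    dim := by
      rw [dimf_proof L K₂ μ₂ (N + 1) Q', ← hQad, ← hLmap,
        dimf_proof L (AlgebraicClosure M.K) (algebraMap L (AlgebraicClosure M.K)) (N + 1) Q']
    exact := by
      intro c hc
      obtain ⟨f, hf, hf0⟩ := T.exact c hc
      let q : MvPolynomial (Fin (N + 1)) M.K ⧸ T.Q →+*
          MvPolynomial (Fin (N + 1)) K₂ ⧸ Q'.map (MvPolynomial.map μ₂) :=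
        Ideal.quotientMap _ (MvPolynomial.map (μ₂.comp (algebraMap M.K L)))
          (Ideal.map_le_iff_le_comap.mp hle₂)
      have hqmk : ∀ F, q (Ideal.Quotient.mk _ F) =
          Ideal.Quotient.mk _ (MvPolynomial.map (μ₂.comp (algebraMap M.K L)) F) := fun F => rfl
      have hv : q.comp (vmap M.V T.Q) =
          (vmap V₂ (Q'.map (MvPolynomial.map μ₂))).comp (MvPolynomial.map νV) := by
        refine RingHom.ext fun F => ?_
        simp only [vmap, RingHom.comp_apply, hqmk, MvPolynomial.map_map]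
        rfl
      have e1 : q (Ideal.Quotient.mk T.Q (C ((T.ϖ : M.K)⁻¹) * X c)) =
          Ideal.Quotient.mk _ (C (((νV T.ϖ : V₂) : K₂)⁻¹) * X c) := by
        rw [hqmk, map_mul, map_C, map_X, map_inv₀]
        rfl
      refine ⟨f.map (MvPolynomial.map νV), hf.map _, ?_⟩
      change Polynomial.eval₂ (vmap V₂ (Q'.map (MvPolynomial.map μ₂)))
        (Ideal.Quotient.mk _ (C (((νV T.ϖ : V₂) : K₂)⁻¹) * X c)) _ = 0
      rw [← e1, Polynomial.eval₂_map, ← hv, ← Polynomial.hom_eval₂, hf0, map_zero] }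
  refine ⟨M', T', fun K' _ μ => ?_⟩
  change ((Q'.map (MvPolynomial.map μ₂)).map (MvPolynomial.map μ)).IsPrime
  rw [map_map']
  exact hgeomL K' _

end Pool.Agent.TFR
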